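import Pool.Agent.Lib.MP_f0744f_nt.C.Defs

/-! # Row A1: domains of the iterates -/

set_option autoImplicit false

open Polynomial

namespace F0744C

variable {S : Finset ℤ} {a : ℤ} {d : ℕ}

theorem Dm_sub (S : Finset ℤ) (a : ℤ) (ph : ℤ → ℤ) (J : ℕ) : Dm S a ph J ⊆ S := by
  cases J with
  | zero => exact subset_rfl
  | succ J => exact Finset.filter_subset _ _

theorem Dm_succ {ph : ℤ → ℤ} {J : ℕ} {x : ℤ} (hx : x ∈ Dm S a ph (J + 1)) :
    x ∈ S ∧ x ≠ a ∧ ph x ∈ Dm S a ph J := by
  have h := Finset.mem_filter.1 hx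
  exact ⟨h.1, h.2.1, h.2.2⟩

/-- induction on `J` -/
theorem Dm_anti (ph : ℤ → ℤ) (J : ℕ) : Dm S a ph (J + 1) ⊆ Dm S a ph J := by
  induction J with
  | zero => exact Dm_sub S a ph 1
  | succ J ih =>
    intro x hx
    obtain ⟨h1, h2, h3⟩ := Dm_succ hx
    exact Finset.mem_filter.2 ⟨h1, h2, ih h3⟩

/-- Model: `F0744.Dm_card` in `Pool/Agent/Lib/MP_f0744f_nt/RealS.lean` (the same proof). -/
theorem Dm_card (f : PM S a d) (J : ℕ) : S.card ≤ (Dm S a f.ph J).card + J := by
  classical
  induction J with
  | zero => simp [Dm]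
  | succ J ih =>
    -- the points of `S \ {a}` whose image is in `Dm J`
    set T : Finset ℤ := S.erase a with hT
    set D : Finset ℤ := Dm S a f.ph J with hD
    have hTS : ∀ x ∈ T, x ∈ S ∧ x ≠ a := by
      intro x hx
      rw [hT, Finset.mem_erase] at hx
      exact ⟨hx.2, hx.1⟩
    have himg : (T.image f.ph) ⊆ S := by
      intro y hy
      rw [Finset.mem_image] at hy
      obtain ⟨x, hx, rfl⟩ := hy
      exact f.maps x (hTS x hx).1 (hTS x hx).2
    have hcardimg : (T.image f.ph).card = T.card := by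
      apply Finset.card_image_of_injOn
      intro x hx y hy hxy
      exact f.inj x (hTS x hx).1 y (hTS y hy).1 (hTS x hx).2 (hTS y hy).2 hxy
    have hD' : (Dm S a f.ph (J + 1)) = T.filter (fun x => f.ph x ∈ D) := by
      ext x
      simp only [Dm, hT, hD, Finset.mem_filter, Finset.mem_erase]
      tauto
    have h1 : (T.filter (fun x => f.ph x ∉ D)).card ≤ (S \ D).card := by
      rw [← Finset.card_image_of_injOn (s := T.filter (fun x => f.ph x ∉ D)) (f := f.ph)]
      · apply Finset.card_le_card
        intro y hy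
        rw [Finset.mem_image] at hy
        obtain ⟨x, hx, rfl⟩ := hy
        rw [Finset.mem_filter] at hx
        rw [Finset.mem_sdiff]
        exact ⟨f.maps x (hTS x hx.1).1 (hTS x hx.1).2, hx.2⟩
      · intro x hx y hy hxy
        have hx' := (Finset.mem_filter.1 hx).1
        have hy' := (Finset.mem_filter.1 hy).1
        exact f.inj x (hTS x hx').1 y (hTS y hy').1 (hTS x hx').2 (hTS y hy').2 hxy
    have h2 : (T.filter (fun x => f.ph x ∈ D)).card + (T.filter (fun x => f.ph x ∉ D)).card
        = T.card := Finset.card_filter_add_card_filter_not _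
    have h3 : (S \ D).card = S.card - D.card := Finset.card_sdiff_of_subset (Dm_sub S a f.ph J)
    have h4 : S.card ≤ T.card + 1 := by
      rw [hT]
      have h6 := Finset.pred_card_le_card_erase (s := S) (a := a)
      omega
    rw [hD']
    have h5 : D.card ≤ S.card := Finset.card_le_card (Dm_sub S a f.ph J)
    omega

end F0744C
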