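import Pool.Agent.Lib.MP_f0744f_nt.C.Defs

/-! # Row A2: degree and leading coefficient of the basis polynomials -/

set_option autoImplicit false

open Polynomial

namespace F0744C

theorem A2_comp_ne {F : ℚ[X]} {d : ℕ} (hd : F.natDegree = d) (h1 : 1 ≤ d) {p : ℚ[X]} (hp : p ≠ 0) :
    p.comp F ≠ 0 := by
  intro h
  rcases Polynomial.comp_eq_zero_iff.1 h with h | h
  · exact hp h
  · have h2 : F.natDegree = 0 := by
      rw [h.2]
      exact Polynomial.natDegree_C _
    omega

theorem A2_ne {F : ℚ[X]} {d : ℕ} (hd : F.natDegree = d) (h1 : 1 ≤ d) (J : ℕ) :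
    ∀ n : ℕ, bp F d J n ≠ 0 := by
  induction J with
  | zero =>
    intro n
    rw [bp]
    exact pow_ne_zero _ Polynomial.X_ne_zero
  | succ J ih =>
    intro n
    rw [bp]
    exact mul_ne_zero (pow_ne_zero _ Polynomial.X_ne_zero) (A2_comp_ne hd h1 (ih _))

/-- Induction on `J`: `natDegree (X ^ (n % d) * (bp F d J (n / d)).comp F) = n % d + (n / d) * d = n`
(`natDegree_comp`, both factors are not zero). -/
theorem bp_natDegree {F : ℚ[X]} {d : ℕ} (hd : F.natDegree = d) (h1 : 1 ≤ d) (J n : ℕ) :
    (bp F d J n).natDegree = n := by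
  induction J generalizing n with
  | zero =>
    rw [bp]
    exact Polynomial.natDegree_X_pow n
  | succ J ih =>
    rw [bp, Polynomial.natDegree_mul (pow_ne_zero _ Polynomial.X_ne_zero)
      (A2_comp_ne hd h1 (A2_ne hd h1 J _)), Polynomial.natDegree_X_pow, Polynomial.natDegree_comp,
      ih, hd]
    exact Nat.mod_add_div' n d

/-- Induction on `J`: `leadingCoeff_comp` (`d ≠ 0`): the leading coefficient is
`α ^ (wd d J (n / d)) * α ^ (n / d)`. -/
theorem bp_leadingCoeff {F : ℚ[X]} {d : ℕ} (hd : F.natDegree = d) (h1 : 1 ≤ d) (J n : ℕ) :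
    (bp F d J n).leadingCoeff = F.leadingCoeff ^ wd d J n := by
  induction J generalizing n with
  | zero =>
    rw [bp, wd, pow_zero]
    exact Polynomial.leadingCoeff_X_pow n
  | succ J ih =>
    rw [bp, wd, Polynomial.leadingCoeff_mul, Polynomial.leadingCoeff_X_pow, one_mul,
      Polynomial.leadingCoeff_comp (by omega), ih, bp_natDegree hd h1, pow_add]

end F0744C
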