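import Pool.Agent.Lib.MP_f0744f_nt.C.Defs

/-! # Row A4: the exponents `wd` -/

set_option autoImplicit false

namespace F0744C

theorem A4_z_le {d : ℕ} (hd : 2 ≤ d) (J : ℕ) : 1 / (d : ℝ) ^ J ≤ 1 := by
  have hd1 : (1 : ℝ) ≤ d := by exact_mod_cast (by omega : 1 ≤ d)
  rw [div_le_one (by positivity)]
  exact one_le_pow₀ hd1

theorem A4_div_le {d : ℕ} (n : ℕ) (hd : 0 < d) : (n : ℝ) / d ≤ ((n / d : ℕ) : ℝ) + 1 := by
  have hd1 : (0 : ℝ) < d := by exact_mod_cast hd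
  rw [div_le_iff₀ hd1]
  have h1 : n < d * (n / d + 1) := Nat.lt_mul_div_succ n hd
  have h2 : (n : ℝ) < (d : ℝ) * (((n / d : ℕ) : ℝ) + 1) := by exact_mod_cast h1
  linarith

/-- Induction: `(d - 1) (wd d J q + q) ≤ q + (d - 1) q = d q ≤ n`, `q = n / d`. -/
theorem wd_le {d : ℕ} (hd : 1 ≤ d) (J n : ℕ) : (d - 1) * wd d J n ≤ n := by
  obtain ⟨e, rfl⟩ : ∃ e, d = e + 1 := ⟨d - 1, by omega⟩
  induction J generalizing n with
  | zero => simp [wd]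
  | succ J ih =>
    have h1 := ih (n / (e + 1))
    have h2 : (e + 1) * (n / (e + 1)) ≤ n := Nat.mul_div_le n (e + 1)
    simp only [wd, Nat.add_sub_cancel] at h1 ⊢
    rw [Nat.mul_add]
    have h3 : (e + 1) * (n / (e + 1)) = e * (n / (e + 1)) + n / (e + 1) := by ring
    omega

/-- Induction: with `q = n / d ≥ n / d - 1` (real division) and `z = 1 / d ^ J`:
`wd + q ≥ q (1 - z) / (d - 1) - J + q = q (d - z) / (d - 1) - J ≥ (n / d) (d - z) / (d - 1) - (d - z) / (d - 1) - J`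
and `(d - z) / d = 1 - z / d`; the loss `(d - z) / (d - 1) ≤ d / (d - 1) ≤ 2` is more than one: so the
statement has `- 2 J`. -/
theorem wd_ge {d : ℕ} (hd : 2 ≤ d) (J n : ℕ) :
    (n : ℝ) * (1 - 1 / (d : ℝ) ^ J) / ((d : ℝ) - 1) - 2 * J ≤ (wd d J n : ℝ) := by
  have hd2 : (2 : ℝ) ≤ d := by exact_mod_cast hd
  have hd1 : (0 : ℝ) < (d : ℝ) - 1 := by linarith
  induction J generalizing n with
  | zero => simp [wd]
  | succ J ih =>
    have h1 := ih (n / d)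
    have hz0 : 0 ≤ 1 / (d : ℝ) ^ J := by positivity
    have hz1 : 1 / (d : ℝ) ^ J ≤ 1 := A4_z_le hd J
    have hz2 : 1 / (d : ℝ) ^ (J + 1) = 1 / (d : ℝ) ^ J / d := by
      rw [pow_succ, div_div]
    set z : ℝ := 1 / (d : ℝ) ^ J with hz
    have hq : (n : ℝ) / d ≤ ((n / d : ℕ) : ℝ) + 1 := A4_div_le n (by omega)
    set q : ℝ := ((n / d : ℕ) : ℝ) with hqdef
    simp only [wd]
    rw [hz2]
    push_cast
    have h2 : (n : ℝ) * (1 - z / d) = (n : ℝ) / d * (d - z) := by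
      field_simp
    have h3 : (n : ℝ) / d * (d - z) ≤ (q + 1) * (d - z) :=
      mul_le_mul_of_nonneg_right hq (by linarith)
    have h4 : (n : ℝ) * (1 - z / d) / ((d : ℝ) - 1) ≤ (q + 1) * (d - z) / ((d : ℝ) - 1) := by
      rw [h2]
      exact div_le_div_of_nonneg_right h3 hd1.le
    have h5 : (q + 1) * (d - z) / ((d : ℝ) - 1) = q * (1 - z) / ((d : ℝ) - 1) + q + (d - z) / ((d : ℝ) - 1) := by
      field_simp
      ring
    have h6 : (d - z) / ((d : ℝ) - 1) ≤ 2 := by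
      rw [div_le_iff₀ hd1]
      linarith
    linarith

/-- Sum of `wd_ge`, `2 ∑_{n < t} n = t ^ 2 - t`, `(1 - z) / (d - 1) ≤ 1`. -/
theorem wd_sum {d : ℕ} (hd : 2 ≤ d) (J t : ℕ) :
    (1 - 1 / (d : ℝ) ^ J) / ((d : ℝ) - 1) * (t : ℝ) ^ 2 - (4 * J + 1) * t ≤
      2 * ∑ n ∈ Finset.range t, (wd d J n : ℝ) := by
  have hd2 : (2 : ℝ) ≤ d := by exact_mod_cast hd
  have hd1 : (0 : ℝ) < (d : ℝ) - 1 := by linarith
  have hz0 : 0 ≤ 1 / (d : ℝ) ^ J := by positivity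
  have hk : (1 - 1 / (d : ℝ) ^ J) / ((d : ℝ) - 1) ≤ 1 := by
    rw [div_le_iff₀ hd1]
    linarith
  induction t with
  | zero => simp
  | succ t ih =>
    rw [Finset.sum_range_succ, mul_add]
    have h1 := wd_ge hd J t
    rw [mul_div_assoc] at h1
    set k : ℝ := (1 - 1 / (d : ℝ) ^ J) / ((d : ℝ) - 1) with hkdef
    have h2 : k * ((t + 1 : ℕ) : ℝ) ^ 2 - (4 * J + 1) * ((t + 1 : ℕ) : ℝ) =
        (k * (t : ℝ) ^ 2 - (4 * J + 1) * t) + (2 * (t * k) + k - 4 * J - 1) := by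
      push_cast
      ring
    rw [h2]
    linarith

/-- `q = n / m ≥ n / m - 1` (real division), `q + wd d J q ≥ q (d - z) / (d - 1) - 2 J`, and
`1 ≤ (d - z) / (d - 1) ≤ 2`, `z = 1 / d ^ J`. -/
theorem wd_sum_class {d m : ℕ} (hd : 2 ≤ d) (hm : 1 ≤ m) (J t : ℕ) :
    ((d : ℝ) - 1 / (d : ℝ) ^ J) / ((d : ℝ) - 1) * ((t : ℝ) ^ 2 / m) - (4 * J + 6) * t ≤
      2 * ∑ n ∈ Finset.range t, (((n / m : ℕ) : ℝ) + (wd d J (n / m) : ℝ)) := by
  have hd2 : (2 : ℝ) ≤ d := by exact_mod_cast hd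
  have hd1 : (0 : ℝ) < (d : ℝ) - 1 := by linarith
  have hz0 : 0 ≤ 1 / (d : ℝ) ^ J := by positivity
  have hz1 : 1 / (d : ℝ) ^ J ≤ 1 := A4_z_le hd J
  have hm1 : (1 : ℝ) ≤ m := by exact_mod_cast hm
  have hk : ((d : ℝ) - 1 / (d : ℝ) ^ J) / ((d : ℝ) - 1) ≤ 2 := by
    rw [div_le_iff₀ hd1]
    linarith
  have hk0 : 0 ≤ ((d : ℝ) - 1 / (d : ℝ) ^ J) / ((d : ℝ) - 1) := div_nonneg (by linarith) hd1.le
  have hk2 : ((d : ℝ) - 1 / (d : ℝ) ^ J) / ((d : ℝ) - 1) =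
      1 + (1 - 1 / (d : ℝ) ^ J) / ((d : ℝ) - 1) := by
    field_simp
    ring
  induction t with
  | zero => simp
  | succ t ih =>
    rw [Finset.sum_range_succ, mul_add]
    have h1 := wd_ge hd J (t / m)
    rw [mul_div_assoc] at h1
    have hq : (t : ℝ) / m ≤ ((t / m : ℕ) : ℝ) + 1 := A4_div_le t (by omega)
    have h3 : (((d : ℝ) - 1 / (d : ℝ) ^ J) / ((d : ℝ) - 1)) * (1 / m) ≤
        (((d : ℝ) - 1 / (d : ℝ) ^ J) / ((d : ℝ) - 1)) * 1 := by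
      apply mul_le_mul_of_nonneg_left _ hk0
      rw [div_le_one (by linarith)]
      exact hm1
    have h4 : (((d : ℝ) - 1 / (d : ℝ) ^ J) / ((d : ℝ) - 1)) * ((t : ℝ) / m) ≤
        (((d : ℝ) - 1 / (d : ℝ) ^ J) / ((d : ℝ) - 1)) * (((t / m : ℕ) : ℝ) + 1) :=
      mul_le_mul_of_nonneg_left hq hk0
    set k : ℝ := ((d : ℝ) - 1 / (d : ℝ) ^ J) / ((d : ℝ) - 1) with hkdef
    set k0 : ℝ := (1 - 1 / (d : ℝ) ^ J) / ((d : ℝ) - 1) with hk0def
    set q : ℝ := ((t / m : ℕ) : ℝ) with hqdef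
    have h2 : k * (((t + 1 : ℕ) : ℝ) ^ 2 / m) - (4 * J + 6) * ((t + 1 : ℕ) : ℝ) =
        (k * ((t : ℝ) ^ 2 / m) - (4 * J + 6) * t) + (2 * (k * ((t : ℝ) / m)) + k * (1 / m) - 4 * J - 6) := by
      push_cast
      field_simp
      ring
    rw [h2]
    have h5 : k * (q + 1) = q + q * k0 + k := by
      rw [hk2]
      ring
    linarith

end F0744C
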