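import Pool.Agent.Lib.MP_f0744f_nt.C.A1
import Pool.Agent.Lib.MP_f0744f_nt.C.A4

/-! # Row A3: the values of the basis polynomials -/

set_option autoImplicit false

open Polynomial

namespace F0744C

variable {S : Finset ℤ} {a : ℤ} {d : ℕ}

/-- Induction on `J` (for all `n`, `x`). `J = 0`: `A (x ^ n) ≤ R ^ n`. `J + 1`: `x ≠ a`,
`F (x) = ph x ∈ Dm J`, `A (x ^ (n % d)) ≤ R ^ (n % d)` and the induction hypothesis for `n / d` and
`ph x`; exponents: `n % d + (n / d - (d - 1) * wd d J (n / d)) = n - (d - 1) * wd d (J + 1) n`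
because `n = n % d + d * (n / d)` and `(d - 1) * wd d J (n / d) ≤ n / d` (`wd_le`). -/
theorem bp_le (f : PM S a d) (hd : 1 ≤ d) {A : AbsoluteValue ℚ ℝ} {R : ℝ} (hR : 1 ≤ R)
    (hS : ∀ y ∈ S, A ((y : ℤ) : ℚ) ≤ R) (J n : ℕ) {x : ℤ} (hx : x ∈ Dm S a f.ph J) :
    A ((bp f.F d J n).eval (x : ℚ)) ≤ R ^ (n - (d - 1) * wd d J n) := by
  induction J generalizing n x with
  | zero =>
    have hxS : x ∈ S := Dm_sub _ _ _ _ hx
    simp only [bp, wd, eval_pow, eval_X, map_pow, mul_zero, Nat.sub_zero]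
    exact pow_le_pow_left₀ (A.nonneg _) (hS x hxS) n
  | succ J ih =>
    obtain ⟨hxS, hxa, hph⟩ := Dm_succ hx
    have h1 : (bp f.F d (J + 1) n).eval (x : ℚ) =
        (x : ℚ) ^ (n % d) * (bp f.F d J (n / d)).eval ((f.ph x : ℤ) : ℚ) := by
      simp only [bp, eval_mul, eval_pow, eval_X, eval_comp]
      rw [f.val x hxS hxa]
    rw [h1, map_mul, map_pow]
    have h2 : n - (d - 1) * wd d (J + 1) n = n % d + (n / d - (d - 1) * wd d J (n / d)) := by
      have h3 := wd_le hd J (n / d)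
      have h4 := Nat.mod_add_div n d
      have h5 : (d - 1) * wd d (J + 1) n = (d - 1) * wd d J (n / d) + (d - 1) * (n / d) := by
        simp only [wd, Nat.mul_add]
      have h6 : d * (n / d) = (d - 1) * (n / d) + n / d := by
        obtain ⟨k, rfl⟩ : ∃ k, d = k + 1 := ⟨d - 1, by omega⟩
        simp only [Nat.add_sub_cancel]
        ring
      rw [h5]
      generalize (d - 1) * wd d J (n / d) = u at *
      generalize (d - 1) * (n / d) = v at *
      generalize d * (n / d) = w at *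
      omega
    rw [h2, pow_add]
    exact mul_le_mul (pow_le_pow_left₀ (A.nonneg _) (hS x hxS) _) (ih (n / d) hph) (A.nonneg _)
      (by positivity)

end F0744C
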