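import Mathlib

/-! # Row A5: the leading coefficient by Lagrange interpolation -/

set_option autoImplicit false

open Polynomial

namespace F0744C

/-- `P = Lagrange.interpolate s v (fun i => P.eval (v i))` (`Lagrange.eq_interpolate`, degree `<`
`s.card`); the coefficient at `s.card - 1` of `Lagrange.basis s v i = ∏ (X - v j) / (v i - v j)` is
`(∏ (v i - v j))⁻¹`. -/
theorem lag_coeff {K ι : Type} [Field K] [DecidableEq ι] (s : Finset ι) (v : ι → K)
    (hv : Set.InjOn v s) (P : K[X]) (hP : P.natDegree < s.card) :
    ∑ i ∈ s, P.eval (v i) * (∏ j ∈ s.erase i, (v i - v j))⁻¹ = P.coeff (s.card - 1) := by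
  have hP' : P.degree < s.card :=
    lt_of_le_of_lt Polynomial.degree_le_natDegree (by exact_mod_cast hP)
  rw [Lagrange.coeff_eq_sum hv hP']
  exact Finset.sum_congr rfl fun i _ => (div_eq_mul_inv _ _).symm

end F0744C
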