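import Pool.Agent.Lib.MP_f0744f_nt.C.A2
import Pool.Agent.Lib.MP_f0744f_nt.C.A3
import Pool.Agent.Lib.MP_f0744f_nt.C.A5

/-! # Row A6: one point of `U` is close to the others -/

set_option autoImplicit false

open Polynomial

namespace F0744C

variable {S : Finset ℤ} {a : ℤ} {d : ℕ}

/-- `n = U.card - 1`, `b = bp f.F d J n`, degree `n`, leading coefficient `α ^ wd`. `lag_coeff`
(`K = ℚ`, `v = Int.cast`): `α ^ wd = ∑_{x ∈ U} b (x) / ∏_{y ≠ x} (x - y)`, so for the `x ∈ U` with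
the largest term (`Finset.exists_max_image`) `A α ^ wd ≤ (n + 1) R ^ (n - (d - 1) wd) / ∏ A (x - y)`
(`AbsoluteValue.sum_le`, `bp_le`). Logarithms: `α ≠ 0` since `natDegree = d ≥ 1`. -/
theorem exists_far (f : PM S a d) (hd : 1 ≤ d) (A : AbsoluteValue ℚ ℝ) {R : ℝ} (hR : 1 ≤ R)
    (hS : ∀ y ∈ S, A ((y : ℤ) : ℚ) ≤ R) (J : ℕ) {U : Finset ℤ} (hU : U ⊆ Dm S a f.ph J)
    (hne : U.Nonempty) :
    ∃ x ∈ U, (wd d J (U.card - 1) : ℝ) * mm A R d f.F - Real.log U.card ≤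
      ∑ y ∈ U.erase x, uu A R x y := by
  have hR0 : 0 < R := by linarith
  have hcard : 0 < U.card := Finset.card_pos.2 hne
  obtain ⟨n, hn⟩ : ∃ n : ℕ, n = U.card - 1 := ⟨_, rfl⟩
  have hn1 : U.card = n + 1 := by omega
  rw [← hn]
  obtain ⟨b, hb⟩ : ∃ b : ℚ[X], b = bp f.F d J n := ⟨_, rfl⟩
  have hdeg : b.natDegree = n := by rw [hb]; exact bp_natDegree f.deg hd J n
  have hlead : b.coeff n = f.F.leadingCoeff ^ wd d J n := by
    have h1 := bp_leadingCoeff f.deg hd J n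
    rw [← hb, Polynomial.leadingCoeff, hdeg] at h1
    exact h1
  have hF0 : f.F ≠ 0 := by
    intro h
    have h1 := f.deg
    rw [h, natDegree_zero] at h1
    omega
  have hα : f.F.leadingCoeff ≠ 0 := leadingCoeff_ne_zero.2 hF0
  have hinj : Set.InjOn (fun x : ℤ => (x : ℚ)) (U : Set ℤ) := fun x _ y _ h => by
    have h1 : ((x : ℤ) : ℚ) = ((y : ℤ) : ℚ) := h
    exact_mod_cast h1
  have hlag := lag_coeff (K := ℚ) U (fun x : ℤ => (x : ℚ)) hinj b (by rw [hdeg]; omega)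
  rw [← hn, hlead] at hlag
  -- the terms
  obtain ⟨t, ht⟩ : ∃ t : ℤ → ℝ, t = fun x : ℤ => A (b.eval ((x : ℤ) : ℚ)) * (∏ y ∈ U.erase x, A (((x : ℤ) : ℚ) - ((y : ℤ) : ℚ)))⁻¹ := ⟨_, rfl⟩
  obtain ⟨x0, hx0, hmax⟩ := Finset.exists_max_image U t hne
  have hsum : A f.F.leadingCoeff ^ wd d J n ≤ (U.card : ℝ) * t x0 := by
    calc A f.F.leadingCoeff ^ wd d J n = A (f.F.leadingCoeff ^ wd d J n) := (map_pow A _ _).symm
      _ = A (∑ i ∈ U, b.eval ((i : ℤ) : ℚ) * (∏ j ∈ U.erase i, (((i : ℤ) : ℚ) - ((j : ℤ) : ℚ)))⁻¹) := by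
          rw [← hlag]
      _ ≤ ∑ i ∈ U, A (b.eval ((i : ℤ) : ℚ) * (∏ j ∈ U.erase i, (((i : ℤ) : ℚ) - ((j : ℤ) : ℚ)))⁻¹) :=
          AbsoluteValue.sum_le A _ _
      _ = ∑ i ∈ U, t i := by
          apply Finset.sum_congr rfl
          intro i _
          rw [ht, map_mul, map_inv₀, map_prod]
      _ ≤ ∑ _i ∈ U, t x0 := Finset.sum_le_sum (fun i hi => hmax i hi)
      _ = (U.card : ℝ) * t x0 := by rw [Finset.sum_const, nsmul_eq_mul]
  have hpos : ∀ y ∈ U.erase x0, 0 < A ((x0 : ℚ) - y) := by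
    intro y hy
    apply AbsoluteValue.pos
    intro h
    have h1 : (x0 : ℚ) = y := sub_eq_zero.1 h
    have h2 : x0 = y := by exact_mod_cast h1
    exact (Finset.mem_erase.1 hy).1 h2.symm
  have hprod : 0 < ∏ y ∈ U.erase x0, A ((x0 : ℚ) - y) := Finset.prod_pos hpos
  have hble : A (b.eval (x0 : ℚ)) ≤ R ^ (n - (d - 1) * wd d J n) := by
    rw [hb]
    exact bp_le f hd hR hS J n (hU hx0)
  have hfin : A f.F.leadingCoeff ^ wd d J n * ∏ y ∈ U.erase x0, A ((x0 : ℚ) - y) ≤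
      (U.card : ℝ) * R ^ (n - (d - 1) * wd d J n) := by
    calc A f.F.leadingCoeff ^ wd d J n * ∏ y ∈ U.erase x0, A ((x0 : ℚ) - y)
        ≤ (U.card : ℝ) * t x0 * ∏ y ∈ U.erase x0, A ((x0 : ℚ) - y) :=
          mul_le_mul_of_nonneg_right hsum hprod.le
      _ = (U.card : ℝ) * A (b.eval (x0 : ℚ)) := by
          have e1 : t x0 = A (b.eval (x0 : ℚ)) * (∏ y ∈ U.erase x0, A ((x0 : ℚ) - y))⁻¹ := by rw [ht]
          rw [e1, mul_assoc, mul_assoc, inv_mul_cancel₀ hprod.ne', mul_one]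
      _ ≤ _ := mul_le_mul_of_nonneg_left hble (Nat.cast_nonneg _)
  have hAα : 0 < A f.F.leadingCoeff := A.pos hα
  have hU0 : (0 : ℝ) < U.card := by exact_mod_cast hcard
  have hlog := Real.log_le_log (by positivity) hfin
  rw [Real.log_mul (by positivity) hprod.ne', Real.log_mul hU0.ne' (by positivity), Real.log_pow, Real.log_pow,
    Real.log_prod (fun y hy => (hpos y hy).ne')] at hlog
  refine ⟨x0, hx0, ?_⟩
  have hcast : ((n - (d - 1) * wd d J n : ℕ) : ℝ) = (n : ℝ) - ((d : ℝ) - 1) * wd d J n := by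
    have h1 := wd_le hd J n
    rw [Nat.cast_sub h1, Nat.cast_mul, Nat.cast_sub hd, Nat.cast_one]
  rw [hcast] at hlog
  have huu : ∑ y ∈ U.erase x0, uu A R x0 y = (n : ℝ) * Real.log R - ∑ y ∈ U.erase x0, Real.log (A ((x0 : ℚ) - y)) := by
    unfold uu
    rw [Finset.sum_sub_distrib, Finset.sum_const, Finset.card_erase_of_mem hx0, ← hn, nsmul_eq_mul]
  rw [huu]
  unfold mm
  linarith

end F0744C
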