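import Mathlib

/-! # Row A7: removal of points, optimal nodes (abstract) -/

set_option autoImplicit false

namespace F0744C

theorem A7_insert {u : ℤ → ℤ → ℝ} (hsym : ∀ x y, u x y = u y x) (Q : Finset ℤ) (x : ℤ)
    (hx : x ∉ Q) :
    ∑ z ∈ insert x Q, ∑ y ∈ (insert x Q).erase z, u z y =
      ∑ z ∈ Q, ∑ y ∈ Q.erase z, u z y + 2 * ∑ y ∈ Q, u x y := by
  rw [Finset.sum_insert hx, Finset.erase_insert hx]
  have h1 : ∀ z ∈ Q, ∑ y ∈ (insert x Q).erase z, u z y = u x z + ∑ y ∈ Q.erase z, u z y := by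
    intro z hz
    have hzx : x ≠ z := fun e => hx (e ▸ hz)
    rw [Finset.erase_insert_of_ne hzx, Finset.sum_insert, hsym z x]
    intro hmem
    exact hx (Finset.mem_of_mem_erase hmem)
  rw [Finset.sum_congr rfl h1, Finset.sum_add_distrib]
  ring

/-- Induction on `T.card`: take the `x` given for `U = T`; the sum over `T` is the sum over
`T.erase x` plus `2 ∑_{y ∈ T.erase x} u x y`. -/
theorem en_ge {u : ℤ → ℤ → ℝ} (hsym : ∀ x y, u x y = u y x) (φ : ℕ → ℝ) (T : Finset ℤ)
    (h : ∀ U ⊆ T, U.Nonempty → ∃ x ∈ U, φ (U.card - 1) ≤ ∑ y ∈ U.erase x, u x y) :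
    2 * ∑ n ∈ Finset.range T.card, φ n ≤ ∑ x ∈ T, ∑ y ∈ T.erase x, u x y := by
  induction hn : T.card generalizing T with
  | zero =>
    rw [Finset.card_eq_zero] at hn
    subst hn
    simp
  | succ n ih =>
    have hne : T.Nonempty := by
      rw [← Finset.card_pos]
      omega
    obtain ⟨x, hx, hφ⟩ := h T (Finset.Subset.refl T) hne
    have hcard : (T.erase x).card = n := by
      rw [Finset.card_erase_of_mem hx, hn]
      rfl
    have ih' := ih (T.erase x)
      (fun U hU hne' => h U (hU.trans (Finset.erase_subset x T)) hne') hcard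
    have hins := A7_insert hsym (T.erase x) x (Finset.notMem_erase x T)
    rw [Finset.insert_erase hx] at hins
    rw [hins, Finset.sum_range_succ]
    rw [hn] at hφ
    have e : n + 1 - 1 = n := rfl
    rw [e] at hφ
    linarith

/-- Let `U ⊆ T`, `U.card = q + 1`, have the smallest energy (`∑ x ∈ U, ∑ y ∈ U.erase x, u x y`,
`Finset.exists_min_image` over `T.powersetCard (q + 1)`), `x` the point given by `h`, `Q = U.erase x`.
For `w ∈ T \ Q` the set `insert w Q` has an energy not smaller than `U`, that is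
`∑_{s ∈ Q} u w s ≥ ∑_{s ∈ Q} u x s ≥ V`. -/
theorem exists_nodes {u : ℤ → ℤ → ℝ} (hsym : ∀ x y, u x y = u y x) (T : Finset ℤ) (q : ℕ)
    (hq : q + 1 ≤ T.card) (V : ℝ)
    (h : ∀ U ⊆ T, U.card = q + 1 → ∃ x ∈ U, V ≤ ∑ y ∈ U.erase x, u x y) :
    ∃ Q ⊆ T, Q.card = q ∧ ∀ w ∈ T, w ∉ Q → V ≤ ∑ s ∈ Q, u w s := by
  have hne : (T.powersetCard (q + 1)).Nonempty := Finset.powersetCard_nonempty.2 hq
  obtain ⟨U, hU, hmin⟩ := Finset.exists_min_image (T.powersetCard (q + 1))
    (fun U => ∑ x ∈ U, ∑ y ∈ U.erase x, u x y) hne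
  rw [Finset.mem_powersetCard] at hU
  obtain ⟨x, hx, hV⟩ := h U hU.1 hU.2
  have hcard : (U.erase x).card = q := by
    rw [Finset.card_erase_of_mem hx, hU.2]
    rfl
  refine ⟨U.erase x, (Finset.erase_subset x U).trans hU.1, hcard, ?_⟩
  intro w hw hwQ
  have hmem : insert w (U.erase x) ∈ T.powersetCard (q + 1) := by
    rw [Finset.mem_powersetCard]
    refine ⟨?_, ?_⟩
    · intro z hz
      rw [Finset.mem_insert] at hz
      rcases hz with rfl | hz
      · exact hw
      · exact hU.1 (Finset.mem_of_mem_erase hz)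
    · rw [Finset.card_insert_of_notMem hwQ, hcard]
  have h1 := hmin _ hmem
  have h2 := A7_insert hsym (U.erase x) w hwQ
  have h3 := A7_insert hsym (U.erase x) x (Finset.notMem_erase x U)
  rw [Finset.insert_erase hx] at h3
  rw [h2, h3] at h1
  linarith

end F0744C
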