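import Pool.Agent.Lib.MP_f0744f_nt.C.A6
import Pool.Agent.Lib.MP_f0744f_nt.C.A7

/-! # Row A8: lower bound for the energy, optimal nodes -/

set_option autoImplicit false

open Polynomial

namespace F0744C

variable {S : Finset ℤ} {a : ℤ} {d : ℕ}

theorem uu_comm (A : AbsoluteValue ℚ ℝ) (R : ℝ) (x y : ℤ) : uu A R x y = uu A R y x := by
  unfold uu
  rw [A.map_sub]

/-- `en_ge` with `φ n = wd d J n * m - log (n + 1)` (`exists_far`), `wd_sum`,
`∑_{n < t} log (n + 1) ≤ t log t`. -/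
theorem En_ge (f : PM S a d) (hd : 2 ≤ d) (A : AbsoluteValue ℚ ℝ) {R : ℝ} (hR : 1 ≤ R)
    (hS : ∀ y ∈ S, A ((y : ℤ) : ℚ) ≤ R) (J : ℕ) {T : Finset ℤ} (hT : T ⊆ Dm S a f.ph J)
    (hm : 0 ≤ mm A R d f.F) :
    mm A R d f.F * ((1 - 1 / (d : ℝ) ^ J) / ((d : ℝ) - 1) * (T.card : ℝ) ^ 2 - (4 * J + 1) * T.card)
      - 2 * T.card * Real.log T.card ≤ En A R T := by
  have hd1 : 1 ≤ d := by omega
  have h1 := en_ge (u := uu A R) (uu_comm A R)
    (fun n => (wd d J n : ℝ) * mm A R d f.F - Real.log ((n : ℝ) + 1)) T (by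
      intro U hU hne
      obtain ⟨x, hx, h⟩ := exists_far f hd1 A hR hS J (hU.trans hT) hne
      refine ⟨x, hx, ?_⟩
      have hc : 1 ≤ U.card := hne.card_pos
      have e : (((U.card - 1 : ℕ) : ℝ) + 1) = (U.card : ℝ) := by
        rw [Nat.cast_sub hc]
        push_cast
        ring
      simp only [e]
      exact h)
  have h2 : ∑ n ∈ Finset.range T.card, Real.log ((n : ℝ) + 1) ≤ T.card * Real.log T.card := by
    have h3 : ∀ n ∈ Finset.range T.card, Real.log ((n : ℝ) + 1) ≤ Real.log T.card := by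
      intro n hn
      rw [Finset.mem_range] at hn
      apply Real.log_le_log (by positivity)
      exact_mod_cast hn
    have h4 := Finset.sum_le_sum h3
    rwa [Finset.sum_const, Finset.card_range, nsmul_eq_mul] at h4
  rw [Finset.sum_sub_distrib, ← Finset.sum_mul] at h1
  have h5 := mul_le_mul_of_nonneg_right (wd_sum hd J T.card) hm
  unfold En
  nlinarith

/-- `exists_nodes` for `u = uu A R`, `T = Dm S a f.ph J`, and `exists_far`. -/
theorem nodes (f : PM S a d) (hd : 1 ≤ d) (A : AbsoluteValue ℚ ℝ) {R : ℝ} (hR : 1 ≤ R)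
    (hS : ∀ y ∈ S, A ((y : ℤ) : ℚ) ≤ R) (J q : ℕ) (hq : q + 1 ≤ (Dm S a f.ph J).card) :
    ∃ Q ⊆ Dm S a f.ph J, Q.card = q ∧ ∀ w ∈ Dm S a f.ph J, w ∉ Q →
      (wd d J q : ℝ) * mm A R d f.F - Real.log (q + 1) ≤ ∑ s ∈ Q, uu A R w s := by
  refine exists_nodes (uu_comm A R) _ q hq _ ?_
  intro U hU hc
  have hne : U.Nonempty := by
    rw [← Finset.card_pos]
    omega
  obtain ⟨x, hx, h⟩ := exists_far f hd A hR hS J hU hne
  refine ⟨x, hx, ?_⟩
  rw [hc, Nat.add_sub_cancel] at h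
  push_cast at h
  exact h

end F0744C
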