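import Mathlib

/-! # MP_f0744f_nt, coprime degrees: definitions -/

set_option autoImplicit false

open Polynomial

namespace F0744C

/-- A polynomial `F` of degree `d` acting on a finite set `S` of integers minus the point `a`: it
maps `S \ {a}` injectively into `S`. -/
structure PM (S : Finset ℤ) (a : ℤ) (d : ℕ) where
  F : ℚ[X]
  deg : F.natDegree = d
  ph : ℤ → ℤ
  maps : ∀ x ∈ S, x ≠ a → ph x ∈ S
  val : ∀ x ∈ S, x ≠ a → ((ph x : ℤ) : ℚ) = F.eval (x : ℚ)
  inj : ∀ x ∈ S, ∀ y ∈ S, x ≠ a → y ≠ a → ph x = ph y → x = y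

/-- the points of `S` whose first `J` iterates exist -/
def Dm (S : Finset ℤ) (a : ℤ) (ph : ℤ → ℤ) : ℕ → Finset ℤ
  | 0 => S
  | J + 1 => S.filter (fun x => x ≠ a ∧ ph x ∈ Dm S a ph J)

/-- basis polynomials: products of iterates, digits of `n` in base `d` -/
noncomputable def bp (F : ℚ[X]) (d : ℕ) : ℕ → ℕ → ℚ[X]
  | 0, n => X ^ n
  | J + 1, n => X ^ (n % d) * (bp F d J (n / d)).comp F

/-- exponent of the leading coefficient of `bp` -/
def wd (d : ℕ) : ℕ → ℕ → ℕ
  | 0, _ => 0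
  | J + 1, n => wd d J (n / d) + n / d

/-- logarithmic proximity of `x, y` for the absolute value `A` at the scale `R` -/
noncomputable def uu (A : AbsoluteValue ℚ ℝ) (R : ℝ) (x y : ℤ) : ℝ :=
  Real.log R - Real.log (A ((x : ℚ) - y))

/-- the energy of `T` (ordered pairs) -/
noncomputable def En (A : AbsoluteValue ℚ ℝ) (R : ℝ) (T : Finset ℤ) : ℝ :=
  ∑ x ∈ T, ∑ y ∈ T.erase x, uu A R x y

/-- `m = log (A α) + (d - 1) log R`, `α` the leading coefficient of `F` -/
noncomputable def mm (A : AbsoluteValue ℚ ℝ) (R : ℝ) (d : ℕ) (F : ℚ[X]) : ℝ :=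
  Real.log (A F.leadingCoeff) + ((d : ℝ) - 1) * Real.log R

/-- the `p`-adic absolute value for every `p` (trivial if `p` is not a prime) -/
noncomputable def vp (p : ℕ) (x : ℚ) : ℝ := (padicValRat p x : ℝ) * Real.log p

/-- the `p`-adic energy of `T` -/
noncomputable def EnP (p : ℕ) (T : Finset ℤ) : ℝ :=
  ∑ x ∈ T, ∑ y ∈ T.erase x, vp p ((x : ℚ) - y)

/-- the `p`-adic `m` -/
noncomputable def mP (p : ℕ) (F : ℚ[X]) : ℝ := - vp p F.leadingCoeff

/-- the primes up to `B` -/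
def Ps (B : ℕ) : Finset ℕ := (Finset.range (B + 1)).filter Nat.Prime

/-- an integral multiple `G = c F` of `F` whose reduction modulo `p` is not zero -/
structure Red (F : ℚ[X]) (p : ℕ) where
  c : ℤ
  hc : c ≠ 0
  G : ℤ[X]
  hG : G.map (Int.castRingHom ℚ) = C (c : ℚ) * F
  hne : G.map (Int.castRingHom (ZMod p)) ≠ 0
  hval : - padicValRat p F.leadingCoeff ≤ (padicValInt p c : ℤ)

/-- the multiplicity of the residue `ρ` -/
noncomputable def Red.mu {F : ℚ[X]} {p : ℕ} (r : Red F p) (ρ : ZMod p) : ℕ :=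
  (r.G.map (Int.castRingHom (ZMod p))).rootMultiplicity ρ

/-- the elements of `T` in the residue class `ρ` -/
def cls (p : ℕ) (T : Finset ℤ) (ρ : ZMod p) : Finset ℤ := T.filter (fun x => (x : ZMod p) = ρ)

open Classical in
/-- the number of complex roots of `F` (with multiplicity) in the disc of radius `r` about `c` -/
noncomputable def cnt (F : ℚ[X]) (c : ℂ) (r : ℝ) : ℕ :=
  (F.map (algebraMap ℚ ℂ)).roots.countP (fun z => ‖z - c‖ ≤ r)

open Classical in
/-- the elements of `T` in the disc of radius `r` about `c` -/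
noncomputable def dsc (T : Finset ℤ) (c : ℂ) (r : ℝ) : Finset ℤ :=
  T.filter (fun x => ‖(x : ℂ) - c‖ ≤ r)

/-- size condition on the number of points `t`: `t` is large compared with `d, J, 1 / ε` -/
def Big (d J : ℕ) (ε : ℝ) (t : ℕ) : Prop :=
  ((d : ℝ) + 1) * ((2 * J + 8) * t + 4 * t * Real.log t / Real.log 2) ≤ ε * (t : ℝ) ^ 2

/-- `f` compresses `S`: for some `x₀ ∈ S` the points `x₀, f(x₀), …, f^{N-1}(x₀)`, `N = |S|`, are
exactly the elements of `S`. -/
def Compresses (f : ℝ[X]) (S : Finset ℚ) : Prop :=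
  ∃ x₀ ∈ S, (Finset.range S.card).image (fun i => (fun y : ℝ => f.eval y)^[i] (x₀ : ℝ)) =
    S.image (fun q : ℚ => (q : ℝ))

/-- the integral core -/
def MainInt (d e : ℕ) : Prop :=
  ∃ N0 : ℕ, ∀ (S : Finset ℤ) (a b : ℤ), a ∈ S → b ∈ S → a ≠ b → (0 : ℤ) ∈ S → N0 ≤ S.card →
    (∀ p : ℕ, p.Prime → ∃ x ∈ S, ∃ y ∈ S, ¬ (p : ℤ) ∣ x - y) →
    ∀ (_ : PM S a d) (_ : PM S b e), False

end F0744C
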