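import Pool.Agent.Lib.MP_f0744f_nt.C.P3

/-! # Row G1: logarithms of integers, p-adic energies -/

set_option autoImplicit false

open Polynomial

namespace F0744C

/-- `vp p (x - y) = padicValInt p (x - y) * log p ≥ 0`. -/
theorem EnP_nonneg {p : ℕ} (hp : p.Prime) (T : Finset ℤ) : 0 ≤ EnP p T := by
  unfold EnP
  apply Finset.sum_nonneg
  intro x _
  apply Finset.sum_nonneg
  intro y _
  unfold vp
  have h : ((x : ℚ) - (y : ℚ)) = (((x - y : ℤ)) : ℚ) := by push_cast; ring
  rw [h, padicValRat.of_int]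
  apply mul_nonneg
  · exact_mod_cast Nat.zero_le _
  · exact Real.log_nonneg (by exact_mod_cast hp.one_le)

/-- `uu_padic`. -/
theorem EnP_eq (p : ℕ) [Fact p.Prime] (T : Finset ℤ) :
    EnP p T = En (Rat.AbsoluteValue.padic p) 1 T := by
  unfold EnP En
  refine Finset.sum_congr rfl fun x _ => Finset.sum_congr rfl fun y hy => ?_
  rw [uu_padic p (Finset.ne_of_mem_erase hy).symm]

/-- `n = ∏ p ^ v_p (n)` over `p ≤ B`. Model: `F0744.E_log` in `Pool/Agent/Lib/MP_f0744f_nt/Glob.lean`. -/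
theorem log_eq_sum {n : ℤ} (hn : n ≠ 0) {B : ℕ} (hB : |(n : ℝ)| ≤ B) :
    ∑ p ∈ Ps B, vp p (n : ℚ) = Real.log |(n : ℝ)| := by
  have hm : n.natAbs ≠ 0 := Int.natAbs_ne_zero.2 hn
  have habs : |(n : ℝ)| = (n.natAbs : ℝ) := by rw [Nat.cast_natAbs, Int.cast_abs]
  have hmB : n.natAbs ≤ B := by
    rw [habs] at hB
    exact_mod_cast hB
  have h1 : ∀ p ∈ Ps B, vp p (n : ℚ) = ((n.natAbs.factorization p : ℕ) : ℝ) * Real.log p := by
    intro p hp
    have hp' : p.Prime := (Finset.mem_filter.1 hp).2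
    unfold vp
    rw [padicValRat.of_int]
    have : padicValInt p n = n.natAbs.factorization p := by
      rw [Nat.factorization_def _ hp']
      rfl
    rw [this]
    norm_cast
  rw [Finset.sum_congr rfl h1, habs, Real.log_nat_eq_sum_factorization,
    Finsupp.sum_of_support_subset]
  · intro p hp
    rw [Nat.support_factorization, Nat.mem_primeFactors] at hp
    unfold Ps
    rw [Finset.mem_filter, Finset.mem_range]
    exact ⟨Nat.lt_succ_of_le ((Nat.le_of_dvd (Nat.pos_of_ne_zero hm) hp.2.1).trans hmB), hp.1⟩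
  · intro p _
    simp

end F0744C
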