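import Pool.Agent.Lib.MP_f0744f_nt.C.G1

/-! # Row G1b: the product formula for the energies -/

set_option autoImplicit false

open Polynomial

namespace F0744C

/-- `log_eq_sum` for each pair (`|x - y| ≤ 2 L ≤ B`), and `uu real L x y = log L - log |x - y|`; there are
`t (t - 1)` ordered pairs. -/
theorem energy_sum (T : Finset ℤ) {L : ℝ} (hL : ∀ x ∈ T, |((x : ℤ) : ℝ)| ≤ L) {B : ℕ}
    (hB : 2 * L ≤ B) :
    ∑ p ∈ Ps B, EnP p T + En Rat.AbsoluteValue.real L T =
      (T.card : ℝ) * ((T.card : ℝ) - 1) * Real.log L := by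
  have h1 : ∑ p ∈ Ps B, EnP p T =
      ∑ x ∈ T, ∑ y ∈ T.erase x, Real.log |((x - y : ℤ) : ℝ)| := by
    unfold EnP
    rw [Finset.sum_comm]
    refine Finset.sum_congr rfl fun x hx => ?_
    rw [Finset.sum_comm]
    refine Finset.sum_congr rfl fun y hy => ?_
    have hne : x - y ≠ 0 := sub_ne_zero.2 (Finset.ne_of_mem_erase hy).symm
    have hyT : y ∈ T := Finset.mem_of_mem_erase hy
    have hb : |((x - y : ℤ) : ℝ)| ≤ B := by
      push_cast
      have h2 := abs_le.1 (hL x hx)
      have h3 := abs_le.1 (hL y hyT)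
      rw [abs_le]
      constructor
      · linarith [h2.1, h3.2]
      · linarith [h2.2, h3.1]
    have h4 := log_eq_sum hne hb
    rw [← h4]
    refine Finset.sum_congr rfl fun p _ => ?_
    push_cast
    rfl
  have h2 : En Rat.AbsoluteValue.real L T =
      ∑ x ∈ T, ∑ y ∈ T.erase x, (Real.log L - Real.log |((x - y : ℤ) : ℝ)|) := by
    unfold En uu
    refine Finset.sum_congr rfl fun x _ => Finset.sum_congr rfl fun y _ => ?_
    rw [Rat.AbsoluteValue.real_eq_abs]
    push_cast
    rfl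
  rw [h1, h2, ← Finset.sum_add_distrib]
  have h3 : ∀ x ∈ T, (∑ y ∈ T.erase x, Real.log |((x - y : ℤ) : ℝ)| +
      ∑ y ∈ T.erase x, (Real.log L - Real.log |((x - y : ℤ) : ℝ)|)) =
      ((T.card : ℝ) - 1) * Real.log L := by
    intro x hx
    rw [← Finset.sum_add_distrib]
    have h4 : ∀ y ∈ T.erase x, (Real.log |((x - y : ℤ) : ℝ)| +
        (Real.log L - Real.log |((x - y : ℤ) : ℝ)|)) = Real.log L := fun y _ => by ring
    rw [Finset.sum_congr rfl h4, Finset.sum_const, Finset.card_erase_of_mem hx, nsmul_eq_mul]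
    have h5 : 1 ≤ T.card := Finset.card_pos.2 ⟨x, hx⟩
    rw [Nat.cast_sub h5]
    push_cast
    rfl
  rw [Finset.sum_congr rfl h3, Finset.sum_const, nsmul_eq_mul]
  ring

end F0744C
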