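import Pool.Agent.Lib.MP_f0744f_nt.C.Defs

/-! # Row G2: the product formula for the leading coefficient -/

set_option autoImplicit false

open Polynomial

namespace F0744C

theorem G2_log_nat {n : ℕ} (hn : n ≠ 0) {B : ℕ} (hB : n ≤ B) :
    ∑ p ∈ Ps B, ((padicValNat p n : ℕ) : ℝ) * Real.log p = Real.log (n : ℝ) := by
  have h1 : ∑ p ∈ Ps B, ((padicValNat p n : ℕ) : ℝ) * Real.log p
      = ∑ p ∈ n.factorization.support, ((padicValNat p n : ℕ) : ℝ) * Real.log p := by
    symm
    apply Finset.sum_subset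
    · intro p hp
      rw [Nat.support_factorization, Nat.mem_primeFactors] at hp
      rw [Ps, Finset.mem_filter, Finset.mem_range]
      exact ⟨Nat.lt_succ_of_le ((Nat.le_of_dvd (Nat.pos_of_ne_zero hn) hp.2.1).trans hB), hp.1⟩
    · intro p hp hp'
      rw [Ps, Finset.mem_filter] at hp
      rw [Finsupp.notMem_support_iff, Nat.factorization_def n hp.2] at hp'
      rw [hp']
      simp
  rw [h1]
  conv_rhs => rw [← Nat.prod_factorization_pow_eq_self hn]
  rw [Finsupp.prod, Nat.cast_prod, Real.log_prod]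
  · apply Finset.sum_congr rfl
    intro p hp
    rw [Nat.support_factorization, Nat.mem_primeFactors] at hp
    rw [Nat.cast_pow, Real.log_pow, Nat.factorization_def n hp.1]
  · intro p hp
    rw [Nat.support_factorization, Nat.mem_primeFactors] at hp
    exact_mod_cast pow_ne_zero _ hp.1.ne_zero

/-- `∑_p max 0 (- v_p (q) log p) ≥ ∑_p v_p (q.den) log p = log q.den` (all primes dividing `q.den` are `≤ B`;
`padicValRat p q = v_p (num) - v_p (den)` with one of the two zero), and `log |q| = log |q.num| - log q.den ≥ - log q.den`. -/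
theorem prod_form {q : ℚ} (hq : q ≠ 0) {B : ℕ} (hB : q.den ≤ B) :
    0 ≤ ∑ p ∈ Ps B, max 0 (- vp p q) + Real.log |(q : ℝ)| := by
  have h1 : Real.log (q.den : ℝ) ≤ ∑ p ∈ Ps B, max 0 (- vp p q) := by
    rw [← G2_log_nat q.den_ne_zero hB]
    apply Finset.sum_le_sum
    intro p hp
    rw [Ps, Finset.mem_filter] at hp
    have hpr := hp.2
    by_cases hd : p ∣ q.den
    · apply le_max_of_le_right
      have hnum : padicValInt p q.num = 0 := by
        apply padicValInt.eq_zero_of_not_dvd
        intro h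
        have h2 : p ∣ q.num.natAbs := Int.natCast_dvd.mp h
        have h3 := Nat.Coprime.eq_one_of_dvd (Nat.Coprime.coprime_dvd_left h2 q.reduced) hd
        exact hpr.one_lt.ne' h3
      have h4 : padicValRat p q = -(padicValNat p q.den : ℤ) := by
        rw [padicValRat, hnum, Nat.cast_zero, zero_sub]
      rw [vp, h4, Int.cast_neg, Int.cast_natCast]
      apply le_of_eq
      ring
    · apply le_max_of_le_left
      rw [padicValNat.eq_zero_of_not_dvd hd]
      simp
  have h2 : - Real.log (q.den : ℝ) ≤ Real.log |(q : ℝ)| := by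
    have hden : (0 : ℝ) < (q.den : ℝ) := by exact_mod_cast q.pos
    have hn : (1 : ℝ) ≤ |(q.num : ℝ)| := by
      have : q.num ≠ 0 := Rat.num_ne_zero.mpr hq
      exact_mod_cast Int.one_le_abs this
    have h3 : |(q : ℝ)| = |(q.num : ℝ)| / (q.den : ℝ) := by
      rw [Rat.cast_def, abs_div, abs_of_pos hden]
    rw [h3, Real.log_div (by linarith) hden.ne']
    have := Real.log_nonneg hn
    linarith
  linarith

/-- `prod_form` for the leading coefficient; `Rat.AbsoluteValue.real q = |q|`. -/
theorem sum_mm {F : ℚ[X]} (hF : F ≠ 0) (d : ℕ) {B : ℕ} (hB : F.leadingCoeff.den ≤ B) (L : ℝ) :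
    ((d : ℝ) - 1) * Real.log L ≤
      ∑ p ∈ Ps B, max 0 (mP p F) + mm Rat.AbsoluteValue.real L d F := by
  have h := prod_form (leadingCoeff_ne_zero.mpr hF) hB
  simp only [mP, mm]
  have h2 : Rat.AbsoluteValue.real F.leadingCoeff = |(F.leadingCoeff : ℝ)| := by
    simp [Rat.AbsoluteValue.real_eq_abs]
  rw [h2]
  linarith

end F0744C
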