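import Pool.Agent.Lib.MP_f0744f_nt.C.G3a

/-! # Row G3: a tight place -/

set_option autoImplicit false

namespace F0744C

theorem G3_aux {ι : Type} [DecidableEq ι] (P G G' : Finset ι) (E A B : ι → ℝ)
    {E0 x Q Λ ε : ℝ} (hQ : 0 < Q) (hΛ : 0 < Λ) (hε1 : ε < 1 / 64)
    (hG : G ⊆ P) (hG' : G' ⊆ P) (hd : Disjoint G G') (hE : ∑ p ∈ P, E p + E0 ≤ Q * Λ)
    (hE0 : ∀ p ∈ P, 0 ≤ E p)
    (h1 : ∀ p ∈ P, (1 - ε) * Q * A p ≤ E p) (h1' : ∀ p ∈ P, (1 - ε) * Q * B p ≤ E p)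
    (h2 : (1 - ε) * Q * x - ε * Q * Λ ≤ E0)
    (hA : (31 / 33 - 1 / 4) * Λ ≤ ∑ p ∈ G, A p) (hB : 31 / 33 * Λ ≤ ∑ p ∈ G', B p + x) : False := by
  have e1 : ∑ p ∈ G, E p + ∑ p ∈ G', E p ≤ ∑ p ∈ P, E p := by
    rw [← Finset.sum_union hd]
    exact Finset.sum_le_sum_of_subset_of_nonneg (Finset.union_subset hG hG')
      (fun p hp _ => hE0 p hp)
  have e2 : (1 - ε) * Q * ∑ p ∈ G, A p ≤ ∑ p ∈ G, E p := by
    rw [Finset.mul_sum]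
    exact Finset.sum_le_sum (fun p hp => h1 p (hG hp))
  have e3 : (1 - ε) * Q * ∑ p ∈ G', B p ≤ ∑ p ∈ G', E p := by
    rw [Finset.mul_sum]
    exact Finset.sum_le_sum (fun p hp => h1' p (hG' hp))
  have hq : 0 < (1 - ε) * Q := mul_pos (by linarith) hQ
  have e4 : (1 - ε) * Q * ((31 / 33 - 1 / 4) * Λ + 31 / 33 * Λ) ≤
      (1 - ε) * Q * (∑ p ∈ G, A p + (∑ p ∈ G', B p + x)) :=
    mul_le_mul_of_nonneg_left (by linarith) hq.le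
  have hp : 0 < Q * Λ := mul_pos hQ hΛ
  have e5 : (1 - ε) * Q * ((31 / 33 - 1 / 4) * Λ + 31 / 33 * Λ) - ε * Q * Λ ≤ Q * Λ := by
    nlinarith [e1, e2, e3, e4]
  have e6 : (1 - ε) * Q * ((31 / 33 - 1 / 4) * Λ + 31 / 33 * Λ) - ε * Q * Λ =
      (215 / 132 - (347 / 132) * ε) * (Q * Λ) := by ring
  rw [e6] at e5
  nlinarith [mul_pos hp (show (0:ℝ) < 1 / 64 - ε by linarith)]

/-- `G`, `G'` the sets of `tight_one` for `M`, `M'` (`Finset.filter`, classical). Suppose `G`, `G'` are disjoint and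
the second alternative fails. Then, say, `M0 < Λ / 4` or `(1 + η) Q M0 < E0` (or the same for `M0'`: symmetric), so
by `tight_one` `∑_G M p ≥ (31 / 33 - 1 / 4) Λ`, and `∑_{G'} M' p + max 0 M0' ≥ 31 / 33 Λ`. Then
`Q Λ ≥ ∑_G E p + ∑_{G'} E p + E0 ≥ (1 - ε) Q (31 / 33 - 1 / 4 + 31 / 33) Λ - ε Q Λ > Q Λ` (`ε < 1 / 64`):
contradiction. (`E p ≥ 0` for all `p ∈ P`.) -/
theorem tight {ι : Type} [DecidableEq ι] (P : Finset ι) (E M M' : ι → ℝ)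
    {E0 M0 M0' Q Λ ε η : ℝ} (hQ : 0 < Q) (hΛ : 0 < Λ) (hε : 0 < ε) (hη : η ≤ 1 / 2)
    (h : 32 * ε < η) (hE : ∑ p ∈ P, E p + E0 ≤ Q * Λ)
    (hM : ∀ p ∈ P, 0 ≤ M p) (hM' : ∀ p ∈ P, 0 ≤ M' p)
    (h1 : ∀ p ∈ P, (1 - ε) * Q * M p ≤ E p) (h1' : ∀ p ∈ P, (1 - ε) * Q * M' p ≤ E p)
    (h2 : (1 - ε) * Q * max 0 M0 - ε * Q * Λ ≤ E0)
    (h2' : (1 - ε) * Q * max 0 M0' - ε * Q * Λ ≤ E0)
    (h3 : Λ ≤ ∑ p ∈ P, M p + M0) (h3' : Λ ≤ ∑ p ∈ P, M' p + M0') :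
    (∃ p ∈ P, 0 < E p ∧ E p ≤ (1 + η) * Q * M p ∧ E p ≤ (1 + η) * Q * M' p) ∨
      (Λ / 4 ≤ M0 ∧ Λ / 4 ≤ M0' ∧ E0 ≤ (1 + η) * Q * M0 ∧ E0 ≤ (1 + η) * Q * M0') := by
  classical
  have hε1 : ε < 1 / 64 := by linarith
  have hE0 : ∀ p ∈ P, 0 ≤ E p := fun p hp =>
    le_trans (mul_nonneg (mul_nonneg (by linarith) hQ.le) (hM p hp)) (h1 p hp)
  set G := P.filter (fun p => 0 < E p ∧ E p ≤ (1 + η) * Q * M p) with hGd
  set G' := P.filter (fun p => 0 < E p ∧ E p ≤ (1 + η) * Q * M' p) with hGd'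
  have hG : ∀ p, p ∈ G ↔ p ∈ P ∧ 0 < E p ∧ E p ≤ (1 + η) * Q * M p := fun p => by
    rw [hGd, Finset.mem_filter]
  have hG' : ∀ p, p ∈ G' ↔ p ∈ P ∧ 0 < E p ∧ E p ≤ (1 + η) * Q * M' p := fun p => by
    rw [hGd', Finset.mem_filter]
  obtain ⟨t1, t2⟩ := tight_one P E M hQ hΛ hε hη h hE hM h1 h2 h3 hG
  obtain ⟨t1', t2'⟩ := tight_one P E M' hQ hΛ hε hη h hE hM' h1' h2' h3' hG'
  by_contra hcon
  rw [not_or] at hcon
  obtain ⟨c1, c2⟩ := hcon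
  have hdis : Disjoint G G' := by
    rw [Finset.disjoint_left]
    intro p hp hp'
    rw [hG] at hp
    rw [hG'] at hp'
    exact c1 ⟨p, hp.1, hp.2.1, hp.2.2, hp'.2.2⟩
  have hsub : G ⊆ P := Finset.filter_subset _ _
  have hsub' : G' ⊆ P := Finset.filter_subset _ _
  have key : (31 / 33 - 1 / 4) * Λ ≤ ∑ p ∈ G, M p ∨ (31 / 33 - 1 / 4) * Λ ≤ ∑ p ∈ G', M' p := by
    by_contra hk
    rw [not_or, not_le, not_le] at hk
    apply c2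
    refine ⟨?_, ?_, ?_, ?_⟩
    · by_contra hh
      rw [not_le] at hh
      have : max 0 M0 ≤ Λ / 4 := max_le (by linarith) hh.le
      linarith [hk.1]
    · by_contra hh
      rw [not_le] at hh
      have : max 0 M0' ≤ Λ / 4 := max_le (by linarith) hh.le
      linarith [hk.2]
    · by_contra hh
      rw [not_le] at hh
      linarith [t2 hh, hk.1]
    · by_contra hh
      rw [not_le] at hh
      linarith [t2' hh, hk.2]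
  rcases key with hk | hk
  · exact G3_aux P G G' E M M' hQ hΛ hε1 hsub hsub' hdis hE hE0 h1 h1' h2' hk t1'
  · exact G3_aux P G' G E M' M hQ hΛ hε1 hsub' hsub hdis.symm hE hE0 h1' h1 h2 hk t1

end F0744C
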