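import Mathlib

/-! # Row G3a: one map -/

set_option autoImplicit false

namespace F0744C

/-- One map. `G` = the `p ∈ P` with `0 < E p` and `E p ≤ (1 + η) Q M p`, `m0 = max 0 M0`. For `p ∈ P`, `p ∉ G`:
`E p ≥ (1 + η) Q M p` (if `E p ≤ 0` then `M p = 0`, `E p = 0`); for `p ∈ G`: `E p ≥ (1 - ε) Q M p`. For the real place
`E0 ≥ (1 - ε) Q m0 - ε Q Λ`, and `E0 ≥ (1 + η) Q m0 - ε Q Λ` if `E0 > (1 + η) Q M0`. Sum:
`Q Λ ≥ (1 + η) Q Λ - (η + ε) Q X - ε Q Λ`, where `X = ∑_G M p (+ m0 if E0 ≤ (1 + η) Q M0)`; so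
`X ≥ (η - ε) / (η + ε) Λ ≥ 31 / 33 Λ`. -/
theorem tight_one {ι : Type} [DecidableEq ι] (P : Finset ι) (E M : ι → ℝ)
    {E0 M0 Q Λ ε η : ℝ} (hQ : 0 < Q) (hΛ : 0 < Λ) (hε : 0 < ε) (hη : η ≤ 1 / 2) (h : 32 * ε < η)
    (hE : ∑ p ∈ P, E p + E0 ≤ Q * Λ) (hM : ∀ p ∈ P, 0 ≤ M p)
    (h1 : ∀ p ∈ P, (1 - ε) * Q * M p ≤ E p)
    (h2 : (1 - ε) * Q * max 0 M0 - ε * Q * Λ ≤ E0) (h3 : Λ ≤ ∑ p ∈ P, M p + M0) {G : Finset ι}
    (hG : ∀ p, p ∈ G ↔ p ∈ P ∧ 0 < E p ∧ E p ≤ (1 + η) * Q * M p) :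
    31 / 33 * Λ ≤ ∑ p ∈ G, M p + max 0 M0 ∧
      ((1 + η) * Q * M0 < E0 → 31 / 33 * Λ ≤ ∑ p ∈ G, M p) := by
  have hGP : G ⊆ P := fun p hp => ((hG p).1 hp).1
  have hε1 : ε < 1 / 64 := by linarith
  have hη0 : 0 < η := by linarith
  have hout : ∀ p ∈ P \ G, (1 + η) * Q * M p ≤ E p := by
    intro p hp
    obtain ⟨hpP, hpG⟩ := Finset.mem_sdiff.1 hp
    by_contra hcon
    push Not at hcon
    apply hpG
    rw [hG]
    refine ⟨hpP, ?_, hcon.le⟩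
    by_contra hneg
    push Not at hneg
    have h4 := h1 p hpP
    have h5 := hM p hpP
    have h6 : 0 ≤ Q * M p := mul_nonneg hQ.le h5
    have h7 : Q * M p ≤ 0 := by nlinarith
    have h8 : Q * M p = 0 := le_antisymm h7 h6
    have h9 : (1 + η) * Q * M p = 0 := by rw [mul_assoc, h8, mul_zero]
    have h10 : (1 - ε) * Q * M p = 0 := by rw [mul_assoc, h8, mul_zero]
    linarith
  have hsplitM : ∑ p ∈ P, M p = ∑ p ∈ P \ G, M p + ∑ p ∈ G, M p := (Finset.sum_sdiff hGP).symm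
  have hsplitE : ∑ p ∈ P, E p = ∑ p ∈ P \ G, E p + ∑ p ∈ G, E p := (Finset.sum_sdiff hGP).symm
  have hE1 : (1 + η) * Q * ∑ p ∈ P \ G, M p ≤ ∑ p ∈ P \ G, E p := by
    rw [Finset.mul_sum]
    exact Finset.sum_le_sum hout
  have hE2 : (1 - ε) * Q * ∑ p ∈ G, M p ≤ ∑ p ∈ G, E p := by
    rw [Finset.mul_sum]
    exact Finset.sum_le_sum (fun p hp => h1 p (hGP hp))
  set A := ∑ p ∈ P \ G, M p with hA
  set B := ∑ p ∈ G, M p with hB
  have hm0 : M0 ≤ max 0 M0 := le_max_right _ _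
  have hm1 : 0 ≤ max 0 M0 := le_max_left _ _
  have key : ∀ X Y : ℝ, Λ ≤ X → (1 + η) * Q * X - (η + ε) * Q * Y - ε * Q * Λ ≤ Q * Λ → 31 / 33 * Λ ≤ Y := by
    intro X Y hX hXY
    have h4 : (1 + η) * Q * Λ ≤ (1 + η) * Q * X := mul_le_mul_of_nonneg_left hX (by positivity)
    have h5 : Q * ((η - ε) * Λ) ≤ Q * ((η + ε) * Y) := by nlinarith
    have h6 : (η - ε) * Λ ≤ (η + ε) * Y := le_of_mul_le_mul_left h5 hQ
    have h7 : (η + ε) * (31 / 33 * Λ) ≤ (η - ε) * Λ := by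
      have : (η + ε) * (31 / 33) ≤ η - ε := by linarith
      calc (η + ε) * (31 / 33 * Λ) = ((η + ε) * (31 / 33)) * Λ := by ring
        _ ≤ (η - ε) * Λ := mul_le_mul_of_nonneg_right this hΛ.le
    exact le_of_mul_le_mul_left (h7.trans h6) (by linarith)
  refine ⟨key (A + B + max 0 M0) _ (by linarith) ?_, fun hbig => key (A + B + max 0 M0) _ (by linarith) ?_⟩
  · nlinarith
  · have h4 : (1 + η) * Q * max 0 M0 - ε * Q * Λ ≤ E0 := by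
      have h5 : 0 ≤ ε * Q * Λ := by positivity
      rcases le_total 0 M0 with h6 | h6
      · rw [max_eq_right h6]
        linarith
      · rw [max_eq_left h6] at h2 ⊢
        simp only [mul_zero, zero_sub] at h2 ⊢
        exact h2
    nlinarith

end F0744C
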