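import Pool.Agent.Lib.MP_f0744f_nt.C.G1

/-! # Row G4: lower bounds for the energies -/

set_option autoImplicit false

open Polynomial

namespace F0744C

variable {S : Finset ℤ} {a : ℤ} {d : ℕ}

theorem G4_Dm_subset (S : Finset ℤ) (a : ℤ) (ph : ℤ → ℤ) (J : ℕ) : Dm S a ph J ⊆ S := by
  cases J with
  | zero => exact Finset.Subset.refl _
  | succ J => exact Finset.filter_subset _ _

theorem G4_tlog (t : ℕ) : 0 ≤ (t : ℝ) * Real.log t := by
  have : 0 ≤ Real.log (t : ℝ) := Real.log_natCast_nonneg t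
  positivity

theorem G4_core {d : ℕ} (hd : 2 ≤ d) {m : ℝ} (hm : 0 < m) (hlog2 : 0 < Real.log 2)
    (hm2 : Real.log 2 ≤ m) {J t : ℕ} {ε : ℝ} (h0 : 0 < ε) (hJ : 1 / (d : ℝ) ^ J ≤ ε / 2)
    (hB : Big d (2 * J) (ε / 2) t) :
    (1 - ε) * (t : ℝ) ^ 2 * (m / ((d : ℝ) - 1)) ≤
      m * ((1 - 1 / (d : ℝ) ^ J) / ((d : ℝ) - 1) * (t : ℝ) ^ 2 - (4 * J + 1) * t)
        - 2 * t * Real.log t := by
  have hd2 : (2 : ℝ) ≤ d := by exact_mod_cast hd
  have hd1 : (0 : ℝ) < (d : ℝ) - 1 := by linarith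
  set z : ℝ := 1 / (d : ℝ) ^ J with hz
  have htl := G4_tlog t
  set l : ℝ := Real.log (t : ℝ) with hl
  set g : ℝ := Real.log 2 with hg
  unfold Big at hB
  push_cast at hB
  rw [← hl] at hB
  have hq : 0 ≤ (t : ℝ) * l / g := by positivity
  have e4 : 4 * (t : ℝ) * l / g = 4 * ((t : ℝ) * l / g) := by ring
  rw [e4] at hB
  set q : ℝ := (t : ℝ) * l / g with hqd
  have hqm : (t : ℝ) * l ≤ m * q := by
    have : (t : ℝ) * l = g * q := by
      rw [hqd]
      field_simp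
    rw [this]
    exact mul_le_mul_of_nonneg_right hm2 hq
  have ht0 : (0 : ℝ) ≤ t := Nat.cast_nonneg t
  have hJ0 : (0 : ℝ) ≤ J := Nat.cast_nonneg J
  have main : ((d : ℝ) - 1) * ((4 * J + 1) * t + 2 * q) ≤ (ε - z) * (t : ℝ) ^ 2 := by
    have a1 : ((d : ℝ) - 1) * ((4 * J + 1) * t + 2 * q)
        ≤ ((d : ℝ) + 1) * ((2 * (2 * (J : ℝ)) + 8) * t + 4 * q) := by
      apply mul_le_mul
      · linarith
      · nlinarith
      · positivity
      · linarith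
    have a2 : ε / 2 * (t : ℝ) ^ 2 ≤ (ε - z) * (t : ℝ) ^ 2 := by
      apply mul_le_mul_of_nonneg_right _ (by positivity)
      linarith
    linarith
  have hfin : m / ((d : ℝ) - 1) * (((d : ℝ) - 1) * ((4 * J + 1) * t + 2 * q))
      ≤ m / ((d : ℝ) - 1) * ((ε - z) * (t : ℝ) ^ 2) :=
    mul_le_mul_of_nonneg_left main (by positivity)
  have e5 : m / ((d : ℝ) - 1) * (((d : ℝ) - 1) * ((4 * J + 1) * t + 2 * q))
      = m * ((4 * J + 1) * t) + 2 * (m * q) := by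
    field_simp
  have e6 : m * ((1 - z) / ((d : ℝ) - 1) * (t : ℝ) ^ 2 - (4 * J + 1) * t)
      = m / ((d : ℝ) - 1) * ((1 - z) * (t : ℝ) ^ 2) - m * ((4 * J + 1) * t) := by
    field_simp
  have e7 : (1 - ε) * (t : ℝ) ^ 2 * (m / ((d : ℝ) - 1))
      = m / ((d : ℝ) - 1) * ((1 - z) * (t : ℝ) ^ 2) - m / ((d : ℝ) - 1) * ((ε - z) * (t : ℝ) ^ 2) := by
    ring
  rw [e6, e7]
  rw [e5] at hfin
  have e8 : 2 * (t : ℝ) * l = 2 * ((t : ℝ) * l) := by ring
  rw [e8]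
  linarith

theorem G4_core2 {d : ℕ} (hd : 2 ≤ d) {m : ℝ} (hm : 0 < m) (hlog2 : 0 < Real.log 2)
    {g' : ℝ} (hLL : Real.log 2 ≤ g') {J t : ℕ} {ε : ℝ} (h0 : 0 < ε)
    (hJ : 1 / (d : ℝ) ^ J ≤ ε / 2) (hB : Big d (2 * J) (ε / 2) t) :
    (1 - ε) * (t : ℝ) ^ 2 * (m / ((d : ℝ) - 1)) - ε * (t : ℝ) ^ 2 * g' ≤
      m * ((1 - 1 / (d : ℝ) ^ J) / ((d : ℝ) - 1) * (t : ℝ) ^ 2 - (4 * J + 1) * t)
        - 2 * t * Real.log t := by
  have hd2 : (2 : ℝ) ≤ d := by exact_mod_cast hd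
  have hd1 : (0 : ℝ) < (d : ℝ) - 1 := by linarith
  set z : ℝ := 1 / (d : ℝ) ^ J with hz
  have htl := G4_tlog t
  set l : ℝ := Real.log (t : ℝ) with hl
  set g : ℝ := Real.log 2 with hg
  unfold Big at hB
  push_cast at hB
  rw [← hl] at hB
  have hq : 0 ≤ (t : ℝ) * l / g := by positivity
  have e4 : 4 * (t : ℝ) * l / g = 4 * ((t : ℝ) * l / g) := by ring
  rw [e4] at hB
  set q : ℝ := (t : ℝ) * l / g with hqd
  have hgq : (t : ℝ) * l = g * q := by
    rw [hqd]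
    field_simp
  have ht0 : (0 : ℝ) ≤ t := Nat.cast_nonneg t
  have hJ0 : (0 : ℝ) ≤ J := Nat.cast_nonneg J
  have main : ((d : ℝ) - 1) * ((4 * J + 1) * t) ≤ (ε - z) * (t : ℝ) ^ 2 := by
    have a1 : ((d : ℝ) - 1) * ((4 * J + 1) * t)
        ≤ ((d : ℝ) + 1) * ((2 * (2 * (J : ℝ)) + 8) * t + 4 * q) := by
      apply mul_le_mul
      · linarith
      · nlinarith
      · positivity
      · linarith
    have a2 : ε / 2 * (t : ℝ) ^ 2 ≤ (ε - z) * (t : ℝ) ^ 2 := by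
      apply mul_le_mul_of_nonneg_right _ (by positivity)
      linarith
    linarith
  have main2 : 2 * q ≤ ε * (t : ℝ) ^ 2 := by
    have a1 : 2 * q ≤ ((d : ℝ) + 1) * ((2 * (2 * (J : ℝ)) + 8) * t + 4 * q) := by
      have b1 : 0 ≤ (2 * (2 * (J : ℝ)) + 8) * t + 4 * q := by positivity
      have b2 : 0 ≤ (2 * (2 * (J : ℝ)) + 8) * t := by positivity
      nlinarith
    have a2 : ε / 2 * (t : ℝ) ^ 2 ≤ ε * (t : ℝ) ^ 2 := by
      apply mul_le_mul_of_nonneg_right _ (by positivity)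
      linarith
    linarith
  have hfin2 : 2 * (g * q) ≤ ε * (t : ℝ) ^ 2 * g' := by
    have b1 : g * (2 * q) ≤ g * (ε * (t : ℝ) ^ 2) := mul_le_mul_of_nonneg_left main2 hlog2.le
    have b2 : g * (ε * (t : ℝ) ^ 2) ≤ g' * (ε * (t : ℝ) ^ 2) :=
      mul_le_mul_of_nonneg_right hLL (by positivity)
    linarith
  have hfin : m / ((d : ℝ) - 1) * (((d : ℝ) - 1) * ((4 * J + 1) * t))
      ≤ m / ((d : ℝ) - 1) * ((ε - z) * (t : ℝ) ^ 2) :=
    mul_le_mul_of_nonneg_left main (by positivity)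
  have e5 : m / ((d : ℝ) - 1) * (((d : ℝ) - 1) * ((4 * J + 1) * t))
      = m * ((4 * J + 1) * t) := by
    field_simp
  have e6 : m * ((1 - z) / ((d : ℝ) - 1) * (t : ℝ) ^ 2 - (4 * J + 1) * t)
      = m / ((d : ℝ) - 1) * ((1 - z) * (t : ℝ) ^ 2) - m * ((4 * J + 1) * t) := by
    field_simp
  have e7 : (1 - ε) * (t : ℝ) ^ 2 * (m / ((d : ℝ) - 1))
      = m / ((d : ℝ) - 1) * ((1 - z) * (t : ℝ) ^ 2) - m / ((d : ℝ) - 1) * ((ε - z) * (t : ℝ) ^ 2) := by
    ring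
  rw [e6, e7]
  rw [e5] at hfin
  have e8 : 2 * (t : ℝ) * l = 2 * (g * q) := by rw [← hgq]; ring
  rw [e8]
  linarith

/-- If `m = mP p f.F ≤ 0`: `EnP_nonneg`. Otherwise `m = k log p`, `k ≥ 1`, so `m ≥ log 2`; `En_ge` with
`A = padic p`, `R = 1` (`EnP_eq`, `mm_padic`; integers have `padic` value `≤ 1`), `z = 1 / d ^ J ≤ ε / 2`, and
`(d - 1) ((4 J + 1) t + 2 t log t / m) ≤ (ε / 2) t ^ 2` (`Big`). -/
theorem lower_p (f : PM S a d) (hd : 2 ≤ d) {p : ℕ} (hp : p.Prime) (J : ℕ) {T : Finset ℤ}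
    (hT : T ⊆ Dm S a f.ph J) {ε : ℝ} (h0 : 0 < ε) (h1 : ε ≤ 1) (hJ : 1 / (d : ℝ) ^ J ≤ ε / 2)
    (hB : Big d (2 * J) (ε / 2) T.card) :
    (1 - ε) * (T.card : ℝ) ^ 2 * (max 0 (mP p f.F) / ((d : ℝ) - 1)) ≤ EnP p T := by
  have hd1 : (0 : ℝ) < (d : ℝ) - 1 := by
    have : (2 : ℝ) ≤ d := by exact_mod_cast hd
    linarith
  rcases le_or_gt (mP p f.F) 0 with hm | hm
  · rw [max_eq_left hm]
    have h := EnP_nonneg hp T
    simpa using h
  haveI : Fact p.Prime := ⟨hp⟩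
  have hF : f.F ≠ 0 := by
    intro h
    have h2 := f.deg
    rw [h, natDegree_zero] at h2
    omega
  have hmm := mm_padic p d hF
  have hlog2 : 0 < Real.log 2 := Real.log_pos (by norm_num)
  have hm2 : Real.log 2 ≤ mP p f.F := by
    have e1 : mP p f.F = ((- padicValRat p f.F.leadingCoeff : ℤ) : ℝ) * Real.log p := by
      unfold mP vp
      push_cast
      ring
    have hlp : 0 < Real.log p := Real.log_pos (by exact_mod_cast hp.one_lt)
    rw [e1] at hm ⊢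
    have h3 : (0 : ℝ) < ((- padicValRat p f.F.leadingCoeff : ℤ) : ℝ) := by
      by_contra h4
      push Not at h4
      nlinarith
    have h4 : (1 : ℤ) ≤ - padicValRat p f.F.leadingCoeff := by
      have : (0 : ℤ) < - padicValRat p f.F.leadingCoeff := by exact_mod_cast h3
      omega
    have h5 : (1 : ℝ) ≤ ((- padicValRat p f.F.leadingCoeff : ℤ) : ℝ) := by exact_mod_cast h4
    have h6 : Real.log 2 ≤ Real.log p :=
      Real.log_le_log (by norm_num) (by exact_mod_cast hp.two_le)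
    nlinarith
  have key := En_ge f hd (Rat.AbsoluteValue.padic p) (le_refl (1 : ℝ))
    (fun y _ => Rat.AbsoluteValue.padic_le_one p y) J hT (by rw [hmm]; exact hm.le)
  rw [hmm, ← EnP_eq] at key
  refine le_trans ?_ key
  rw [max_eq_right hm.le]
  exact G4_core hd hm hlog2 hm2 h0 hJ hB

/-- `M = mm real L d f.F`. If `M < 0`: `En ≥ - t ^ 2 log 2` (`|x - y| ≤ 2 L`) `≥ - ε t ^ 2 log L`. Otherwise `En_ge` with
`A = real`, `R = L`; `(d - 1) (4 J + 1) t ≤ (ε / 2) t ^ 2` and `2 t log t ≤ ε t ^ 2 log 2 ≤ ε t ^ 2 log L`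
(`Big`; `log L ≥ log 2 / ε ≥ log 2`). -/
theorem lower_r (f : PM S a d) (hd : 2 ≤ d) (J : ℕ) {T : Finset ℤ}
    (hT : T ⊆ Dm S a f.ph J) {ε : ℝ} (h0 : 0 < ε) (h1 : ε ≤ 1) (hJ : 1 / (d : ℝ) ^ J ≤ ε / 2)
    (hB : Big d (2 * J) (ε / 2) T.card) {L : ℝ} (hL1 : 1 ≤ L)
    (hL : ∀ y ∈ S, |((y : ℤ) : ℝ)| ≤ L) (hΛ : Real.log 2 ≤ ε * Real.log L) :
    (1 - ε) * (T.card : ℝ) ^ 2 * max 0 (mm Rat.AbsoluteValue.real L d f.F / ((d : ℝ) - 1))
      - ε * (T.card : ℝ) ^ 2 * Real.log L ≤ En Rat.AbsoluteValue.real L T := by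
  have hd1 : (0 : ℝ) < (d : ℝ) - 1 := by
    have : (2 : ℝ) ≤ d := by exact_mod_cast hd
    linarith
  have hlog2 : 0 < Real.log 2 := Real.log_pos (by norm_num)
  have hLL : Real.log 2 ≤ Real.log L := by
    have hl0 : 0 ≤ Real.log L := Real.log_nonneg hL1
    nlinarith
  have hl0 : 0 ≤ Real.log L := Real.log_nonneg hL1
  rcases le_or_gt (mm Rat.AbsoluteValue.real L d f.F) 0 with hm | hm
  · have h1' : max 0 (mm Rat.AbsoluteValue.real L d f.F / ((d : ℝ) - 1)) = 0 := by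
      apply max_eq_left
      exact div_nonpos_of_nonpos_of_nonneg hm hd1.le
    rw [h1']
    have hTS : T ⊆ S := hT.trans (G4_Dm_subset S a f.ph J)
    have hpt : ∀ x ∈ T, ∀ y ∈ T.erase x, - Real.log 2 ≤ uu Rat.AbsoluteValue.real L x y := by
      intro x hx y hy
      have hyx : y ≠ x := (Finset.mem_erase.mp hy).1
      have hyT : y ∈ T := (Finset.mem_erase.mp hy).2
      have b1 := hL x (hTS hx)
      have b2 := hL y (hTS hyT)
      unfold uu
      rw [Rat.AbsoluteValue.real_eq_abs]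
      have e1 : ((|(x : ℚ) - y| : ℚ) : ℝ) = |(x : ℝ) - y| := by push_cast; rfl
      rw [e1]
      have h3 : 0 < |(x : ℝ) - y| := by
        rw [abs_pos, sub_ne_zero]
        exact_mod_cast hyx.symm
      have h4 : |(x : ℝ) - y| ≤ 2 * L := by
        have := abs_sub (x : ℝ) y
        linarith
      have h5 := Real.log_le_log h3 h4
      rw [Real.log_mul (by norm_num) (by linarith)] at h5
      linarith
    have hsum : - ((T.card : ℝ) * T.card * Real.log 2) ≤ En Rat.AbsoluteValue.real L T := by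
      unfold En
      have h3 : ∀ x ∈ T, - ((T.card : ℝ) * Real.log 2)
          ≤ ∑ y ∈ T.erase x, uu Rat.AbsoluteValue.real L x y := by
        intro x hx
        have h4 := Finset.card_nsmul_le_sum (T.erase x)
          (fun y => uu Rat.AbsoluteValue.real L x y) (- Real.log 2) (hpt x hx)
        refine le_trans ?_ h4
        rw [nsmul_eq_mul]
        have h5 : ((T.erase x).card : ℝ) ≤ T.card := by
          exact_mod_cast Finset.card_le_card (Finset.erase_subset x T)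
        nlinarith
      have h4 := Finset.card_nsmul_le_sum T _ _ h3
      refine le_trans (le_of_eq ?_) h4
      rw [nsmul_eq_mul]
      ring
    have h6 : (T.card : ℝ) * T.card * Real.log 2 ≤ ε * (T.card : ℝ) ^ 2 * Real.log L := by
      have : 0 ≤ (T.card : ℝ) ^ 2 := by positivity
      nlinarith
    linarith
  have key := En_ge f hd Rat.AbsoluteValue.real hL1
    (fun y hy => by
      rw [Rat.AbsoluteValue.real_eq_abs]
      have := hL y hy
      push_cast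
      exact this) J hT hm.le
  refine le_trans ?_ key
  have h1' : max 0 (mm Rat.AbsoluteValue.real L d f.F / ((d : ℝ) - 1))
      = mm Rat.AbsoluteValue.real L d f.F / ((d : ℝ) - 1) := max_eq_right (by positivity)
  rw [h1']
  exact G4_core2 hd hm hlog2 hLL h0 hJ hB

end F0744C
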