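import Pool.Agent.Lib.MP_f0744f_nt.C.Defs

/-! # Row G5: large numbers of points -/

set_option autoImplicit false

open Polynomial

namespace F0744C

/-- Divide by `t ^ 2`: `1 / t → 0`, `log t / t → 0` (`Real.isLittleO_log_id_atTop`), or explicitly with
`log t ≤ 2 √t` and a large `t0`. -/
theorem exists_big (d J : ℕ) {ε : ℝ} (h : 0 < ε) : ∃ t0 : ℕ, ∀ t : ℕ, t0 ≤ t → Big d J ε t := by
  have hd : (0 : ℝ) < (d : ℝ) + 1 := by positivity
  have hl : (0 : ℝ) < Real.log 2 := Real.log_pos (by norm_num)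
  set C : ℝ := ((d : ℝ) + 1) * 4 / Real.log 2 with hC
  have hC0 : 0 < C := by positivity
  have h1 : ∀ᶠ x : ℝ in Filter.atTop, ‖Real.log x‖ ≤ (ε / (2 * C)) * ‖(id x : ℝ)‖ :=
    Real.isLittleO_log_id_atTop.bound (by positivity)
  have h2 : ∀ᶠ x : ℝ in Filter.atTop, (((d : ℝ) + 1) * (2 * J + 8)) * (2 / ε) ≤ x :=
    Filter.eventually_ge_atTop _
  have h3 : ∀ᶠ x : ℝ in Filter.atTop, (1 : ℝ) ≤ x := Filter.eventually_ge_atTop _
  have h4 : ∀ᶠ t : ℕ in Filter.atTop, Big d J ε t := by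
    have h5 := (h1.and (h2.and h3))
    have h6 := (tendsto_natCast_atTop_atTop (R := ℝ)).eventually h5
    filter_upwards [h6] with t ht
    obtain ⟨ha, hb, hc⟩ := ht
    rw [Real.norm_eq_abs, Real.norm_eq_abs, id, abs_of_nonneg (Real.log_nonneg hc),
      abs_of_nonneg (by linarith)] at ha
    unfold Big
    have hA : ((d : ℝ) + 1) * (2 * J + 8) ≤ ε / 2 * t := by
      have h7 := mul_le_mul_of_nonneg_left hb (le_of_lt (half_pos h))
      have h8 : ε / 2 * ((((d : ℝ) + 1) * (2 * J + 8)) * (2 / ε)) =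
          ((d : ℝ) + 1) * (2 * J + 8) := by
        field_simp
      linarith
    have hB : C * Real.log t ≤ ε / 2 * t := by
      have h7 := mul_le_mul_of_nonneg_left ha hC0.le
      have h8 : C * (ε / (2 * C) * (t : ℝ)) = ε / 2 * t := by
        field_simp
      linarith
    have ht0 : (0 : ℝ) ≤ t := by linarith
    have e : ((d : ℝ) + 1) * ((2 * J + 8) * t + 4 * t * Real.log t / Real.log 2) =
        (((d : ℝ) + 1) * (2 * J + 8) + C * Real.log t) * t := by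
      rw [hC]
      field_simp
    rw [e]
    nlinarith [mul_le_mul_of_nonneg_right (add_le_add hA hB) ht0]
  exact Filter.eventually_atTop.mp h4

/-- `S` has at least `n` elements in `[- L, L]`: `S ⊆ Finset.Icc (-⌊L⌋) ⌊L⌋`, so `S.card ≤ 2 L + 1`. -/
theorem card_le {S : Finset ℤ} {L : ℝ} (h0 : 0 ≤ L) (hL : ∀ y ∈ S, |((y : ℤ) : ℝ)| ≤ L) :
    (S.card : ℝ) ≤ 2 * L + 1 := by
  have hs : S ⊆ Finset.Icc (-⌊L⌋) ⌊L⌋ := by
    intro y hy
    have h1 := abs_le.mp (hL y hy)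
    rw [Finset.mem_Icc]
    refine ⟨?_, Int.le_floor.mpr h1.2⟩
    have h2 : (((-y : ℤ)) : ℝ) ≤ L := by push_cast; linarith [h1.1]
    have h3 := Int.le_floor.mpr h2
    omega
  have h1 := Finset.card_le_card hs
  rw [Int.card_Icc] at h1
  have h2 : 0 ≤ ⌊L⌋ := Int.floor_nonneg.mpr h0
  have h3 : (S.card : ℤ) ≤ 2 * ⌊L⌋ + 1 := by omega
  have h4 : ((S.card : ℤ) : ℝ) ≤ ((2 * ⌊L⌋ + 1 : ℤ) : ℝ) := by exact_mod_cast h3
  push_cast at h4
  have h5 := Int.floor_le L
  linarith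

/-- `Finset.exists_max_image S (fun y => |(y : ℝ)|)`; since `S` has two elements `L > 0`, so `L ≥ 1` (integers). -/
theorem exists_L {S : Finset ℤ} (h : 2 ≤ S.card) :
    ∃ L : ℝ, 1 ≤ L ∧ (∀ y ∈ S, |((y : ℤ) : ℝ)| ≤ L) ∧ ∃ y ∈ S, |((y : ℤ) : ℝ)| = L := by
  have hne : S.Nonempty := Finset.card_pos.mp (by omega)
  obtain ⟨y, hy, hmax⟩ := Finset.exists_max_image S (fun y : ℤ => |(y : ℝ)|) hne
  refine ⟨|(y : ℝ)|, ?_, hmax, y, hy, rfl⟩
  by_contra hlt
  have hy0 : y = 0 := by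
    by_contra h0
    apply hlt
    have : (1 : ℤ) ≤ |y| := Int.one_le_abs h0
    exact_mod_cast this
  have hall : ∀ x ∈ S, x = 0 := by
    intro x hx
    have h1 := hmax x hx
    rw [hy0] at h1
    simp only [Int.cast_zero, abs_zero] at h1
    have h2 : |(x : ℝ)| = 0 := le_antisymm h1 (abs_nonneg _)
    exact_mod_cast abs_eq_zero.mp h2
  have h2 : S ⊆ {0} := by
    intro x hx
    rw [Finset.mem_singleton]
    exact hall x hx
  have h3 := Finset.card_le_card h2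
  rw [Finset.card_singleton] at h3
  omega

end F0744C
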