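import Mathlib

/-! # Row M1: masses -/

set_option autoImplicit false

namespace F0744C

/-- `∑_c (t c / T - m c / d) ^ 2 d / m c = d ∑ (t c / T) ^ 2 / m c - 2 ∑ t c / T + ∑ m c / d ≤ (1 + η) - 2 + 1`,
and every term is at least `(t c / T - m c / d) ^ 2` because `m c ≤ d`. -/
theorem mass_abs {ι : Type} (C : Finset ι) (t : ι → ℝ) (m : ι → ℕ) {d : ℕ} {T η : ℝ} (hT : 0 < T)
    (hm : ∀ c ∈ C, 1 ≤ m c) (hd : ∑ c ∈ C, m c ≤ d) (ht : ∑ c ∈ C, t c = T)
    (h : (d : ℝ) * ∑ c ∈ C, t c ^ 2 / m c ≤ (1 + η) * T ^ 2) :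
    ∀ c ∈ C, (t c / T - m c / d) ^ 2 ≤ η := by
  intro c hc
  have hmd : ∀ c ∈ C, m c ≤ d := fun c hc =>
    le_trans (Finset.single_le_sum (f := m) (fun _ _ => Nat.zero_le _) hc) hd
  have hd1 : 1 ≤ d := le_trans (hm c hc) (hmd c hc)
  have hd0 : (0 : ℝ) < d := by exact_mod_cast hd1
  have hsum : ∑ c ∈ C, (t c / T - m c / d) ^ 2 * (d / m c) ≤ η := by
    have h1 : ∀ c ∈ C, (t c / T - m c / d) ^ 2 * (d / m c)
        = ((d : ℝ) * (t c ^ 2 / m c)) / T ^ 2 - 2 * (t c / T) + (m c : ℝ) / d := by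
      intro c hc
      have hm0 : (0 : ℝ) < m c := by exact_mod_cast hm c hc
      field_simp
      ring
    rw [Finset.sum_congr rfl h1, Finset.sum_add_distrib, Finset.sum_sub_distrib,
      ← Finset.sum_div, ← Finset.mul_sum, ← Finset.mul_sum, ← Finset.sum_div, ← Finset.sum_div, ht]
    have h2 : (d : ℝ) * ∑ c ∈ C, t c ^ 2 / m c ≤ (1 + η) * T ^ 2 := h
    have h3 : ((d : ℝ) * ∑ c ∈ C, t c ^ 2 / m c) / T ^ 2 ≤ 1 + η := by
      rw [div_le_iff₀ (by positivity)]; exact h2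
    have h4 : (∑ c ∈ C, (m c : ℝ)) / d ≤ 1 := by
      rw [div_le_one hd0]
      exact_mod_cast hd
    have h5 : T / T = 1 := div_self hT.ne'
    rw [h5]
    linarith
  have hterm : (t c / T - m c / d) ^ 2 ≤ (t c / T - m c / d) ^ 2 * (d / m c) := by
    have hm0 : (0 : ℝ) < m c := by exact_mod_cast hm c hc
    have h6 : (1 : ℝ) ≤ d / m c := by
      rw [le_div_iff₀ hm0, one_mul]
      exact_mod_cast hmd c hc
    nlinarith [sq_nonneg (t c / T - m c / d)]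
  have hle := Finset.single_le_sum (f := fun c => (t c / T - m c / d) ^ 2 * ((d : ℝ) / m c))
    (fun i _ => by positivity) hc
  exact le_trans hterm (le_trans hle hsum)

/-- `|m / d - l / e| ≤ 2 √η ≤ 1 / (2 d e)`, so `|m e - l d| < 1`, `m e = l d`, `d ∣ m`, `m = d`, `l = e`. -/
theorem coprime_single {d e m l : ℕ} (hcop : Nat.Coprime d e) (hd : 1 ≤ d) (he : 1 ≤ e)
    (hm1 : 1 ≤ m) (hm2 : m ≤ d) {x η : ℝ} (hx : (x - m / d) ^ 2 ≤ η) (hy : (x - l / e) ^ 2 ≤ η)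
    (hη : 16 * η * ((d : ℝ) * e) ^ 2 ≤ 1) : m = d ∧ l = e := by
  have hd0 : (0 : ℝ) < d := by exact_mod_cast hd
  have he0 : (0 : ℝ) < e := by exact_mod_cast he
  have h1 : ((m : ℝ) / d - l / e) ^ 2 ≤ 4 * η := by
    nlinarith [sq_nonneg ((x - (m : ℝ) / d) + (x - (l : ℝ) / e))]
  have h2 : ((m : ℝ) * e - l * d) = ((m : ℝ) / d - l / e) * (d * e) := by
    field_simp
  have h3 : ((m : ℝ) * e - l * d) ^ 2 < 1 := by
    rw [h2, mul_pow]
    have h4 : ((m : ℝ) / d - l / e) ^ 2 * ((d : ℝ) * e) ^ 2 ≤ 4 * η * ((d : ℝ) * e) ^ 2 :=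
      mul_le_mul_of_nonneg_right h1 (by positivity)
    nlinarith
  have h5 : ((m : ℤ) * e - l * d) ^ 2 < 1 := by
    have : (((m : ℤ) * e - l * d : ℤ) : ℝ) ^ 2 < 1 := by push_cast; exact h3
    exact_mod_cast this
  have h6 : (m : ℤ) * e - l * d = 0 := by
    by_contra hne
    have h7 : 0 < ((m : ℤ) * e - l * d) ^ 2 := by positivity
    omega
  have h8 : m * e = l * d := by
    have h9 : (m : ℤ) * e = l * d := by linarith
    exact_mod_cast h9
  have h10 : d ∣ m := by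
    have : d ∣ m * e := ⟨l, by rw [h8, Nat.mul_comm]⟩
    exact hcop.dvd_of_dvd_mul_right this
  have h11 : m = d := le_antisymm hm2 (Nat.le_of_dvd hm1 h10)
  refine ⟨h11, ?_⟩
  subst h11
  have h12 : m * e = m * l := by rw [h8, Nat.mul_comm]
  exact (Nat.eq_of_mul_eq_mul_left hm1 h12).symm

end F0744C
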