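import Pool.Agent.Lib.MP_f0744f_nt.C.P4
import Pool.Agent.Lib.MP_f0744f_nt.C.M1

/-! # Row P5: no tight prime -/

set_option autoImplicit false

open Polynomial

namespace F0744C

variable {S : Finset ℤ} {a b : ℤ} {d e : ℕ}

theorem P5_neg {p : ℕ} [Fact p.Prime] {F : ℚ[X]} (h : 0 < mP p F) :
    padicValRat p F.leadingCoeff < 0 := by
  have hp : 1 < p := (Fact.out : p.Prime).one_lt
  have hlog : 0 < Real.log p := Real.log_pos (by exact_mod_cast hp)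
  unfold mP vp at h
  by_contra hcon
  push Not at hcon
  have h2 : (0 : ℝ) ≤ (padicValRat p F.leadingCoeff : ℝ) := by exact_mod_cast hcon
  have h3 := mul_nonneg h2 hlog.le
  linarith

theorem P5_sum (p : ℕ) (T : Finset ℤ) :
    ∑ ρ ∈ T.image (fun x : ℤ => (x : ZMod p)), ((cls p T ρ).card : ℝ) = (T.card : ℝ) := by
  have h := Finset.card_eq_sum_card_image (fun x : ℤ => (x : ZMod p)) T
  unfold cls
  rw [h]
  push_cast
  rfl

/-- the class masses are close to `μ / d` -/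
theorem P5_mass (hd : 2 ≤ d) (f : PM S a d) {p : ℕ} [Fact p.Prime] (r : Red f.F p)
    (hα : padicValRat p f.F.leadingCoeff < 0)
    (J : ℕ) {T : Finset ℤ} (hTf : T ⊆ Dm S a f.ph (J + 1)) (hT : T.Nonempty) {η : ℝ}
    (h0 : 0 < η) (h1 : η ≤ 1 / 2) (hJf : 1 / (d : ℝ) ^ J ≤ η) (hBf : Big d (2 * J) η T.card)
    (hEf : EnP p T ≤ (1 + η) * (T.card : ℝ) ^ 2 * (mP p f.F / ((d : ℝ) - 1))) :
    ∀ ρ ∈ T.image (fun x : ℤ => (x : ZMod p)), 1 ≤ r.mu ρ ∧ r.mu ρ ≤ d ∧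
      (((cls p T ρ).card : ℝ) / T.card - (r.mu ρ : ℝ) / d) ^ 2 ≤ 4 * η := by
  have hmass := mass_p f hd r hα J hTf h0 h1 hJf hBf hEf
  have hpos : (0 : ℝ) < T.card := by exact_mod_cast hT.card_pos
  have hone : ∀ ρ ∈ T.image (fun x : ℤ => (x : ZMod p)), 1 ≤ r.mu ρ := by
    intro ρ hρ
    obtain ⟨x, hx, rfl⟩ := Finset.mem_image.mp hρ
    have hD := Dm_succ (hTf hx)
    exact r.one_le_mu hα (f.val x hD.1 hD.2.1)
  have hsum : ∑ ρ ∈ T.image (fun x : ℤ => (x : ZMod p)), r.mu ρ ≤ d := by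
    have := r.sum_mu (T.image (fun x : ℤ => (x : ZMod p)))
    rwa [f.deg] at this
  have habs := mass_abs (T.image (fun x : ℤ => (x : ZMod p)))
    (fun ρ => ((cls p T ρ).card : ℝ)) r.mu hpos hone hsum (P5_sum p T) (η := 4 * η) hmass
  intro ρ hρ
  refine ⟨hone ρ hρ, ?_, habs ρ hρ⟩
  exact (Finset.single_le_sum (fun i _ => Nat.zero_le (r.mu i)) hρ).trans hsum

/-- `exists_red` for `f.F` and `g.F`; `mass_p`, then `mass_abs` (with `4 η`) on the classes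
`ρ ∈ T.image (·)` (`∑ t_ρ = T.card`: `Finset.card_eq_sum_card_image`; `1 ≤ μ` by `Red.one_le_mu`: `x ∈ T`
has `x ∈ S`, `x ≠ a`; `∑ μ ≤ d` by `Red.sum_mu`), the same for `g`. For one class `ρ` (`T` is not empty)
`coprime_single` gives `r_f.mu ρ = d`, `r_g.mu ρ = e`. By `Red.single` and `Red.one_le_mu` every `x ∈ S`
with `x ≠ a` and every `x ∈ S` with `x ≠ b` has the residue `ρ`; since `a ≠ b` all elements of `S` are
congruent modulo `p`: contradiction to `prim`. -/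
theorem local_p (hd : 2 ≤ d) (he : 2 ≤ e) (hcop : Nat.Coprime d e) (hab : a ≠ b) (f : PM S a d)
    (g : PM S b e) {p : ℕ} [Fact p.Prime] (prim : ∃ x ∈ S, ∃ y ∈ S, ¬ (p : ℤ) ∣ x - y)
    (J : ℕ) {T : Finset ℤ} (hTf : T ⊆ Dm S a f.ph (J + 1)) (hTg : T ⊆ Dm S b g.ph (J + 1))
    (hT : T.Nonempty) {η : ℝ} (h0 : 0 < η) (h1 : η ≤ 1 / 2)
    (hη : 64 * η * ((d : ℝ) * e) ^ 2 ≤ 1)
    (hJf : 1 / (d : ℝ) ^ J ≤ η) (hJg : 1 / (e : ℝ) ^ J ≤ η)
    (hBf : Big d (2 * J) η T.card) (hBg : Big e (2 * J) η T.card)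
    (hf : 0 < mP p f.F) (hg : 0 < mP p g.F)
    (hEf : EnP p T ≤ (1 + η) * (T.card : ℝ) ^ 2 * (mP p f.F / ((d : ℝ) - 1)))
    (hEg : EnP p T ≤ (1 + η) * (T.card : ℝ) ^ 2 * (mP p g.F / ((e : ℝ) - 1))) : False := by
  have hαf := P5_neg hf
  have hαg := P5_neg hg
  have hFf : f.F ≠ 0 := by
    intro h
    have := f.deg
    rw [h, natDegree_zero] at this
    omega
  have hFg : g.F ≠ 0 := by
    intro h
    have := g.deg
    rw [h, natDegree_zero] at this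
    omega
  obtain ⟨rf⟩ := exists_red hFf hαf
  obtain ⟨rg⟩ := exists_red hFg hαg
  have hmf := P5_mass hd f rf hαf J hTf hT h0 h1 hJf hBf hEf
  have hmg := P5_mass he g rg hαg J hTg hT h0 h1 hJg hBg hEg
  obtain ⟨x0, hx0⟩ := hT
  have hρ : ((x0 : ℤ) : ZMod p) ∈ T.image (fun x : ℤ => (x : ZMod p)) :=
    Finset.mem_image_of_mem _ hx0
  obtain ⟨hf1, hf2, hf3⟩ := hmf _ hρ
  obtain ⟨hg1, hg2, hg3⟩ := hmg _ hρ
  have hη' : 16 * (4 * η) * ((d : ℝ) * e) ^ 2 ≤ 1 := by linarith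
  obtain ⟨hmd, hme⟩ := coprime_single hcop (by omega) (by omega) hf1 hf2 hf3 hg3 hη'
  have allf : ∀ x ∈ S, x ≠ a → (x : ZMod p) = (x0 : ZMod p) := by
    intro x hx hxa
    exact rf.single (by rw [hmd, f.deg]) (rf.one_le_mu hαf (f.val x hx hxa))
  have allg : ∀ x ∈ S, x ≠ b → (x : ZMod p) = (x0 : ZMod p) := by
    intro x hx hxb
    exact rg.single (by rw [hme, g.deg]) (rg.one_le_mu hαg (g.val x hx hxb))
  have all : ∀ x ∈ S, (x : ZMod p) = (x0 : ZMod p) := by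
    intro x hx
    by_cases hxa : x = a
    · exact allg x hx (by rw [hxa]; exact hab)
    · exact allf x hx hxa
  obtain ⟨x, hx, y, hy, hxy⟩ := prim
  apply hxy
  rw [← ZMod.intCast_eq_intCast_iff_dvd_sub, all x hx, all y hy]

end F0744C
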