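import Pool.Agent.Lib.MP_f0744f_nt.C.Defs

/-! # Row R4a: arithmetic of the masses -/

set_option autoImplicit false

open Polynomial

namespace F0744C

/-- Pure real arithmetic. `M ≥ (d - 1) Λ / 4`, `Λ > 0` (`hΛ`), so `δ ≤ η Λ / 32 ≤ (η / 8) M / (d - 1)` and
`M (d - z) / (d - 1) - d δ ≥ M / (d - 1) * d (1 - 5 η / 8)` (`z ≤ η ≤ d η / 2`). Multiply `h` by `(d - 1) / M`:
`d (1 - 5 η / 8) X ≤ (1 + η) t ^ 2 + (d - 1) (4 J + 6) t + 4 (4 t log t + t ^ 2 log 2) / Λ`, where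
`4 t ^ 2 log 2 / Λ ≤ η t ^ 2 / 4` and `16 t log t / Λ ≤ t log t / (2 log 2)` (`Λ ≥ 16 log 2 / η ≥ 32 log 2`), so with
`Big d (2 J) η t` the right side is `≤ (1 + 9 η / 4) t ^ 2`. Finally `(1 + 9 η / 4) ≤ (1 + 8 η) (1 - 5 η / 8)` for
`0 ≤ η ≤ 1 / 2`. -/
theorem mass_arith {d J t : ℕ} (hd : 2 ≤ d) {M Λ δ z X η : ℝ} (h0 : 0 < η) (h1 : η ≤ 1 / 2)
    (hz0 : 0 ≤ z) (hz : z ≤ η) (hB : Big d (2 * J) η t) (hM : ((d : ℝ) - 1) * Λ / 4 ≤ M)
    (hΛ : Real.log 2 ≤ η / 16 * Λ) (hδ : δ ≤ η / 32 * Λ) (hX : 0 ≤ X)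
    (h : (M * (((d : ℝ) - z) / ((d : ℝ) - 1)) - d * δ) * X - M * (4 * J + 6) * t
      - 4 * t * Real.log t - (t : ℝ) ^ 2 * Real.log 2 ≤
        (1 + η) * (t : ℝ) ^ 2 * (M / ((d : ℝ) - 1))) :
    (d : ℝ) * X ≤ (1 + 8 * η) * (t : ℝ) ^ 2 := by
  have hd' : (2 : ℝ) ≤ (d : ℝ) := by exact_mod_cast hd
  have hl2 : 0 < Real.log 2 := Real.log_pos (by norm_num)
  have hΛp : 0 < Λ := by
    by_contra hc
    push Not at hc
    nlinarith
  have hD : 0 < (d : ℝ) - 1 := by linarith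
  obtain ⟨W, hW⟩ : ∃ W : ℝ, W = M / ((d : ℝ) - 1) := ⟨_, rfl⟩
  have hMW : M = W * ((d : ℝ) - 1) := by
    rw [hW]
    field_simp
  have hWΛ : Λ / 4 ≤ W := by
    rw [hW, le_div_iff₀ hD]
    linarith
  have hWp : 0 < W := by linarith
  have ht0 : (0 : ℝ) ≤ (t : ℝ) := Nat.cast_nonneg t
  have hJ0 : (0 : ℝ) ≤ (J : ℝ) := Nat.cast_nonneg J
  have hlt : 0 ≤ (t : ℝ) * Real.log t := by
    rcases Nat.eq_zero_or_pos t with h' | h'
    · subst h'
      simp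
    · exact mul_nonneg ht0 (Real.log_nonneg (by exact_mod_cast h'))
  have hLam : 32 * Real.log 2 ≤ Λ := by nlinarith
  -- the size condition
  have hB' : ((d : ℝ) + 1) * ((4 * (J : ℝ) + 8) * t + 4 * t * Real.log t / Real.log 2) ≤
      η * (t : ℝ) ^ 2 := by
    have h2 := hB
    unfold Big at h2
    push_cast at h2
    have e1 : (2 * (2 * (J : ℝ)) + 8) = 4 * (J : ℝ) + 8 := by ring
    rw [e1] at h2
    exact h2
  -- h in terms of W
  have h3 : (W * ((d : ℝ) - z) - d * δ) * X - W * ((d : ℝ) - 1) * (4 * J + 6) * t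
      - 4 * t * Real.log t - (t : ℝ) ^ 2 * Real.log 2 ≤ (1 + η) * (t : ℝ) ^ 2 * W := by
    have e2 : M * (((d : ℝ) - z) / ((d : ℝ) - 1)) = W * ((d : ℝ) - z) := by
      rw [hMW]
      field_simp
    rw [e2, ← hW, hMW] at h
    exact h
  -- lower bound of the coefficient of X
  have hδW : δ ≤ η / 8 * W := by
    have : η / 32 * Λ ≤ η / 8 * W := by nlinarith
    linarith
  have hc1 : W * ((d : ℝ) * (1 - 5 * η / 8)) ≤ W * ((d : ℝ) - z) - d * δ := by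
    have h4 : z ≤ d * η / 2 := by nlinarith
    have h5 : (d : ℝ) * δ ≤ d * (η / 8 * W) := mul_le_mul_of_nonneg_left hδW (by linarith)
    have h6 : W * z ≤ W * (d * η / 2) := mul_le_mul_of_nonneg_left h4 hWp.le
    nlinarith
  have hc2 : W * ((d : ℝ) * (1 - 5 * η / 8)) * X ≤ (W * ((d : ℝ) - z) - d * δ) * X :=
    mul_le_mul_of_nonneg_right hc1 hX
  -- the logarithmic terms
  have hL1 : (t : ℝ) ^ 2 * Real.log 2 ≤ η / 4 * (t : ℝ) ^ 2 * W := by
    have h7 : Real.log 2 ≤ η / 4 * W := by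
      have : η / 16 * Λ ≤ η / 4 * W := by nlinarith
      linarith
    have h8 := mul_le_mul_of_nonneg_left h7 (sq_nonneg (t : ℝ))
    linarith
  have hL2 : 4 * t * Real.log t ≤ (t * Real.log t / (2 * Real.log 2)) * W := by
    have h9 : 8 * Real.log 2 ≤ W := by linarith
    have h10 : 4 * t * Real.log t = (t * Real.log t / (2 * Real.log 2)) * (8 * Real.log 2) := by
      field_simp
      ring
    rw [h10]
    exact mul_le_mul_of_nonneg_left h9 (by positivity)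
  have hL3 : (t : ℝ) * Real.log t / (2 * Real.log 2) + ((d : ℝ) - 1) * (4 * J + 6) * t ≤
      η * (t : ℝ) ^ 2 := by
    have h11 : (t : ℝ) * Real.log t / (2 * Real.log 2) ≤
        ((d : ℝ) + 1) * (4 * t * Real.log t / Real.log 2) := by
      have e3 : (t : ℝ) * Real.log t / (2 * Real.log 2) =
          (1 / 8) * (4 * t * Real.log t / Real.log 2) := by
        field_simp
        ring
      rw [e3]
      have h12 : 0 ≤ 4 * t * Real.log t / Real.log 2 := by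
        have : 0 ≤ 4 * (t : ℝ) * Real.log t := by nlinarith
        positivity
      nlinarith
    have h13 : ((d : ℝ) - 1) * (4 * J + 6) * t ≤ ((d : ℝ) + 1) * ((4 * J + 8) * t) := by
      have h14 : ((d : ℝ) - 1) * (4 * J + 6) ≤ ((d : ℝ) + 1) * (4 * J + 8) := by nlinarith
      have h15 := mul_le_mul_of_nonneg_right h14 ht0
      linarith
    have e4 : ((d : ℝ) + 1) * ((4 * (J : ℝ) + 8) * t + 4 * t * Real.log t / Real.log 2) =
        ((d : ℝ) + 1) * ((4 * J + 8) * t) + ((d : ℝ) + 1) * (4 * t * Real.log t / Real.log 2) := by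
      ring
    linarith
  -- multiply hL3 by W
  have hL4 := mul_le_mul_of_nonneg_right hL3 hWp.le
  have hmain : W * ((d : ℝ) * (1 - 5 * η / 8)) * X ≤ (1 + 9 * η / 4) * (t : ℝ) ^ 2 * W := by
    have e5 : ((t : ℝ) * Real.log t / (2 * Real.log 2) + ((d : ℝ) - 1) * (4 * J + 6) * t) * W =
        (t * Real.log t / (2 * Real.log 2)) * W + W * ((d : ℝ) - 1) * (4 * J + 6) * t := by ring
    rw [e5] at hL4
    nlinarith
  have hmain2 : (d : ℝ) * (1 - 5 * η / 8) * X ≤ (1 + 9 * η / 4) * (t : ℝ) ^ 2 := by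
    have : W * ((d : ℝ) * (1 - 5 * η / 8) * X) ≤ W * ((1 + 9 * η / 4) * (t : ℝ) ^ 2) := by
      calc W * ((d : ℝ) * (1 - 5 * η / 8) * X) = W * ((d : ℝ) * (1 - 5 * η / 8)) * X := by ring
        _ ≤ (1 + 9 * η / 4) * (t : ℝ) ^ 2 * W := hmain
        _ = W * ((1 + 9 * η / 4) * (t : ℝ) ^ 2) := by ring
    exact le_of_mul_le_mul_left this hWp
  have hpos : 0 < 1 - 5 * η / 8 := by linarith
  have hcmp : (1 + 9 * η / 4) ≤ (1 - 5 * η / 8) * (1 + 8 * η) := by nlinarith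
  have hfin : (1 - 5 * η / 8) * ((d : ℝ) * X) ≤ (1 - 5 * η / 8) * ((1 + 8 * η) * (t : ℝ) ^ 2) := by
    calc (1 - 5 * η / 8) * ((d : ℝ) * X) = (d : ℝ) * (1 - 5 * η / 8) * X := by ring
      _ ≤ (1 + 9 * η / 4) * (t : ℝ) ^ 2 := hmain2
      _ ≤ (1 - 5 * η / 8) * (1 + 8 * η) * (t : ℝ) ^ 2 :=
          mul_le_mul_of_nonneg_right hcmp (sq_nonneg _)
      _ = (1 - 5 * η / 8) * ((1 + 8 * η) * (t : ℝ) ^ 2) := by ring
  exact le_of_mul_le_mul_left hfin hpos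

end F0744C
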