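import Pool.Agent.Lib.MP_f0744f_nt.C.R4
import Pool.Agent.Lib.MP_f0744f_nt.C.R4a

/-! # Row R4b: the masses of the discs -/

set_option autoImplicit false

open Polynomial

namespace F0744C

variable {S : Finset ℤ} {a : ℤ} {d : ℕ}

/-- `EnR_ge` and `mass_arith` (`Λ = log L`, `δ = log L - log (ρ2 / 2)`, `z = 1 / d ^ J`). -/
theorem mass_r (f : PM S a d) (hd : 2 ≤ d) {L : ℝ} (hL1 : 1 ≤ L)
    (hL : ∀ y ∈ S, |((y : ℤ) : ℝ)| ≤ L) (J : ℕ) {ρ1 ρ2 : ℝ} (h0 : 0 < ρ1)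
    (h12 : 16 ^ (d + 2) * ρ1 ≤ ρ2) (h2 : ρ2 ≤ L)
    (hα : L ≤ |((f.F.leadingCoeff : ℚ) : ℝ)| * ρ1 ^ d)
    {C : Finset ℂ} (hC : ∀ c ∈ C, ∀ c' ∈ C, c ≠ c' → ρ2 ≤ ‖c - c'‖)
    (hr : ∀ c ∈ C, ∀ z ∈ (f.F.map (algebraMap ℚ ℂ)).roots, ‖z - c‖ ≤ ρ1 ∨ ρ2 ≤ ‖z - c‖)
    (hμ : ∀ c ∈ C, 1 ≤ cnt f.F c ρ1)
    {T : Finset ℤ} (hT : T ⊆ Dm S a f.ph (J + 1))
    (hcov : ∀ x ∈ T, ∃ c ∈ C, ‖(x : ℂ) - c‖ ≤ 2 * ρ1) {η : ℝ} (hη0 : 0 < η) (hη1 : η ≤ 1 / 2)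
    (hJ : 1 / (d : ℝ) ^ J ≤ η) (hB : Big d (2 * J) η T.card)
    (hM : ((d : ℝ) - 1) * Real.log L / 4 ≤ mm Rat.AbsoluteValue.real L d f.F)
    (hΛ : Real.log 2 ≤ η / 16 * Real.log L)
    (hδ : Real.log L - Real.log (ρ2 / 2) ≤ η / 32 * Real.log L)
    (hE : En Rat.AbsoluteValue.real L T ≤
      (1 + η) * (T.card : ℝ) ^ 2 * (mm Rat.AbsoluteValue.real L d f.F / ((d : ℝ) - 1))) :
    (d : ℝ) * ∑ c ∈ C, ((dsc T c (2 * ρ1)).card : ℝ) ^ 2 / (cnt f.F c ρ1 : ℝ) ≤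
      (1 + 8 * η) * (T.card : ℝ) ^ 2 := by
  have hd1 : (0 : ℝ) ≤ (d : ℝ) - 1 := by
    have : (2 : ℝ) ≤ (d : ℝ) := by exact_mod_cast hd
    linarith
  have hlog : 0 ≤ Real.log L := Real.log_nonneg hL1
  have hm : 0 ≤ mm Rat.AbsoluteValue.real L d f.F :=
    le_trans (by positivity) hM
  have h := (EnR_ge f hd hL1 hL J h0 h12 h2 hα hC hr hμ hT hcov hm).trans hE
  have hX : 0 ≤ ∑ c ∈ C, ((dsc T c (2 * ρ1)).card : ℝ) ^ 2 / (cnt f.F c ρ1 : ℝ) :=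
    Finset.sum_nonneg fun c _ => by positivity
  exact mass_arith hd hη0 hη1 (by positivity) hJ hB hM hΛ hδ hX h

end F0744C
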