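import Pool.Agent.Lib.MP_f0744f_nt.C.R5a

/-! # Row R5b: points and clusters -/

set_option autoImplicit false

open Polynomial

namespace F0744C

variable {S : Finset ℤ} {a : ℤ} {d : ℕ}

/-- the value of the complex polynomial at an integer point -/
theorem R5b_eval (f : PM S a d) {x : ℤ} (hx : x ∈ S) (hxa : x ≠ a) :
    (f.F.map (algebraMap ℚ ℂ)).eval (x : ℂ) = ((f.ph x : ℤ) : ℂ) := by
  have h1 : (x : ℂ) = algebraMap ℚ ℂ (x : ℚ) := by simp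
  rw [h1, Polynomial.eval_map_algebraMap, Polynomial.aeval_algebraMap_apply]
  rw [Polynomial.coe_aeval_eq_eval, ← f.val x hx hxa]
  simp

/-- the norm of the leading coefficient -/
theorem R5b_lead (F : ℚ[X]) :
    ‖(F.map (algebraMap ℚ ℂ)).leadingCoeff‖ = |((F.leadingCoeff : ℚ) : ℝ)| := by
  rw [Polynomial.leadingCoeff_map]
  have h : algebraMap ℚ ℂ F.leadingCoeff = (((F.leadingCoeff : ℚ) : ℝ) : ℂ) := by simp
  rw [h, Complex.norm_real, Real.norm_eq_abs]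

/-- `F (x) = ph x ∈ S`, so `|F (x)| ≤ L ≤ |α| ρ1 ^ d`; `exists_near_root` for `F.map (algebraMap ℚ ℂ)`. -/
theorem point_root (f : PM S a d) (hd : 2 ≤ d) {L ρ1 : ℝ} (hL : ∀ y ∈ S, |((y : ℤ) : ℝ)| ≤ L)
    (h0 : 0 < ρ1) (hα : L ≤ |((f.F.leadingCoeff : ℚ) : ℝ)| * ρ1 ^ d) {x : ℤ} (hx : x ∈ S)
    (hxa : x ≠ a) : ∃ z ∈ (f.F.map (algebraMap ℚ ℂ)).roots, ‖(x : ℂ) - z‖ ≤ ρ1 := by
  have hdeg : (f.F.map (algebraMap ℚ ℂ)).natDegree = d := by
    rw [Polynomial.natDegree_map, f.deg]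
  refine exists_near_root (by omega) h0.le ?_
  rw [hdeg, R5b_eval f hx hxa, R5b_lead]
  have h2 : ‖((f.ph x : ℤ) : ℂ)‖ = |((f.ph x : ℤ) : ℝ)| := by
    rw [Complex.norm_intCast]
  rw [h2]
  exact (hL _ (f.maps x hx hxa)).trans hα

/-- a multiset and predicates which exclude each other -/
theorem R5b_sum_countP {ι α : Type*} (C : Finset ι) (p : ι → α → Prop)
    [∀ c, DecidablePred (p c)] (hp : ∀ c ∈ C, ∀ c' ∈ C, c ≠ c' → ∀ z, ¬ (p c z ∧ p c' z))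
    (s : Multiset α) : ∑ c ∈ C, s.countP (p c) ≤ Multiset.card s := by
  classical
  induction s using Multiset.induction_on with
  | empty => simp
  | cons z s ih =>
    simp only [Multiset.countP_cons, Finset.sum_add_distrib, Multiset.card_cons]
    refine Nat.add_le_add ih ?_
    rw [← Finset.card_filter, Finset.card_le_one]
    intro c hc c' hc'
    rw [Finset.mem_filter] at hc hc'
    by_contra hne
    exact hp c hc.1 c' hc'.1 hne z ⟨hc.2, hc'.2⟩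

/-- the numbers of roots in disjoint discs: induction on `C` or `Multiset.card` of the disjoint filters -/
theorem sum_cnt (F : ℚ[X]) {C : Finset ℂ} {ρ1 : ℝ}
    (hC : ∀ c ∈ C, ∀ c' ∈ C, c ≠ c' → 2 * ρ1 < ‖c - c'‖) :
    ∑ c ∈ C, cnt F c ρ1 ≤ F.natDegree := by
  classical
  have h1 : ∑ c ∈ C, cnt F c ρ1 ≤ Multiset.card (F.map (algebraMap ℚ ℂ)).roots := by
    unfold cnt
    refine R5b_sum_countP C (fun c z => ‖z - c‖ ≤ ρ1) ?_ _
    rintro c hc c' hc' hne z ⟨hz, hz'⟩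
    have h2 := hC c hc c' hc' hne
    have h3 : ‖c - c'‖ ≤ ‖z - c'‖ + ‖z - c‖ := by
      have h4 : c - c' = (z - c') - (z - c) := by ring
      rw [h4]
      exact norm_sub_le _ _
    linarith
  refine h1.trans ((Polynomial.card_roots' _).trans ?_)
  rw [Polynomial.natDegree_map]

/-- `point_root` gives a root `z` with `‖x - z‖ ≤ ρ1`; by `rF` (`ρ2 ≤ ‖z - c‖` is impossible: `‖z - c‖ ≤ 3 ρ1 < ρ2`)
`‖z - c‖ ≤ ρ1`, so it is counted (`Multiset.countP_pos`). -/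
theorem one_le_cnt (f : PM S a d) (hd : 2 ≤ d) {L ρ1 ρ2 : ℝ} (hL : ∀ y ∈ S, |((y : ℤ) : ℝ)| ≤ L)
    (h0 : 0 < ρ1) (h12 : 16 ^ (d + 2) * ρ1 ≤ ρ2)
    (hα : L ≤ |((f.F.leadingCoeff : ℚ) : ℝ)| * ρ1 ^ d) {c : ℂ}
    (hr : ∀ z ∈ (f.F.map (algebraMap ℚ ℂ)).roots, ‖z - c‖ ≤ ρ1 ∨ ρ2 ≤ ‖z - c‖)
    {x : ℤ} (hx : x ∈ S) (hxa : x ≠ a) (hxc : ‖(x : ℂ) - c‖ ≤ 2 * ρ1) : 1 ≤ cnt f.F c ρ1 := by
  classical
  obtain ⟨z, hz, hxz⟩ := point_root f hd hL h0 hα hx hxa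
  have h3 : ‖z - c‖ ≤ 3 * ρ1 := by
    have h4 : z - c = ((x : ℂ) - c) - ((x : ℂ) - z) := by ring
    rw [h4]
    have := norm_sub_le ((x : ℂ) - c) ((x : ℂ) - z)
    linarith
  have h5 : (256 : ℝ) ≤ 16 ^ (d + 2) := by
    rw [pow_add]
    have : (1 : ℝ) ≤ 16 ^ d := one_le_pow₀ (by norm_num)
    nlinarith
  have h6 : ‖z - c‖ ≤ ρ1 := by
    rcases hr z hz with h | h
    · exact h
    · exfalso
      have : 256 * ρ1 ≤ 16 ^ (d + 2) * ρ1 := mul_le_mul_of_nonneg_right h5 h0.le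
      linarith
  unfold cnt
  exact Multiset.countP_pos.2 ⟨z, hz, h6⟩

/-- All roots are counted, so the root of `point_root` has `‖z - c‖ ≤ ρ1` (`Multiset.countP_eq_card`,
`natDegree (F.map) = d`, the number of the roots is at most `d`). -/
theorem all_near (f : PM S a d) (hd : 2 ≤ d) {L ρ1 : ℝ} (hL : ∀ y ∈ S, |((y : ℤ) : ℝ)| ≤ L)
    (h0 : 0 < ρ1) (hα : L ≤ |((f.F.leadingCoeff : ℚ) : ℝ)| * ρ1 ^ d) {c : ℂ}
    (hc : cnt f.F c ρ1 = d) {x : ℤ} (hx : x ∈ S) (hxa : x ≠ a) : ‖(x : ℂ) - c‖ ≤ 2 * ρ1 := by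
  classical
  obtain ⟨z, hz, hxz⟩ := point_root f hd hL h0 hα hx hxa
  have hcard : Multiset.card (f.F.map (algebraMap ℚ ℂ)).roots ≤ d := by
    refine (Polynomial.card_roots' _).trans ?_
    rw [Polynomial.natDegree_map, f.deg]
  have hall : (f.F.map (algebraMap ℚ ℂ)).roots.countP (fun z => ‖z - c‖ ≤ ρ1) =
      Multiset.card (f.F.map (algebraMap ℚ ℂ)).roots := by
    refine le_antisymm (Multiset.countP_le_card _ _) ?_
    have : (f.F.map (algebraMap ℚ ℂ)).roots.countP (fun z => ‖z - c‖ ≤ ρ1) = d := hc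
    omega
  have h6 : ‖z - c‖ ≤ ρ1 := Multiset.countP_eq_card.1 hall z hz
  have h4 : (x : ℂ) - c = ((x : ℂ) - z) + (z - c) := by ring
  rw [h4]
  have := norm_add_le ((x : ℂ) - z) (z - c)
  linarith

end F0744C
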