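import Pool.Agent.Lib.MP_f0744f_nt.C.M1
import Pool.Agent.Lib.MP_f0744f_nt.C.R4b
import Pool.Agent.Lib.MP_f0744f_nt.C.R5b

/-! # Row R5: no tight real place -/

set_option autoImplicit false

open Polynomial

namespace F0744C

/-- `Λ0` from `exists_clus`, `hcl : Clus f.F g.F d e η L ρ1 ρ2 C`. Let `C' = C.filter (fun c => (dsc T c (2 ρ1)).Nonempty)`.
Every `x ∈ T` is within `2 ρ1` of a `c ∈ C'` (`point_root`, `cF`); `1 ≤ cnt` for `c ∈ C'` (`one_le_cnt`: `x ∈ T` has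
`x ∈ S`, `x ≠ a`, by `Dm_succ`), also for `g`. `mass_r` for `f` and `g`; `mass_abs` with `8 η`, `T := T.card`,
`t c = (dsc T c (2 ρ1)).card` (`∑_c t c = T.card`: the `dsc`s are disjoint because `4 ρ1 < ρ2`, `sum_cnt`);
`coprime_single` (`16 * (8 η) = 128 η`) for a `c ∈ C'` (`T` is not empty): `cnt f.F c ρ1 = d`, `cnt g.F c ρ1 = e`. By
`all_near` every `x ∈ S` with `x ≠ a`, and every `x ∈ S` with `x ≠ b`, so (`a ≠ b`) every `x ∈ S`, is within `2 ρ1` of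
`c`. With `0` and `y`, `|y| = L`: `L ≤ 4 ρ1 < 16 ^ 4 ρ1 ≤ ρ2 ≤ L`, contradiction. -/
theorem local_r {d e : ℕ} (hd : 2 ≤ d) (he : 2 ≤ e) (hcop : Nat.Coprime d e) {η : ℝ}
    (h0 : 0 < η) (h1 : η ≤ 1 / 2) (hη : 128 * η * ((d : ℝ) * e) ^ 2 ≤ 1) :
    ∃ Λ0 : ℝ, ∀ (S : Finset ℤ) (a b : ℤ) (f : PM S a d) (g : PM S b e) (L : ℝ) (J : ℕ)
      (T : Finset ℤ), a ≠ b → (0 : ℤ) ∈ S → (∀ y ∈ S, |((y : ℤ) : ℝ)| ≤ L) →
      (∃ y ∈ S, |((y : ℤ) : ℝ)| = L) → 1 ≤ L → Λ0 ≤ Real.log L →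
      T ⊆ Dm S a f.ph (J + 1) → T ⊆ Dm S b g.ph (J + 1) → T.Nonempty →
      1 / (d : ℝ) ^ J ≤ η → 1 / (e : ℝ) ^ J ≤ η →
      Big d (2 * J) η T.card → Big e (2 * J) η T.card →
      ((d : ℝ) - 1) * Real.log L / 4 ≤ mm Rat.AbsoluteValue.real L d f.F →
      ((e : ℝ) - 1) * Real.log L / 4 ≤ mm Rat.AbsoluteValue.real L e g.F →
      En Rat.AbsoluteValue.real L T ≤
        (1 + η) * (T.card : ℝ) ^ 2 * (mm Rat.AbsoluteValue.real L d f.F / ((d : ℝ) - 1)) →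
      En Rat.AbsoluteValue.real L T ≤
        (1 + η) * (T.card : ℝ) ^ 2 * (mm Rat.AbsoluteValue.real L e g.F / ((e : ℝ) - 1)) →
      False := by
  classical
  obtain ⟨Λ0, hΛ0⟩ := exists_clus hd he h0 h1
  refine ⟨Λ0, ?_⟩
  intro S a b f g L J T hab hz hL hy hL1 hLΛ hTf hTg hTn hJf hJg hBf hBg hMf hMg hEf hEg
  obtain ⟨ρ1, ρ2, C, hcl⟩ := hΛ0 f.F g.F L f.deg g.deg hL1 hLΛ hMf hMg
  have hpos := hcl.pos
  have h16 : ∀ n : ℕ, (16 : ℝ) ≤ 16 ^ (n + 2) := by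
    intro n
    calc (16 : ℝ) = 16 ^ 1 := by norm_num
      _ ≤ 16 ^ (n + 2) := pow_le_pow_right₀ (by norm_num) (by omega)
  have h16ρ : 16 * ρ1 ≤ ρ2 :=
    le_trans (mul_le_mul_of_nonneg_right (h16 d) hpos.le) hcl.sepd
  have hmem : ∀ (c : ℂ) (x : ℤ), x ∈ dsc T c (2 * ρ1) ↔ x ∈ T ∧ ‖(x : ℂ) - c‖ ≤ 2 * ρ1 := by
    intro c x
    simp [dsc]
  set C' : Finset ℂ := C.filter (fun c => (dsc T c (2 * ρ1)).Nonempty) with hC'
  have hC'C : ∀ c ∈ C', c ∈ C := fun c hc => (Finset.mem_filter.1 hc).1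
  have hcov0 : ∀ x ∈ T, ∃ c ∈ C, ‖(x : ℂ) - c‖ ≤ 2 * ρ1 := by
    intro x hx
    obtain ⟨hxS, hxa, -⟩ := Dm_succ (hTf hx)
    obtain ⟨z, hz1, hz2⟩ := point_root f hd hL hpos hcl.aF hxS hxa
    obtain ⟨c, hc, hzc⟩ := hcl.cF z hz1
    refine ⟨c, hc, ?_⟩
    calc ‖(x : ℂ) - c‖ = ‖((x : ℂ) - z) + (z - c)‖ := by ring_nf
      _ ≤ ‖(x : ℂ) - z‖ + ‖z - c‖ := norm_add_le _ _
      _ ≤ 2 * ρ1 := by linarith
  have hcov : ∀ x ∈ T, ∃ c ∈ C', ‖(x : ℂ) - c‖ ≤ 2 * ρ1 := by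
    intro x hx
    obtain ⟨c, hc, hxc⟩ := hcov0 x hx
    exact ⟨c, Finset.mem_filter.2 ⟨hc, ⟨x, (hmem c x).2 ⟨hx, hxc⟩⟩⟩, hxc⟩
  have hCsep : ∀ c ∈ C', ∀ c' ∈ C', c ≠ c' → ρ2 ≤ ‖c - c'‖ :=
    fun c hc c' hc' hne => hcl.sepC c (hC'C c hc) c' (hC'C c' hc') hne
  have hCsep2 : ∀ c ∈ C', ∀ c' ∈ C', c ≠ c' → 2 * ρ1 < ‖c - c'‖ := by
    intro c hc c' hc' hne
    have := hCsep c hc c' hc' hne
    linarith
  have hμf : ∀ c ∈ C', 1 ≤ cnt f.F c ρ1 := by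
    intro c hc
    obtain ⟨hcC, x, hx⟩ := Finset.mem_filter.1 hc
    obtain ⟨hxT, hxc⟩ := (hmem c x).1 hx
    obtain ⟨hxS, hxa, -⟩ := Dm_succ (hTf hxT)
    exact one_le_cnt f hd hL hpos hcl.sepd hcl.aF (hcl.rF c hcC) hxS hxa hxc
  have hμg : ∀ c ∈ C', 1 ≤ cnt g.F c ρ1 := by
    intro c hc
    obtain ⟨hcC, x, hx⟩ := Finset.mem_filter.1 hc
    obtain ⟨hxT, hxc⟩ := (hmem c x).1 hx
    obtain ⟨hxS, hxb, -⟩ := Dm_succ (hTg hxT)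
    exact one_le_cnt g he hL hpos hcl.sepe hcl.aG (hcl.rG c hcC) hxS hxb hxc
  have hunion : T = C'.biUnion (fun c => dsc T c (2 * ρ1)) := by
    ext x
    rw [Finset.mem_biUnion]
    constructor
    · intro hx
      obtain ⟨c, hc, hxc⟩ := hcov x hx
      exact ⟨c, hc, (hmem c x).2 ⟨hx, hxc⟩⟩
    · rintro ⟨c, -, hx⟩
      exact ((hmem c x).1 hx).1
  have hcard : T.card = ∑ c ∈ C', (dsc T c (2 * ρ1)).card := by
    conv_lhs => rw [hunion]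
    refine Finset.card_biUnion ?_
    intro c hc c' hc' hne
    change Disjoint (dsc T c (2 * ρ1)) (dsc T c' (2 * ρ1))
    rw [Finset.disjoint_left]
    intro x hx hx'
    have h1 := ((hmem c x).1 hx).2
    have h2 := ((hmem c' x).1 hx').2
    have h3 := hCsep c hc c' hc' hne
    have h4 : ‖c - c'‖ ≤ ‖(x : ℂ) - c'‖ + ‖(x : ℂ) - c‖ := by
      calc ‖c - c'‖ = ‖((x : ℂ) - c') - ((x : ℂ) - c)‖ := by ring_nf
        _ ≤ ‖(x : ℂ) - c'‖ + ‖(x : ℂ) - c‖ := norm_sub_le _ _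
    linarith
  have hTpos : (0 : ℝ) < (T.card : ℝ) := by
    exact_mod_cast Finset.card_pos.2 hTn
  have hsum : ∑ c ∈ C', ((dsc T c (2 * ρ1)).card : ℝ) = (T.card : ℝ) := by
    rw [hcard]
    push_cast
    rfl
  have hsf : ∑ c ∈ C', cnt f.F c ρ1 ≤ d := by
    have := sum_cnt f.F hCsep2
    rwa [f.deg] at this
  have hsg : ∑ c ∈ C', cnt g.F c ρ1 ≤ e := by
    have := sum_cnt g.F hCsep2
    rwa [g.deg] at this
  have hmf := mass_r f hd hL1 hL J hpos hcl.sepd hcl.leL hcl.aF hCsep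
    (fun c hc => hcl.rF c (hC'C c hc)) hμf hTf hcov h0 h1 hJf hBf hMf hcl.two hcl.del hEf
  have hmg := mass_r g he hL1 hL J hpos hcl.sepe hcl.leL hcl.aG hCsep
    (fun c hc => hcl.rG c (hC'C c hc)) hμg hTg hcov h0 h1 hJg hBg hMg hcl.two hcl.del hEg
  have haf := mass_abs C' (fun c => ((dsc T c (2 * ρ1)).card : ℝ)) (fun c => cnt f.F c ρ1)
    (d := d) (η := 8 * η) hTpos hμf hsf hsum hmf
  have hag := mass_abs C' (fun c => ((dsc T c (2 * ρ1)).card : ℝ)) (fun c => cnt g.F c ρ1)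
    (d := e) (η := 8 * η) hTpos hμg hsg hsum hmg
  obtain ⟨x0, hx0⟩ := hTn
  obtain ⟨c, hc, -⟩ := hcov x0 hx0
  have hle : cnt f.F c ρ1 ≤ d :=
    le_trans (Finset.single_le_sum (f := fun c => cnt f.F c ρ1)
      (fun i _ => Nat.zero_le _) hc) hsf
  obtain ⟨hcd, hce⟩ := coprime_single hcop (by omega) (by omega) (hμf c hc) hle
    (haf c hc) (hag c hc) (by linarith)
  have hnear : ∀ x ∈ S, ‖(x : ℂ) - c‖ ≤ 2 * ρ1 := by
    intro x hx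
    by_cases hxa : x = a
    · have hxb : x ≠ b := by
        rw [hxa]
        exact hab
      exact all_near g he hL hpos hcl.aG hce hx hxb
    · exact all_near f hd hL hpos hcl.aF hcd hx hxa
  obtain ⟨y, hyS, hyL⟩ := hy
  have e1 := hnear 0 hz
  have e2 := hnear y hyS
  have e3 : ‖(y : ℂ)‖ ≤ 4 * ρ1 := by
    calc ‖(y : ℂ)‖ = ‖((y : ℂ) - c) - (((0 : ℤ) : ℂ) - c)‖ := by
          congr 1
          push_cast
          ring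
      _ ≤ ‖(y : ℂ) - c‖ + ‖((0 : ℤ) : ℂ) - c‖ := norm_sub_le _ _
      _ ≤ 4 * ρ1 := by linarith
  have e4 : ‖(y : ℂ)‖ = L := by
    rw [← hyL, Complex.norm_intCast]
  have e5 := hcl.leL
  linarith

end F0744C
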