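import Pool.Agent.Lib.MP_f0744f_nt.C.A1
import Pool.Agent.Lib.MP_f0744f_nt.C.P5
import Pool.Agent.Lib.MP_f0744f_nt.C.R5
import Pool.Agent.Lib.MP_f0744f_nt.C.G2
import Pool.Agent.Lib.MP_f0744f_nt.C.G3
import Pool.Agent.Lib.MP_f0744f_nt.C.G4
import Pool.Agent.Lib.MP_f0744f_nt.C.G1b
import Pool.Agent.Lib.MP_f0744f_nt.C.G5

/-! # The integral core for coprime degrees -/

set_option autoImplicit false

open Polynomial

namespace F0744C

theorem big_mono {d J : ℕ} {ε η : ℝ} (h : ε ≤ η) {t : ℕ} (hB : Big d J ε t) : Big d J η t := by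
  unfold Big at *
  have : (0 : ℝ) ≤ (t : ℝ) ^ 2 := by positivity
  nlinarith

theorem pow_le {d J : ℕ} (hd : 2 ≤ d) {x : ℝ} (h : (1 / 2 : ℝ) ^ J ≤ x) : 1 / (d : ℝ) ^ J ≤ x := by
  refine le_trans ?_ h
  have h2 : (2 : ℝ) ≤ d := by exact_mod_cast hd
  rw [one_div_pow]
  exact one_div_le_one_div_of_le (by positivity) (pow_le_pow_left₀ (by norm_num) h2 J)

theorem main_int {d e : ℕ} (hd : 2 ≤ d) (he : 2 ≤ e) (hcop : Nat.Coprime d e) : MainInt d e := by
  have hd' : (2 : ℝ) ≤ d := by exact_mod_cast hd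
  have he' : (2 : ℝ) ≤ e := by exact_mod_cast he
  have hde : (4 : ℝ) ≤ (d : ℝ) * e := by nlinarith
  obtain ⟨η, hη⟩ : ∃ η : ℝ, η = 1 / (128 * ((d : ℝ) * e) ^ 2) := ⟨_, rfl⟩
  have hη0 : 0 < η := by rw [hη]; positivity
  have hη2 : 128 * η * ((d : ℝ) * e) ^ 2 ≤ 1 := by
    rw [hη]; apply le_of_eq; field_simp
  have hη1 : η ≤ 1 / 2 := by nlinarith
  have hη3 : 64 * η * ((d : ℝ) * e) ^ 2 ≤ 1 := by nlinarith [sq_nonneg ((d : ℝ) * e)]
  obtain ⟨ε, hε⟩ : ∃ ε : ℝ, ε = η / 64 := ⟨_, rfl⟩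
  have hε0 : 0 < ε := by rw [hε]; positivity
  have hε1 : ε ≤ 1 := by rw [hε]; linarith
  have hε2 : 32 * ε < η := by rw [hε]; linarith
  obtain ⟨J, hJ⟩ : ∃ J : ℕ, (1 / 2 : ℝ) ^ J < ε / 2 :=
    exists_pow_lt_of_lt_one (by positivity) (by norm_num)
  obtain ⟨Λ0, hΛ0⟩ := local_r hd he hcop hη0 hη1 hη2
  obtain ⟨t1, ht1⟩ := exists_big d (2 * J) (ε := ε / 2) (by positivity)
  obtain ⟨t2, ht2⟩ := exists_big e (2 * J) (ε := ε / 2) (by positivity)
  refine ⟨t1 + t2 + 2 * (J + 1) + 3 + ⌈2 * Real.exp (max Λ0 (Real.log 2 / ε)) + 1⌉₊, ?_⟩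
  intro S a b ha hb hab h0 hN prim f g
  obtain ⟨L, hL1, hL, hL'⟩ := exists_L (S := S) (by omega)
  have hcard := card_le (by linarith : (0 : ℝ) ≤ L) hL
  have hΛ : max Λ0 (Real.log 2 / ε) ≤ Real.log L := by
    rw [Real.le_log_iff_exp_le (by linarith)]
    have h1 : (2 * Real.exp (max Λ0 (Real.log 2 / ε)) + 1 : ℝ) ≤ S.card := by
      refine le_trans (Nat.le_ceil _) ?_
      exact_mod_cast le_trans (by omega) hN
    linarith
  have hΛ1 : Λ0 ≤ Real.log L := le_trans (le_max_left _ _) hΛ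
  have hΛ2 : Real.log 2 ≤ ε * Real.log L := by
    have := le_trans (le_max_right _ _) hΛ
    rw [div_le_iff₀ hε0] at this
    linarith
  have hlog2 : 0 < Real.log 2 := Real.log_pos (by norm_num)
  have hΛpos : 0 < Real.log L := by
    by_contra hcon
    push Not at hcon
    have : ε * Real.log L ≤ 0 := mul_nonpos_of_nonneg_of_nonpos hε0.le hcon
    linarith
  obtain ⟨T, hT⟩ : ∃ T, T = Dm S a f.ph (J + 1) ∩ Dm S b g.ph (J + 1) := ⟨_, rfl⟩
  have hTf : T ⊆ Dm S a f.ph (J + 1) := by rw [hT]; exact Finset.inter_subset_left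
  have hTg : T ⊆ Dm S b g.ph (J + 1) := by rw [hT]; exact Finset.inter_subset_right
  have hTf' : T ⊆ Dm S a f.ph J := hTf.trans (Dm_anti _ _)
  have hTg' : T ⊆ Dm S b g.ph J := hTg.trans (Dm_anti _ _)
  have hTS : T ⊆ S := hTf.trans (Dm_sub _ _ _ _)
  have hTcard : S.card ≤ T.card + 2 * (J + 1) := by
    have c1 := Dm_card f (J + 1)
    have c2 := Dm_card g (J + 1)
    have c3 := Finset.card_union_add_card_inter (Dm S a f.ph (J + 1)) (Dm S b g.ph (J + 1))
    have c4 : (Dm S a f.ph (J + 1) ∪ Dm S b g.ph (J + 1)).card ≤ S.card :=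
      Finset.card_le_card (Finset.union_subset (Dm_sub _ _ _ _) (Dm_sub _ _ _ _))
    rw [← hT] at c3
    omega
  have hTne : T.Nonempty := Finset.card_pos.1 (by omega)
  have hBf : Big d (2 * J) (ε / 2) T.card := ht1 _ (by omega)
  have hBg : Big e (2 * J) (ε / 2) T.card := ht2 _ (by omega)
  have hε3 : ε / 2 ≤ η := by linarith
  have hF0 : f.F ≠ 0 := by
    intro h; have := f.deg; rw [h, natDegree_zero] at this; omega
  have hG0 : g.F ≠ 0 := by
    intro h; have := g.deg; rw [h, natDegree_zero] at this; omega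
  obtain ⟨B, hB⟩ : ∃ B : ℕ, B = ⌈2 * L⌉₊ + f.F.leadingCoeff.den + g.F.leadingCoeff.den := ⟨_, rfl⟩
  have hB1 : 2 * L ≤ B := by
    refine le_trans (Nat.le_ceil _) ?_
    rw [hB]; exact_mod_cast (by omega)
  have hes := energy_sum T (fun x hx => hL x (hTS hx)) hB1
  have ht : (0 : ℝ) < T.card := by exact_mod_cast Finset.card_pos.2 hTne
  have hd1 : (0 : ℝ) < (d : ℝ) - 1 := by linarith
  have he1 : (0 : ℝ) < (e : ℝ) - 1 := by linarith
  have hfac : ∀ p ∈ Ps B, p.Prime := fun p hp => (Finset.mem_filter.1 hp).2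
  rcases tight (Ps B) (fun p => EnP p T) (fun p => max 0 (mP p f.F) / ((d : ℝ) - 1))
      (fun p => max 0 (mP p g.F) / ((e : ℝ) - 1)) (E0 := En Rat.AbsoluteValue.real L T)
      (M0 := mm Rat.AbsoluteValue.real L d f.F / ((d : ℝ) - 1))
      (M0' := mm Rat.AbsoluteValue.real L e g.F / ((e : ℝ) - 1)) (Q := (T.card : ℝ) ^ 2)
      (Λ := Real.log L) (ε := ε) (η := η) (by positivity) hΛpos hε0 hη1 hε2
      (by rw [hes]; nlinarith [mul_pos ht hΛpos])
      (fun p _ => div_nonneg (le_max_left _ _) hd1.le)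
      (fun p _ => div_nonneg (le_max_left _ _) he1.le)
      (fun p hp => lower_p f hd (hfac p hp) J hTf' hε0 hε1 (pow_le hd hJ.le) hBf)
      (fun p hp => lower_p g he (hfac p hp) J hTg' hε0 hε1 (pow_le he hJ.le) hBg)
      (lower_r f hd J hTf' hε0 hε1 (pow_le hd hJ.le) hBf hL1 hL hΛ2)
      (lower_r g he J hTg' hε0 hε1 (pow_le he hJ.le) hBg hL1 hL hΛ2)
      (by
        have := sum_mm hF0 d (B := B) (by rw [hB]; omega) L
        rw [← Finset.sum_div, ← add_div, le_div_iff₀ hd1]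
        linarith)
      (by
        have := sum_mm hG0 e (B := B) (by rw [hB]; omega) L
        rw [← Finset.sum_div, ← add_div, le_div_iff₀ he1]
        linarith) with ⟨p, hp, h1, h2, h3⟩ | ⟨h1, h2, h3, h4⟩
  · have : Fact p.Prime := ⟨hfac p hp⟩
    have hmf : 0 < mP p f.F := by
      by_contra hcon
      push Not at hcon
      rw [max_eq_left hcon, zero_div, mul_zero] at h2
      linarith
    have hmg : 0 < mP p g.F := by
      by_contra hcon
      push Not at hcon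
      rw [max_eq_left hcon, zero_div, mul_zero] at h3
      linarith
    rw [max_eq_right hmf.le] at h2
    rw [max_eq_right hmg.le] at h3
    exact local_p hd he hcop hab f g (prim p (hfac p hp)) J hTf hTg hTne hη0 hη1 hη3
      (pow_le hd (hJ.le.trans hε3)) (pow_le he (hJ.le.trans hε3)) (big_mono hε3 hBf)
      (big_mono hε3 hBg) hmf hmg h2 h3
  · refine hΛ0 S a b f g L J T hab h0 hL hL' hL1 hΛ1 hTf hTg hTne
      (pow_le hd (hJ.le.trans hε3)) (pow_le he (hJ.le.trans hε3)) (big_mono hε3 hBf)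
      (big_mono hε3 hBg) ?_ ?_ h3 h4
    · rw [le_div_iff₀ hd1] at h1
      linarith
    · rw [le_div_iff₀ he1] at h2
      linarith

end F0744C
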