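import Pool.Agent.Lib.MP_f0744f_nt.C.P1a

/-! # Row P1: the roots modulo p -/

set_option autoImplicit false

open Polynomial

namespace F0744C

/-- `natDegree G = natDegree F`. -/
theorem Red.natDegree {F : ℚ[X]} {p : ℕ} (r : Red F p) : r.G.natDegree = F.natDegree := by
  have hc : (r.c : ℚ) ≠ 0 := Int.cast_ne_zero.mpr r.hc
  rw [← Polynomial.natDegree_map_eq_of_injective
    (show Function.Injective (Int.castRingHom ℚ) from Int.cast_injective) r.G, r.hG,
    Polynomial.natDegree_C_mul hc]

/-- The multiplicities add up to at most the degree (`Polynomial.card_roots'`,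
`Multiset.sum_count_eq_card`-like; `rootMultiplicity = roots.count`). -/
theorem Red.sum_mu {F : ℚ[X]} {p : ℕ} [Fact p.Prime] (r : Red F p) (C : Finset (ZMod p)) :
    ∑ ρ ∈ C, r.mu ρ ≤ F.natDegree := by
  classical
  have h1 : ∑ ρ ∈ C, r.mu ρ ≤ ∑ ρ ∈ C ∪ (r.G.map (Int.castRingHom (ZMod p))).roots.toFinset,
      (r.G.map (Int.castRingHom (ZMod p))).roots.count ρ := by
    unfold Red.mu
    simp only [← Polynomial.count_roots]
    exact Finset.sum_le_sum_of_subset Finset.subset_union_left
  have h2 : ∑ ρ ∈ C ∪ (r.G.map (Int.castRingHom (ZMod p))).roots.toFinset,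
      (r.G.map (Int.castRingHom (ZMod p))).roots.count ρ =
      ∑ ρ ∈ (r.G.map (Int.castRingHom (ZMod p))).roots.toFinset,
      (r.G.map (Int.castRingHom (ZMod p))).roots.count ρ := by
    refine (Finset.sum_subset Finset.subset_union_right ?_).symm
    intro x _ hx
    rw [Multiset.mem_toFinset] at hx
    exact Multiset.count_eq_zero_of_notMem hx
  rw [h2, Multiset.toFinset_sum_count_eq] at h1
  refine h1.trans ((Polynomial.card_roots' _).trans ?_)
  exact Polynomial.natDegree_map_le.trans r.natDegree.le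

/-- If `G (x) = c F (x)` with `F (x)` an integer and `p ∣ c` the residue of `x` is a root of `Ḡ`. -/
theorem Red.one_le_mu {F : ℚ[X]} {p : ℕ} [Fact p.Prime] (r : Red F p)
    (hα : padicValRat p F.leadingCoeff < 0) {x y : ℤ} (h : ((y : ℤ) : ℚ) = F.eval (x : ℚ)) :
    1 ≤ r.mu (x : ZMod p) := by
  have hv : (1 : ℤ) ≤ (padicValInt p r.c : ℤ) := by
    have := r.hval
    omega
  have hpc : (p : ℤ) ∣ r.c := by
    have h1 : ((p : ℤ)) ^ (padicValInt p r.c) ∣ r.c := padicValInt_dvd r.c
    refine dvd_trans ?_ h1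
    exact dvd_pow_self _ (by omega)
  have hGx : r.G.eval x = r.c * y := by
    have h1 : ((r.G.eval x : ℤ) : ℚ) = (r.G.map (Int.castRingHom ℚ)).eval (x : ℚ) := by
      rw [Polynomial.eval_map, Polynomial.eval₂_at_intCast]
      simp
    rw [r.hG, Polynomial.eval_mul, Polynomial.eval_C, ← h] at h1
    exact_mod_cast h1
  have hroot : (r.G.map (Int.castRingHom (ZMod p))).IsRoot (x : ZMod p) := by
    rw [Polynomial.IsRoot.def, Polynomial.eval_map, Polynomial.eval₂_at_intCast]
    simp only [eq_intCast, Int.cast_id]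
    rw [hGx, Int.cast_mul, (ZMod.intCast_zmod_eq_zero_iff_dvd r.c p).mpr hpc, zero_mul]
  unfold Red.mu
  exact (Polynomial.rootMultiplicity_pos r.hne).mpr hroot

/-- A residue of multiplicity `natDegree F` is the only root of `Ḡ`. -/
theorem Red.single {F : ℚ[X]} {p : ℕ} [Fact p.Prime] (r : Red F p) {ρ ρ' : ZMod p}
    (h : r.mu ρ = F.natDegree) (h' : 1 ≤ r.mu ρ') : ρ' = ρ := by
  classical
  by_contra hne
  have h1 := r.sum_mu {ρ, ρ'}
  rw [Finset.sum_pair (Ne.symm hne)] at h1
  omega

end F0744C
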