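import Pool.Agent.Lib.MP_f0744f_nt.C.Defs

/-! # Row P1a: integral multiples -/

set_option autoImplicit false

open Polynomial

namespace F0744C

lemma P1a_ex (F : ℚ[X]) : ∃ (c : ℤ) (G : ℤ[X]), c ≠ 0 ∧
    G.map (Int.castRingHom ℚ) = C (c : ℚ) * F := by
  obtain ⟨b, hb⟩ := IsLocalization.integerNormalization_map_to_map (nonZeroDivisors ℤ) F
  refine ⟨(b : ℤ), IsLocalization.integerNormalization (nonZeroDivisors ℤ) F,
    nonZeroDivisors.coe_ne_zero b, ?_⟩
  rw [← algebraMap_int_eq, hb]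
  ext n
  simp [coeff_smul, Algebra.smul_def]

lemma P1a_lead {F : ℚ[X]} {c : ℤ} {G : ℤ[X]} (h : G.map (Int.castRingHom ℚ) = C (c : ℚ) * F) :
    ((G.leadingCoeff : ℤ) : ℚ) = (c : ℚ) * F.leadingCoeff := by
  have h1 := congrArg leadingCoeff h
  rw [leadingCoeff_map_of_injective (RingHom.injective_int (Int.castRingHom ℚ)), leadingCoeff_mul,
    leadingCoeff_C] at h1
  exact h1

lemma P1a_val {F : ℚ[X]} (hF : F ≠ 0) {p : ℕ} [Fact p.Prime] {c : ℤ} {G : ℤ[X]} (hc : c ≠ 0)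
    (h : G.map (Int.castRingHom ℚ) = C (c : ℚ) * F) :
    (padicValInt p G.leadingCoeff : ℤ) = (padicValInt p c : ℤ) + padicValRat p F.leadingCoeff := by
  have h1 := congrArg (padicValRat p) (P1a_lead h)
  rw [padicValRat.mul (by exact_mod_cast hc) (leadingCoeff_ne_zero.2 hF), padicValRat.of_int,
    padicValRat.of_int] at h1
  exact h1

/-- Let `D ≠ 0` be a common denominator of the coefficients of `F` (`IsLocalization.integerNormalization`
or a product of denominators), `D F = g G₀` with `G₀ ∈ ℤ[X]` primitive (`Polynomial.primPart`, `content`).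
So `G₀ = c₀ F`, `c₀ = D / g`. Write `c₀ = u / w` in lowest terms. `v_p (c₀) + v_p (α) = v_p (lead G₀) ≥ 0`,
so `v_p (c₀) ≥ - v_p (α) > 0` and `p ∤ w`. Take `c = u`, `G = w G₀`: its reduction is `w̄ Ḡ₀ ≠ 0`. -/
theorem exists_red {F : ℚ[X]} (hF : F ≠ 0) {p : ℕ} [Fact p.Prime]
    (hα : padicValRat p F.leadingCoeff < 0) : Nonempty (Red F p) := by
  classical
  have hp : p.Prime := Fact.out
  have hex : ∃ n : ℕ, ∃ (c : ℤ) (G : ℤ[X]), c ≠ 0 ∧ G.map (Int.castRingHom ℚ) = C (c : ℚ) * F ∧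
      c.natAbs = n := by
    obtain ⟨c, G, hc, h⟩ := P1a_ex F
    exact ⟨_, c, G, hc, h, rfl⟩
  obtain ⟨c, G, hc, h, hn⟩ := Nat.find_spec hex
  have hmin : ∀ (c' : ℤ) (G' : ℤ[X]), c' ≠ 0 → G'.map (Int.castRingHom ℚ) = C (c' : ℚ) * F →
      c.natAbs ≤ c'.natAbs := by
    intro c' G' hc' h'
    rw [hn]
    exact Nat.find_min' hex ⟨c', G', hc', h', rfl⟩
  have hv := P1a_val (p := p) hF hc h
  refine ⟨⟨c, hc, G, h, ?_, by omega⟩⟩
  intro h0
  have hdvd : ∀ n, (p : ℤ) ∣ G.coeff n := by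
    intro n
    have h1 := congrArg (fun P : (ZMod p)[X] => P.coeff n) h0
    simp only [coeff_map, coeff_zero, eq_intCast] at h1
    exact (ZMod.intCast_zmod_eq_zero_iff_dvd _ p).1 h1
  have hG0 : G ≠ 0 := by
    intro hG
    rw [hG, Polynomial.map_zero] at h
    have h2 : C (c : ℚ) * F ≠ 0 := mul_ne_zero (C_ne_zero.2 (by exact_mod_cast hc)) hF
    exact h2 h.symm
  obtain ⟨G', hG'⟩ := C_dvd_iff_dvd_coeff (p : ℤ) G |>.2 hdvd
  have hl : 1 ≤ padicValInt p G.leadingCoeff := by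
    have h3 := (padicValInt_dvd_iff (p := p) 1 G.leadingCoeff).1 (by
      rw [pow_one]
      exact hdvd G.natDegree)
    exact h3.resolve_left (leadingCoeff_ne_zero.2 hG0)
  have hpc : (p : ℤ) ∣ c := by
    have h4 := (padicValInt_dvd_iff (p := p) 1 c).2 (Or.inr (by omega))
    rwa [pow_one] at h4
  obtain ⟨c', hc'⟩ := hpc
  have hc0 : c' ≠ 0 := by
    rintro rfl
    exact hc (by rw [hc', mul_zero])
  have hpQ : C (p : ℚ) ≠ 0 := C_ne_zero.2 (by exact_mod_cast hp.ne_zero)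
  have h5 : G'.map (Int.castRingHom ℚ) = C (c' : ℚ) * F := by
    apply mul_left_cancel₀ hpQ
    have h6 : C (p : ℚ) * G'.map (Int.castRingHom ℚ) = G.map (Int.castRingHom ℚ) := by
      rw [hG', Polynomial.map_mul, map_C]
      simp
    rw [h6, h, hc']
    push_cast
    rw [C_mul]
    ring
  have h7 := hmin c' G' hc0 h5
  rw [hc', Int.natAbs_mul, Int.natAbs_natCast] at h7
  have h8 : 0 < c'.natAbs := Int.natAbs_pos.2 hc0
  have h9 := hp.two_le
  nlinarith

end F0744C
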