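import Pool.Agent.Lib.MP_f0744f_nt.C.A5

/-! # Row P2: the divisibility argument -/

set_option autoImplicit false

open Polynomial

namespace F0744C

/-- Fix `x₀ ∈ U`, `P = (X - x₀) ^ (n - m q) ∏_{s ∈ Q} (G - c s) ∈ ℤ[X]`, `ω = ∏_{x ∈ U} (X - x)` (monic of
degree `n + 1`), `P = ω q₀ + R`, `R = P %ₘ ω`, `deg R ≤ n`. The reduction of `P` modulo `p` is
`(X - ρ) ^ (n - m q) Ḡ ^ q` (because `p ∣ c`), not zero, and `ρ` is a root of multiplicity exactly `n`.
Suppose `p ^ W ∤ ∏_{y ≠ x} (x - y) = ω' (x)` for all `x ∈ U`. Write `ω' (x) = p ^ (w x) k x`, `p ∤ k x`,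
`w x < W`, and `P (x) = p ^ W t x`. By Lagrange interpolation over `ℚ` (`R (x) = P (x)`, `deg R < U.card`)
`R = ∑_x P (x) / ω' (x) ∏_{y ≠ x} (X - y)`, so with `K = ∏ k x`: `K R = ∑_x (K / k x) t x p ^ (W - w x) ∏ (X - y)`
has all coefficients divisible by `p`, hence `R ≡ 0` modulo `p`, so `(X - ρ) ^ (n + 1)` divides the
reduction of `P`: contradiction. -/
theorem refine_core {p : ℕ} [Fact p.Prime] {G : ℤ[X]} (hG : G.map (Int.castRingHom (ZMod p)) ≠ 0)
    {ρ : ZMod p} {m : ℕ} (hm : (G.map (Int.castRingHom (ZMod p))).rootMultiplicity ρ = m)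
    {U : Finset ℤ} (hρ : ∀ x ∈ U, (x : ZMod p) = ρ) {n : ℕ} (hn : U.card = n + 1)
    {Q : Finset ℤ} (hq : m * Q.card ≤ n) {c : ℤ} (hc : (p : ℤ) ∣ c) {W : ℕ}
    (hW : ∀ x ∈ U, (p : ℤ) ^ W ∣ ∏ s ∈ Q, (G.eval x - c * s)) :
    ∃ x ∈ U, (p : ℤ) ^ W ∣ ∏ y ∈ U.erase x, (x - y) := by
  classical
  have hp : p.Prime := Fact.out
  have hpZ : Prime (p : ℤ) := Nat.prime_iff_prime_int.1 hp
  have hp0 : (p : ℤ) ≠ 0 := hpZ.ne_zero
  by_contra hcon
  push Not at hcon
  have hUne : U.Nonempty := by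
    rw [← Finset.card_pos, hn]
    omega
  obtain ⟨x₀, hx₀⟩ := hUne
  have hcoe : ∀ z : ℤ, (Int.castRingHom (ZMod p)) z = (z : ZMod p) := fun z => rfl
  set P : ℤ[X] := (X - C x₀) ^ (n - m * Q.card) * ∏ s ∈ Q, (G - C (c * s)) with hP
  set om : ℤ[X] := ∏ x ∈ U, (X - C x) with hom
  have homM : om.Monic := monic_prod_of_monic _ _ (fun x _ => monic_X_sub_C x)
  have hdegp : ∀ V : Finset ℤ, (∏ x ∈ V, (X - C x) : ℤ[X]).degree = ((V.card : ℕ) : WithBot ℕ) := by
    intro V
    rw [degree_prod, Finset.sum_congr rfl (fun x _ => degree_X_sub_C x)]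
    simp
  have homd : om.degree = U.card := hdegp U
  set R := P %ₘ om with hR
  have hRd : R.degree < U.card := by
    rw [← homd]
    exact degree_modByMonic_lt P homM
  have hPR : R + om * (P /ₘ om) = P := modByMonic_add_div P om
  have homx : ∀ x ∈ U, om.eval x = 0 := by
    intro x hx
    rw [hom, eval_prod]
    exact Finset.prod_eq_zero hx (by simp)
  have hRx : ∀ x ∈ U, R.eval x = P.eval x := by
    intro x hx
    rw [← hPR, eval_add, eval_mul, homx x hx, zero_mul, add_zero]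
  have hPx : ∀ x ∈ U, (p : ℤ) ^ W ∣ R.eval x := by
    intro x hx
    rw [hRx x hx, hP, eval_mul, eval_prod]
    refine Dvd.dvd.mul_left ?_ _
    have := hW x hx
    simpa using this
  -- the reduction of `P`
  have hcp : ((c : ℤ) : ZMod p) = 0 := by
    rw [ZMod.intCast_zmod_eq_zero_iff_dvd]
    exact hc
  set f := Int.castRingHom (ZMod p) with hf
  have hPbar : P.map f = (X - C ρ) ^ (n - m * Q.card) * (G.map f) ^ Q.card := by
    rw [hP, Polynomial.map_mul, Polynomial.map_pow, Polynomial.map_sub, map_X, map_C, hcoe, hρ x₀ hx₀,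
      Polynomial.map_prod]
    congr 1
    rw [← Finset.prod_const]
    apply Finset.prod_congr rfl
    intro s _
    rw [Polynomial.map_sub, map_C, hcoe]
    push_cast
    rw [hcp, zero_mul, C_0, sub_zero]
  have hPbar0 : P.map f ≠ 0 := by
    rw [hPbar]
    exact mul_ne_zero (pow_ne_zero _ (X_sub_C_ne_zero ρ)) (pow_ne_zero _ hG)
  have hmult : (P.map f).rootMultiplicity ρ = n := by
    rw [hPbar] at hPbar0 ⊢
    rw [rootMultiplicity_mul hPbar0, rootMultiplicity_X_sub_C_pow, ← count_roots ((G.map f) ^ Q.card), roots_pow,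
      Multiset.count_nsmul, count_roots, hm, mul_comm Q.card m]
    omega
  have hombar : om.map f = (X - C ρ) ^ (n + 1) := by
    rw [hom, Polynomial.map_prod, ← hn, ← Finset.prod_const]
    apply Finset.prod_congr rfl
    intro x hx
    rw [Polynomial.map_sub, map_X, map_C, hcoe, hρ x hx]
  have hRbar : R.map f ≠ 0 := by
    intro h0
    have h1 : P.map f = (X - C ρ) ^ (n + 1) * (P /ₘ om).map f := by
      have h2 := congrArg (Polynomial.map f) hPR
      rw [Polynomial.map_add, h0, zero_add, Polynomial.map_mul, hombar] at h2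
      exact h2.symm
    have h2 : (X - C ρ) ^ (n + 1) ∣ P.map f := Dvd.intro _ h1.symm
    have h3 := (le_rootMultiplicity_iff hPbar0).2 h2
    rw [hmult] at h3
    omega
  -- the values of the derivative of `om`
  set a : ℤ → ℤ := fun x => ∏ y ∈ U.erase x, (x - y) with ha
  have ha0 : ∀ x, a x ≠ 0 := by
    intro x
    rw [ha]
    apply Finset.prod_ne_zero_iff.2
    intro y hy
    have := (Finset.mem_erase.1 hy).1
    exact sub_ne_zero.2 this.symm
  have hfac : ∀ x : ℤ, ∃ (w : ℕ) (k : ℤ), a x = (p : ℤ) ^ w * k ∧ ¬ (p : ℤ) ∣ k := by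
    intro x
    have h1 : FiniteMultiplicity (p : ℤ) (a x) :=
      Int.finiteMultiplicity_iff.2 ⟨by rw [Int.natAbs_natCast]; exact hp.one_lt.ne', ha0 x⟩
    obtain ⟨k, hk1, hk2⟩ := h1.exists_eq_pow_mul_and_not_dvd
    exact ⟨_, k, hk1, hk2⟩
  choose w k hak hpk using hfac
  have hwW : ∀ x ∈ U, w x + 1 ≤ W := by
    intro x hx
    by_contra hlt
    push Not at hlt
    apply hcon x hx
    have h1 : (p : ℤ) ^ W ∣ (p : ℤ) ^ (w x) := pow_dvd_pow _ (by omega)
    have h2 : (p : ℤ) ^ W ∣ a x := by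
      rw [hak x]
      exact h1.mul_right _
    exact h2
  have ht : ∀ x : ℤ, ∃ t : ℤ, x ∈ U → R.eval x = (p : ℤ) ^ W * t := by
    intro x
    by_cases hx : x ∈ U
    · obtain ⟨t, ht⟩ := hPx x hx
      exact ⟨t, fun _ => ht⟩
    · exact ⟨0, fun h => absurd h hx⟩
  choose t ht using ht
  -- Lagrange interpolation
  have hlag : C (∏ x ∈ U, a x) * R = ∑ x ∈ U, C (R.eval x * ∏ y ∈ U.erase x, a y) * ∏ y ∈ U.erase x, (X - C y) := by
    have hA0 : (∏ x ∈ U, a x) ≠ 0 := Finset.prod_ne_zero_iff.2 (fun x _ => ha0 x)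
    apply eq_of_degrees_lt_of_eval_finset_eq U
    · rw [degree_mul, degree_C hA0, zero_add]
      exact hRd
    · refine lt_of_le_of_lt (degree_sum_le _ _) ?_
      rw [Finset.sup_lt_iff (WithBot.bot_lt_coe _)]
      intro x hx
      have h1 := hdegp (U.erase x)
      refine lt_of_le_of_lt (degree_mul_le _ _) ?_
      refine lt_of_le_of_lt (add_le_add_left degree_C_le _) ?_
      rw [zero_add, h1, Finset.card_erase_of_mem hx]
      have : U.card - 1 < U.card := by omega
      exact_mod_cast this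
    · intro x hx
      rw [eval_mul, eval_C, eval_finsetSum, Finset.sum_eq_single x]
      · rw [eval_mul, eval_C, eval_prod]
        have h1 : ∏ y ∈ U.erase x, eval x (X - C y) = a x := by
          rw [ha]
          apply Finset.prod_congr rfl
          intro y _
          simp
        rw [h1, ← Finset.mul_prod_erase U a hx]
        ring
      · intro y hy hyx
        have h2 : ∏ z ∈ U.erase y, eval x (X - C z) = 0 :=
          Finset.prod_eq_zero (Finset.mem_erase.2 ⟨hyx.symm, hx⟩) (by simp)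
        rw [eval_mul, eval_prod, h2, mul_zero]
      · intro h
        exact absurd hx h
  have hprodA : ∏ x ∈ U, a x = (p : ℤ) ^ (∑ x ∈ U, w x) * ∏ x ∈ U, k x := by
    rw [Finset.prod_congr rfl (fun x _ => hak x), Finset.prod_mul_distrib, Finset.prod_pow_eq_pow_sum]
  have hterm : ∀ x ∈ U, R.eval x * ∏ y ∈ U.erase x, a y =
      (p : ℤ) ^ (∑ x ∈ U, w x) * (p * ((p : ℤ) ^ (W - w x - 1) * t x * ∏ y ∈ U.erase x, k y)) := by
    intro x hx
    have h1 : ∏ y ∈ U.erase x, a y = (p : ℤ) ^ (∑ y ∈ U.erase x, w y) * ∏ y ∈ U.erase x, k y := by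
      rw [Finset.prod_congr rfl (fun y _ => hak y), Finset.prod_mul_distrib, Finset.prod_pow_eq_pow_sum]
    have h2 : ∑ y ∈ U, w y = w x + ∑ y ∈ U.erase x, w y := (Finset.add_sum_erase U w hx).symm
    have h3 : (p : ℤ) ^ W = (p : ℤ) ^ (w x) * (p * (p : ℤ) ^ (W - w x - 1)) := by
      rw [← pow_succ', ← pow_add]
      congr 1
      have := hwW x hx
      omega
    rw [ht x hx, h1, h2, h3, pow_add]
    ring
  set S : ℤ[X] := ∑ x ∈ U, C ((p : ℤ) ^ (W - w x - 1) * t x * ∏ y ∈ U.erase x, k y) * ∏ y ∈ U.erase x, (X - C y) with hS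
  have hkey : C (∏ x ∈ U, k x) * R = C (p : ℤ) * S := by
    have h1 : C ((p : ℤ) ^ (∑ x ∈ U, w x)) * (C (∏ x ∈ U, k x) * R) =
        C ((p : ℤ) ^ (∑ x ∈ U, w x)) * (C (p : ℤ) * S) := by
      rw [← mul_assoc, ← C_mul, ← hprodA, hlag, hS, Finset.mul_sum, Finset.mul_sum]
      apply Finset.sum_congr rfl
      intro x hx
      rw [hterm x hx, C_mul, C_mul]
      ring
    exact mul_left_cancel₀ (by rw [Ne, C_eq_zero]; exact pow_ne_zero _ hp0) h1
  have hkey2 := congrArg (Polynomial.map f) hkey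
  rw [Polynomial.map_mul, Polynomial.map_mul, map_C, map_C, hcoe, hcoe] at hkey2
  have hpz : (((p : ℕ) : ℤ) : ZMod p) = 0 := by simp
  rw [hpz, C_0, zero_mul] at hkey2
  rcases mul_eq_zero.1 hkey2 with h1 | h1
  · rw [C_eq_zero] at h1
    push_cast at h1
    rw [Finset.prod_eq_zero_iff] at h1
    obtain ⟨x, _, hx⟩ := h1
    rw [ZMod.intCast_zmod_eq_zero_iff_dvd] at hx
    exact hpk x hx
  · exact hRbar h1

end F0744C
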