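import Pool.Agent.Lib.MP_f0744f_nt.C.A8
import Pool.Agent.Lib.MP_f0744f_nt.C.P1
import Pool.Agent.Lib.MP_f0744f_nt.C.P2

/-! # Row P3: the refined bound in a residue class -/

set_option autoImplicit false

open Polynomial

namespace F0744C

variable {S : Finset ℤ} {a : ℤ} {d : ℕ}

/-- `uu` for the `p`-adic absolute value. -/
theorem uu_padic (p : ℕ) [Fact p.Prime] {x y : ℤ} (h : x ≠ y) :
    uu (Rat.AbsoluteValue.padic p) 1 x y = vp p ((x : ℚ) - y) := by
  have h0 : ((x : ℚ) - y) ≠ 0 := by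
    rw [sub_ne_zero]
    exact_mod_cast h
  unfold uu vp
  rw [Rat.AbsoluteValue.padic_eq_padicNorm, padicNorm.eq_zpow_of_nonzero h0]
  push_cast
  rw [Real.log_one, Real.log_zpow]
  push_cast
  ring

theorem mm_padic (p : ℕ) [Fact p.Prime] (d : ℕ) {F : ℚ[X]} (hF : F ≠ 0) :
    mm (Rat.AbsoluteValue.padic p) 1 d F = mP p F := by
  have h0 : F.leadingCoeff ≠ 0 := leadingCoeff_ne_zero.2 hF
  unfold mm mP vp
  rw [Rat.AbsoluteValue.padic_eq_padicNorm, padicNorm.eq_zpow_of_nonzero h0]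
  push_cast
  rw [Real.log_one, Real.log_zpow]
  push_cast
  ring

/-- the valuation of a product -/
theorem P3_val_prod (p : ℕ) [Fact p.Prime] (T : Finset ℤ) (w : ℤ) (hw : w ∉ T) :
    (∏ s ∈ T, (w - s)) ≠ 0 ∧
      (padicValInt p (∏ s ∈ T, (w - s)) : ℝ) * Real.log p = ∑ s ∈ T, vp p ((w : ℚ) - s) := by
  classical
  induction T using Finset.induction_on with
  | empty => simp
  | insert b T hb ih =>
    have hwb : w ≠ b := fun h => hw (by rw [h]; exact Finset.mem_insert_self _ _)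
    have hwT : w ∉ T := fun h => hw (Finset.mem_insert_of_mem h)
    obtain ⟨i1, i2⟩ := ih hwT
    have h0 : w - b ≠ 0 := sub_ne_zero.2 hwb
    refine ⟨?_, ?_⟩
    · rw [Finset.prod_insert hb]
      exact mul_ne_zero h0 i1
    · rw [Finset.prod_insert hb, Finset.sum_insert hb, padicValInt.mul h0 i1, ← i2]
      have h1 : vp p ((w : ℚ) - b) = (padicValInt p (w - b) : ℝ) * Real.log p := by
        unfold vp
        have h2 : ((w : ℚ) - b) = ((w - b : ℤ) : ℚ) := by push_cast; ring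
        rw [h2, padicValRat.of_int]
        push_cast
        ring
      rw [h1]
      push_cast
      ring

/-- `A = padic p`, `R = 1`, `e = padicValInt p r.c ≥ 1`, `q = (U.card - 1) / r.mu ρ`. `nodes` (`q + 1 ≤ U.card ≤
(Dm J).card`) gives `Q ⊆ Dm J`, `Q.card = q`. Let `V = wd d J q * m - log (q + 1)` and
`W = q e + ⌈V / log p⌉₊`. For `x ∈ U`: `f.ph x ∈ Dm J`, `G (x) - c s = c (ph x - s)`, and
`p ^ W ∣ ∏_{s ∈ Q} c (ph x - s)`: the product is zero if `ph x ∈ Q`, otherwise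
`log p * v_p (∏ (ph x - s)) = ∑ uu (ph x) s ≥ V`. `refine_core`: for some `x ∈ U` `p ^ W ∣ ∏ (x - y)`, so
`∑ uu x y ≥ W log p ≥ q e log p + V` and `e log p ≥ m` (`r.hval`). -/
theorem refine_p (f : PM S a d) (hd : 2 ≤ d) {p : ℕ} [Fact p.Prime] (r : Red f.F p)
    (hα : padicValRat p f.F.leadingCoeff < 0) (J : ℕ) {ρ : ZMod p} {U : Finset ℤ}
    (hU : U ⊆ Dm S a f.ph (J + 1)) (hne : U.Nonempty) (hρ : ∀ x ∈ U, (x : ZMod p) = ρ) :
    ∃ x ∈ U, ((((U.card - 1) / r.mu ρ : ℕ) : ℝ) + wd d J ((U.card - 1) / r.mu ρ)) * mP p f.F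
      - Real.log U.card ≤ ∑ y ∈ U.erase x, vp p ((x : ℚ) - y) := by
  classical
  have hp : p.Prime := Fact.out
  have hlp : 0 < Real.log p := Real.log_pos (by exact_mod_cast hp.one_lt)
  have hF : f.F ≠ 0 := by
    intro h
    have := f.deg
    rw [h, natDegree_zero] at this
    omega
  have hcard : 1 ≤ U.card := hne.card_pos
  set q : ℕ := (U.card - 1) / r.mu ρ with hq
  have hqn : q ≤ U.card - 1 := Nat.div_le_self _ _
  have hcardD : U.card ≤ (Dm S a f.ph J).card :=
    Finset.card_le_card (hU.trans (Dm_anti f.ph J))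
  have hS : ∀ y ∈ S, Rat.AbsoluteValue.padic p ((y : ℤ) : ℚ) ≤ 1 := by
    intro y _
    rw [Rat.AbsoluteValue.padic_eq_padicNorm]
    exact_mod_cast padicNorm.of_int y
  obtain ⟨Q, hQD, hQc, hQ⟩ := nodes f (by omega) (Rat.AbsoluteValue.padic p) (le_refl 1) hS J q
    (by omega)
  rw [mm_padic p d hF] at hQ
  set m : ℝ := mP p f.F with hm
  set V : ℝ := (wd d J q : ℝ) * m - Real.log (q + 1) with hV
  set e : ℕ := padicValInt p r.c with he
  have hme : m ≤ e * Real.log p := by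
    have h1 := r.hval
    have h2 : (-(padicValRat p f.F.leadingCoeff : ℝ)) ≤ (e : ℝ) := by exact_mod_cast h1
    rw [hm]
    unfold mP vp
    nlinarith
  have he1 : 1 ≤ e := by
    have h1 := r.hval
    have h2 : (1 : ℤ) ≤ (e : ℤ) := by rw [he]; omega
    exact_mod_cast h2
  have hpc : (p : ℤ) ∣ r.c := by
    have h1 : (p : ℤ) ^ e ∣ r.c := padicValInt_dvd r.c
    exact (dvd_pow_self (p : ℤ) (by omega)).trans h1
  have hev : ∀ x ∈ U, r.G.eval x = r.c * f.ph x := by
    intro x hx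
    obtain ⟨hxS, hxa, -⟩ := Dm_succ (hU hx)
    have h1 : ((r.G.eval x : ℤ) : ℚ) = ((r.c * f.ph x : ℤ) : ℚ) := by
      have h2 : ((r.G.eval x : ℤ) : ℚ) = (r.G.map (Int.castRingHom ℚ)).eval (x : ℚ) := by
        rw [Polynomial.eval_intCast_map]
        simp
      rw [h2, r.hG, eval_mul, eval_C, ← f.val x hxS hxa]
      push_cast
      ring
    exact_mod_cast h1
  have hmuQ : r.mu ρ * Q.card ≤ U.card - 1 := by
    rw [hQc, hq]
    exact Nat.mul_div_le _ _
  obtain ⟨x, hxU, hx⟩ := refine_core (p := p) (G := r.G) r.hne (ρ := ρ) (m := r.mu ρ) rfl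
    (U := U) hρ (n := U.card - 1) (by omega) (Q := Q) hmuQ (c := r.c) hpc
    (W := q * e + ⌈V / Real.log p⌉₊) (by
      intro x hx
      obtain ⟨hxS, hxa, hxD⟩ := Dm_succ (hU hx)
      have h1 : ∏ s ∈ Q, (r.G.eval x - r.c * s) = r.c ^ q * ∏ s ∈ Q, (f.ph x - s) := by
        rw [← hQc, ← Finset.prod_const, ← Finset.prod_mul_distrib]
        refine Finset.prod_congr rfl fun s _ => ?_
        rw [hev x hx]
        ring
      rw [h1]
      by_cases hmem : f.ph x ∈ Q
      · rw [Finset.prod_eq_zero hmem (sub_self _), mul_zero]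
        exact dvd_zero _
      · rw [pow_add]
        refine mul_dvd_mul ?_ ?_
        · rw [mul_comm, pow_mul]
          exact pow_dvd_pow_of_dvd (padicValInt_dvd r.c) q
        · obtain ⟨h2, h3⟩ := P3_val_prod p Q (f.ph x) hmem
          have h4 := hQ (f.ph x) hxD hmem
          have h5 : ∑ s ∈ Q, uu (Rat.AbsoluteValue.padic p) 1 (f.ph x) s =
              ∑ s ∈ Q, vp p ((f.ph x : ℚ) - s) := by
            refine Finset.sum_congr rfl fun s hs => uu_padic p ?_
            intro h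
            exact hmem (h ▸ hs)
          rw [h5, ← h3] at h4
          rw [padicValInt_dvd_iff]
          right
          rw [Nat.ceil_le, div_le_iff₀ hlp]
          exact h4)
  refine ⟨x, hxU, ?_⟩
  obtain ⟨h1, h2⟩ := P3_val_prod p (U.erase x) x (Finset.notMem_erase x U)
  rw [← h2]
  have h3 : q * e + ⌈V / Real.log p⌉₊ ≤ padicValInt p (∏ y ∈ U.erase x, (x - y)) := by
    rcases (padicValInt_dvd_iff _ _).1 hx with h | h
    · exact absurd h h1
    · exact h
  have h4 : ((q * e + ⌈V / Real.log p⌉₊ : ℕ) : ℝ) ≤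
      (padicValInt p (∏ y ∈ U.erase x, (x - y)) : ℝ) := by exact_mod_cast h3
  have h5 : V / Real.log p ≤ (⌈V / Real.log p⌉₊ : ℝ) := Nat.le_ceil _
  have h6 : V ≤ (⌈V / Real.log p⌉₊ : ℝ) * Real.log p := by
    rw [div_le_iff₀ hlp] at h5
    exact h5
  have h7 : Real.log (q + 1) ≤ Real.log U.card := by
    refine Real.log_le_log (by positivity) ?_
    have : q + 1 ≤ U.card := by omega
    exact_mod_cast this
  have h8 : (q : ℝ) * m ≤ (q : ℝ) * (e * Real.log p) :=
    mul_le_mul_of_nonneg_left hme (Nat.cast_nonneg q)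
  calc ((q : ℝ) + wd d J q) * m - Real.log U.card
      ≤ ((q : ℝ) * e + ⌈V / Real.log p⌉₊) * Real.log p := by
        rw [hV] at h6
        rw [hV]
        nlinarith
    _ ≤ (padicValInt p (∏ y ∈ U.erase x, (x - y)) : ℝ) * Real.log p := by
        refine mul_le_mul_of_nonneg_right ?_ hlp.le
        push_cast at h4
        exact h4

end F0744C
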