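import Pool.Agent.Lib.MP_f0744f_nt.C.P4a

/-! # Row P4: the masses of the residue classes, tight primes -/

set_option autoImplicit false

open Polynomial

namespace F0744C

variable {S : Finset ℤ} {a : ℤ} {d : ℕ}

/-- The lower bound of `mP`. -/
theorem P4_log_two_le {p : ℕ} [Fact p.Prime] {F : ℚ[X]}
    (hα : padicValRat p F.leadingCoeff < 0) : Real.log 2 ≤ mP p F := by
  have hp : (2 : ℝ) ≤ (p : ℝ) := by exact_mod_cast (Fact.out : p.Prime).two_le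
  have hlog : Real.log 2 ≤ Real.log p := Real.log_le_log (by norm_num) hp
  have hlog0 : 0 ≤ Real.log p := le_trans (Real.log_nonneg (by norm_num)) hlog
  have hv : (1 : ℝ) ≤ -(padicValRat p F.leadingCoeff : ℝ) := by
    have h1 : padicValRat p F.leadingCoeff ≤ -1 := by omega
    have h2 : ((padicValRat p F.leadingCoeff : ℤ) : ℝ) ≤ ((-1 : ℤ) : ℝ) := by exact_mod_cast h1
    push_cast at h2
    linarith
  unfold mP vp
  nlinarith

/-- The arithmetic of the row. -/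
theorem P4_arith {d J t m η z s E L l2 : ℝ} (hd : 2 ≤ d) (hJ : 0 ≤ J) (ht : 0 ≤ t)
    (hl2 : 0 < l2) (hm : l2 ≤ m) (hL : 0 ≤ t * L) (h0 : 0 < η) (h1 : η ≤ 1 / 2)
    (hz0 : 0 ≤ z) (hz : z ≤ η) (hs : 0 ≤ s)
    (hB : (d + 1) * ((2 * (2 * J) + 8) * t + 4 * t * L / l2) ≤ η * t ^ 2)
    (hE : E ≤ (1 + η) * t ^ 2 * (m / (d - 1)))
    (hG : m * ((d - z) / (d - 1) * s - (4 * J + 6) * t) - 2 * t * L ≤ E) :
    d * s ≤ (1 + 4 * η) * t ^ 2 := by
  have hm0 : 0 < m := lt_of_lt_of_le hl2 hm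
  have hd1 : 0 < d - 1 := by linarith
  -- the energy inequality multiplied by `(d - 1) / m`
  have h2 : (d - z) * s ≤ (1 + η) * t ^ 2 + (d - 1) * ((4 * J + 6) * t) +
      (d - 1) * (2 * (t * L) / m) := by
    have h3 := le_trans hG hE
    have h4 : (m * ((d - z) / (d - 1) * s - (4 * J + 6) * t) - 2 * t * L) * ((d - 1) / m) ≤
        ((1 + η) * t ^ 2 * (m / (d - 1))) * ((d - 1) / m) :=
      mul_le_mul_of_nonneg_right h3 (by positivity)
    have h5 : (m * ((d - z) / (d - 1) * s - (4 * J + 6) * t) - 2 * t * L) * ((d - 1) / m) =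
        (d - z) * s - (d - 1) * ((4 * J + 6) * t) - (d - 1) * (2 * (t * L) / m) := by
      field_simp
    have h6 : ((1 + η) * t ^ 2 * (m / (d - 1))) * ((d - 1) / m) = (1 + η) * t ^ 2 := by
      field_simp
    rw [h5, h6] at h4
    linarith
  have h7 : 2 * (t * L) / m ≤ 2 * (t * L) / l2 :=
    div_le_div_of_nonneg_left (by linarith) hl2 hm
  have h8 : 0 ≤ 2 * (t * L) / l2 := by positivity
  have h9 : 4 * t * L / l2 = 2 * (2 * (t * L) / l2) := by ring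
  have h10 : (d - z) * s ≤ (1 + 2 * η) * t ^ 2 := by
    have h11 : (d - 1) * (2 * (t * L) / m) ≤ (d - 1) * (2 * (t * L) / l2) :=
      mul_le_mul_of_nonneg_left h7 hd1.le
    rw [h9] at hB
    have h12 : 0 ≤ J * t := mul_nonneg hJ ht
    set w := 2 * (t * L) / l2 with hw
    have h13 : 0 ≤ (d + 1) * w := by positivity
    have h14 : 0 ≤ d * t := by positivity
    nlinarith
  have h15 : 0 ≤ z * (d - 1 - z) := mul_nonneg hz0 (by linarith)
  have h16 : d * s ≤ (d - z) * s * (1 + z) := by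
    nlinarith [mul_nonneg h15 hs]
  have h17 : (d - z) * s * (1 + z) ≤ (1 + 2 * η) * t ^ 2 * (1 + η) := by
    apply mul_le_mul h10 (by linarith) (by linarith) (by positivity)
  have h18 : (1 + 2 * η) * t ^ 2 * (1 + η) ≤ (1 + 4 * η) * t ^ 2 := by
    have h19 : 0 ≤ η * (1 - 2 * η) := mul_nonneg h0.le (by linarith)
    nlinarith [mul_nonneg h19 (sq_nonneg t)]
  linarith

/-- `m = mP p F ≥ log 2` (`hα`: `m = k log p`, `k ≥ 1`). From `EnP_ge` and `hE`: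
`(d - z) ∑ ≤ (1 + η) t ^ 2 + (d - 1) ((4 J + 6) t + 2 t log t / m) ≤ (1 + 2 η) t ^ 2` (`Big`), and
`d ∑ ≤ (d - z) ∑ (1 + z)` (`z ≤ η ≤ 1 / 2 ≤ d - 1 - z`), `(1 + 2 η)(1 + η) ≤ 1 + 4 η`. -/
theorem mass_p (f : PM S a d) (hd : 2 ≤ d) {p : ℕ} [Fact p.Prime] (r : Red f.F p)
    (hα : padicValRat p f.F.leadingCoeff < 0) (J : ℕ) {T : Finset ℤ}
    (hT : T ⊆ Dm S a f.ph (J + 1)) {η : ℝ} (h0 : 0 < η) (h1 : η ≤ 1 / 2)
    (hJ : 1 / (d : ℝ) ^ J ≤ η) (hB : Big d (2 * J) η T.card)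
    (hE : EnP p T ≤ (1 + η) * (T.card : ℝ) ^ 2 * (mP p f.F / ((d : ℝ) - 1))) :
    (d : ℝ) * ∑ ρ ∈ T.image (fun x : ℤ => (x : ZMod p)),
      ((cls p T ρ).card : ℝ) ^ 2 / (r.mu ρ : ℝ) ≤ (1 + 4 * η) * (T.card : ℝ) ^ 2 := by
  have hd' : (2 : ℝ) ≤ (d : ℝ) := by exact_mod_cast hd
  have hB' : ((d : ℝ) + 1) * ((2 * (2 * (J : ℝ)) + 8) * (T.card : ℝ) +
      4 * (T.card : ℝ) * Real.log (T.card : ℝ) / Real.log 2) ≤ η * (T.card : ℝ) ^ 2 := by
    have h := hB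
    unfold Big at h
    push_cast at h
    exact h
  have hs : 0 ≤ ∑ ρ ∈ T.image (fun x : ℤ => (x : ZMod p)),
      ((cls p T ρ).card : ℝ) ^ 2 / (r.mu ρ : ℝ) :=
    Finset.sum_nonneg fun ρ _ => by positivity
  exact P4_arith hd' (Nat.cast_nonneg J) (Nat.cast_nonneg _) (Real.log_pos (by norm_num))
    (P4_log_two_le hα) (mul_nonneg (Nat.cast_nonneg _) (Real.log_natCast_nonneg _)) h0 h1
    (by positivity) hJ hs hB' hE (EnP_ge f hd r hα J hT)

end F0744C
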