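import Pool.Agent.Lib.MP_f0744f_nt.C.P3

/-! # Row P4a: the sum over the residue classes -/

set_option autoImplicit false

open Polynomial

namespace F0744C

variable {S : Finset ℤ} {a : ℤ} {d : ℕ}

theorem P4a_vp_nonneg (p : ℕ) (x y : ℤ) : 0 ≤ vp p ((x : ℚ) - y) := by
  unfold vp
  have h1 : ((x : ℚ) - y) = (((x - y : ℤ)) : ℚ) := by push_cast; ring
  have h2 : (0 : ℝ) ≤ (padicValRat p ((x : ℚ) - y) : ℝ) := by
    rw [h1, padicValRat.of_int]
    positivity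
  exact mul_nonneg h2 (Real.log_natCast_nonneg p)

theorem P4a_vp_symm (p : ℕ) (x y : ℤ) : vp p ((x : ℚ) - y) = vp p ((y : ℚ) - x) := by
  unfold vp
  have h1 : ((x : ℚ) - y) = -((y : ℚ) - x) := by ring
  rw [h1, padicValRat.neg]

theorem P4a_split (p : ℕ) (T : Finset ℤ) :
    ∑ ρ ∈ T.image (fun x : ℤ => (x : ZMod p)), EnP p (cls p T ρ) ≤ EnP p T := by
  classical
  unfold EnP
  have h1 : ∑ x ∈ T, ∑ y ∈ T.erase x, vp p ((x : ℚ) - y) =
      ∑ ρ ∈ T.image (fun x : ℤ => (x : ZMod p)), ∑ x ∈ T.filter (fun x : ℤ => (x : ZMod p) = ρ),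
        ∑ y ∈ T.erase x, vp p ((x : ℚ) - y) :=
    (Finset.sum_fiberwise_of_maps_to (fun x hx => Finset.mem_image_of_mem _ hx) _).symm
  rw [h1]
  refine Finset.sum_le_sum fun ρ _ => ?_
  unfold cls
  refine Finset.sum_le_sum fun x _ => ?_
  refine Finset.sum_le_sum_of_subset_of_nonneg ?_ (fun y _ _ => P4a_vp_nonneg p x y)
  exact Finset.erase_subset_erase _ (Finset.filter_subset _ _)

theorem P4a_Dm {f : PM S a d} {J : ℕ} {x : ℤ} (hx : x ∈ Dm S a f.ph (J + 1)) : x ∈ S ∧ x ≠ a := by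
  unfold Dm at hx
  rw [Finset.mem_filter] at hx
  exact ⟨hx.1, hx.2.1⟩

theorem P4a_log (t : ℕ) : ∑ n ∈ Finset.range t, Real.log ((n : ℝ) + 1) ≤ (t : ℝ) * Real.log t := by
  calc ∑ n ∈ Finset.range t, Real.log ((n : ℝ) + 1) ≤ ∑ n ∈ Finset.range t, Real.log t := by
        refine Finset.sum_le_sum fun n hn => ?_
        rw [Finset.mem_range] at hn
        apply Real.log_le_log (by positivity)
        exact_mod_cast hn
    _ = (t : ℝ) * Real.log t := by rw [Finset.sum_const, Finset.card_range, nsmul_eq_mul]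

theorem P4a_mP {F : ℚ[X]} {p : ℕ} (hα : padicValRat p F.leadingCoeff < 0) : 0 ≤ mP p F := by
  unfold mP vp
  have h1 : (padicValRat p F.leadingCoeff : ℝ) ≤ 0 := by exact_mod_cast hα.le
  have h2 : 0 ≤ Real.log p := Real.log_natCast_nonneg p
  nlinarith

/-- one class -/
theorem P4a_class (f : PM S a d) (hd : 2 ≤ d) {p : ℕ} [Fact p.Prime] (r : Red f.F p)
    (hα : padicValRat p f.F.leadingCoeff < 0) (J : ℕ) {T : Finset ℤ}
    (hT : T ⊆ Dm S a f.ph (J + 1)) {ρ : ZMod p} (hρ : ρ ∈ T.image (fun x : ℤ => (x : ZMod p))) :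
    mP p f.F * (((d : ℝ) - 1 / (d : ℝ) ^ J) / ((d : ℝ) - 1) *
      (((cls p T ρ).card : ℝ) ^ 2 / (r.mu ρ : ℝ)) - (4 * J + 6) * (cls p T ρ).card)
        - 2 * (cls p T ρ).card * Real.log (cls p T ρ).card ≤ EnP p (cls p T ρ) := by
  classical
  set U := cls p T ρ with hU
  have hUT : U ⊆ T := Finset.filter_subset _ _
  have hUρ : ∀ x ∈ U, (x : ZMod p) = ρ := fun x hx => (Finset.mem_filter.1 hx).2
  obtain ⟨x0, hx0T, hx0⟩ := Finset.mem_image.1 hρ
  have hμ : 1 ≤ r.mu ρ := by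
    obtain ⟨h1, h2⟩ := P4a_Dm (hT hx0T)
    have h3 := r.one_le_mu hα (f.val x0 h1 h2)
    rw [hx0] at h3
    exact h3
  have hen := en_ge (u := fun x y : ℤ => vp p ((x : ℚ) - y)) (P4a_vp_symm p)
    (fun n : ℕ => ((((n / r.mu ρ : ℕ) : ℝ) + wd d J (n / r.mu ρ)) * mP p f.F - Real.log ((n : ℝ) + 1))) U (by
      intro V hV hne
      obtain ⟨x, hx, hxs⟩ := refine_p f hd r hα J (U := V) (ρ := ρ) ((hV.trans hUT).trans hT) hne
        (fun x hx => hUρ x (hV hx))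
      refine ⟨x, hx, ?_⟩
      have hc : ((V.card - 1 : ℕ) : ℝ) + 1 = (V.card : ℝ) := by
        have : 1 ≤ V.card := Finset.card_pos.2 hne
        rw [Nat.cast_sub this]
        push_cast
        ring
      rw [hc]
      exact hxs)
  have hw := wd_sum_class (d := d) (m := r.mu ρ) hd hμ J U.card
  have hlog := P4a_log U.card
  have hm := P4a_mP hα
  have hsum : 2 * ∑ n ∈ Finset.range U.card, ((((n / r.mu ρ : ℕ) : ℝ) + wd d J (n / r.mu ρ)) * mP p f.F - Real.log ((n : ℝ) + 1)) =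
      mP p f.F * (2 * ∑ n ∈ Finset.range U.card, (((n / r.mu ρ : ℕ) : ℝ) + (wd d J (n / r.mu ρ) : ℝ))) -
        2 * ∑ n ∈ Finset.range U.card, Real.log ((n : ℝ) + 1) := by
    rw [Finset.sum_sub_distrib, ← Finset.sum_mul]
    ring
  have hmul := mul_le_mul_of_nonneg_left hw hm
  have hE : ∑ x ∈ U, ∑ y ∈ U.erase x, vp p ((x : ℚ) - y) = EnP p U := rfl
  rw [hsum, hE] at hen
  linarith

/-- `EnP p T ≥ ∑_ρ EnP p (cls p T ρ)` over the classes `ρ ∈ T.image (·)` (all terms `vp ≥ 0` for integers);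
for each class `en_ge` with `φ n = (n / μ + wd d J (n / μ)) m - log (n + 1)` (`refine_p`), `wd_sum_class`.
With `t = T.card`, `z = 1 / d ^ J`: `EnP p T ≥ m (d - z) / (d - 1) ∑ t_ρ ^ 2 / μ_ρ - m (4 J + 6) t - 2 t log t`
(`∑ t_ρ = t`, `t_ρ ≤ t`). -/
theorem EnP_ge (f : PM S a d) (hd : 2 ≤ d) {p : ℕ} [Fact p.Prime] (r : Red f.F p)
    (hα : padicValRat p f.F.leadingCoeff < 0) (J : ℕ) {T : Finset ℤ}
    (hT : T ⊆ Dm S a f.ph (J + 1)) :
    mP p f.F * (((d : ℝ) - 1 / (d : ℝ) ^ J) / ((d : ℝ) - 1) *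
      ∑ ρ ∈ T.image (fun x : ℤ => (x : ZMod p)), ((cls p T ρ).card : ℝ) ^ 2 / (r.mu ρ : ℝ)
        - (4 * J + 6) * T.card) - 2 * T.card * Real.log T.card ≤ EnP p T := by
  classical
  have h1 := P4a_split p T
  have h2 : ∑ ρ ∈ T.image (fun x : ℤ => (x : ZMod p)),
      (mP p f.F * (((d : ℝ) - 1 / (d : ℝ) ^ J) / ((d : ℝ) - 1) *
        (((cls p T ρ).card : ℝ) ^ 2 / (r.mu ρ : ℝ)) - (4 * J + 6) * (cls p T ρ).card)
          - 2 * (cls p T ρ).card * Real.log (cls p T ρ).card) ≤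
      ∑ ρ ∈ T.image (fun x : ℤ => (x : ZMod p)), EnP p (cls p T ρ) :=
    Finset.sum_le_sum fun ρ hρ => P4a_class f hd r hα J hT hρ
  have hcard : ∑ ρ ∈ T.image (fun x : ℤ => (x : ZMod p)), ((cls p T ρ).card : ℝ) = (T.card : ℝ) := by
    have := Finset.card_eq_sum_card_image (fun x : ℤ => (x : ZMod p)) T
    have h3 : (T.card : ℝ) = ((∑ ρ ∈ T.image (fun x : ℤ => (x : ZMod p)), (T.filter (fun x : ℤ => (x : ZMod p) = ρ)).card : ℕ) : ℝ) := by
      rw [← this]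
    rw [h3]
    push_cast
    rfl
  have hlog : ∑ ρ ∈ T.image (fun x : ℤ => (x : ZMod p)), 2 * ((cls p T ρ).card : ℝ) * Real.log (cls p T ρ).card ≤
      2 * T.card * Real.log T.card := by
    calc ∑ ρ ∈ T.image (fun x : ℤ => (x : ZMod p)), 2 * ((cls p T ρ).card : ℝ) * Real.log (cls p T ρ).card
        ≤ ∑ ρ ∈ T.image (fun x : ℤ => (x : ZMod p)), 2 * ((cls p T ρ).card : ℝ) * Real.log T.card := by
          refine Finset.sum_le_sum fun ρ hρ => ?_
          apply mul_le_mul_of_nonneg_left _ (by positivity)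
          have hle : (cls p T ρ).card ≤ T.card := Finset.card_le_card (Finset.filter_subset _ _)
          obtain ⟨x0, hx0T, hx0⟩ := Finset.mem_image.1 hρ
          have hpos : 0 < (cls p T ρ).card := Finset.card_pos.2 ⟨x0, Finset.mem_filter.2 ⟨hx0T, hx0⟩⟩
          apply Real.log_le_log
          · exact_mod_cast hpos
          · exact_mod_cast hle
      _ = 2 * T.card * Real.log T.card := by
          rw [← Finset.sum_mul, ← Finset.mul_sum, hcard]
  have h4 : ∑ ρ ∈ T.image (fun x : ℤ => (x : ZMod p)),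
      (mP p f.F * (((d : ℝ) - 1 / (d : ℝ) ^ J) / ((d : ℝ) - 1) *
        (((cls p T ρ).card : ℝ) ^ 2 / (r.mu ρ : ℝ)) - (4 * J + 6) * (cls p T ρ).card)
          - 2 * (cls p T ρ).card * Real.log (cls p T ρ).card) =
      mP p f.F * (((d : ℝ) - 1 / (d : ℝ) ^ J) / ((d : ℝ) - 1) *
      ∑ ρ ∈ T.image (fun x : ℤ => (x : ZMod p)), ((cls p T ρ).card : ℝ) ^ 2 / (r.mu ρ : ℝ)
        - (4 * J + 6) * T.card) -
      ∑ ρ ∈ T.image (fun x : ℤ => (x : ZMod p)), 2 * ((cls p T ρ).card : ℝ) * Real.log (cls p T ρ).card := by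
    rw [Finset.sum_sub_distrib, ← Finset.mul_sum, Finset.sum_sub_distrib, ← Finset.mul_sum, ← Finset.mul_sum, hcard]
  rw [h4] at h2
  linarith

end F0744C
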