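import Pool.Agent.Lib.MP_f0744f_nt.C.Defs

/-! # Row R0: near roots, representatives, a window without distances -/

set_option autoImplicit false

open Polynomial

namespace F0744C

theorem R0_norm_prod (s : Multiset ℂ) (x : ℂ) :
    ‖(s.map (fun z => x - z)).prod‖ = (s.map (fun z => ‖x - z‖)).prod := by
  induction s using Multiset.induction_on with
  | empty => simp
  | cons a s ih => simp [ih]

theorem R0_prod_ge (s : Multiset ℂ) (x : ℂ) {ρ : ℝ} (h0 : 0 ≤ ρ)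
    (h : ∀ z ∈ s, ρ < ‖x - z‖) : ρ ^ s.card ≤ (s.map (fun z => ‖x - z‖)).prod := by
  induction s using Multiset.induction_on with
  | empty => simp
  | cons a s ih =>
    rw [Multiset.map_cons, Multiset.prod_cons, Multiset.card_cons, pow_succ, mul_comm]
    exact mul_le_mul (h a (Multiset.mem_cons_self a s)).le
      (ih (fun z hz => h z (Multiset.mem_cons_of_mem hz))) (pow_nonneg h0 _) (norm_nonneg _)

theorem R0_prod_lt (s : Multiset ℂ) (x : ℂ) {ρ : ℝ} (h0 : 0 ≤ ρ) (hs : 1 ≤ s.card)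
    (h : ∀ z ∈ s, ρ < ‖x - z‖) : ρ ^ s.card < (s.map (fun z => ‖x - z‖)).prod := by
  obtain ⟨a, ha⟩ := Multiset.card_pos_iff_exists_mem.mp (by omega : 0 < s.card)
  obtain ⟨t, rfl⟩ := Multiset.exists_cons_of_mem ha
  rw [Multiset.map_cons, Multiset.prod_cons, Multiset.card_cons, pow_succ, mul_comm]
  have h1 : ρ ^ t.card ≤ (t.map (fun z => ‖x - z‖)).prod :=
    R0_prod_ge t x h0 (fun z hz => h z (Multiset.mem_cons_of_mem hz))
  have h2 : ρ < ‖x - a‖ := h a (Multiset.mem_cons_self a t)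
  have h3 : 0 < (t.map (fun z => ‖x - z‖)).prod := by
    apply Multiset.prod_pos
    intro y hy
    rw [Multiset.mem_map] at hy
    obtain ⟨z, hz, rfl⟩ := hy
    exact lt_of_le_of_lt h0 (h z (Multiset.mem_cons_of_mem hz))
  calc ρ * ρ ^ t.card ≤ ρ * (t.map (fun z => ‖x - z‖)).prod := mul_le_mul_of_nonneg_left h1 h0
    _ < ‖x - a‖ * (t.map (fun z => ‖x - z‖)).prod := mul_lt_mul_of_pos_right h2 h3

/-- `F = C α ∏ (X - z)` over the roots (`IsAlgClosed.splits`, `Splits.eq_prod_roots` /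
`eval_eq_prod_roots...`), so `‖F (x)‖ = ‖α‖ ∏ ‖x - z‖`. If all factors were `> ρ`, the product would be
`> ρ ^ d` (`d ≥ 1`, `α ≠ 0`). -/
theorem exists_near_root {F : ℂ[X]} (hF : 1 ≤ F.natDegree) {x : ℂ} {ρ : ℝ} (h0 : 0 ≤ ρ)
    (h : ‖F.eval x‖ ≤ ‖F.leadingCoeff‖ * ρ ^ F.natDegree) : ∃ z ∈ F.roots, ‖x - z‖ ≤ ρ := by
  classical
  by_contra hcon
  push Not at hcon
  have hsp : F.Splits := IsAlgClosed.splits F
  have hF0 : F ≠ 0 := by
    intro h0
    rw [h0] at hF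
    simp at hF
  have hcard : F.roots.card = F.natDegree := hsp.natDegree_eq_card_roots.symm
  have hlc : 0 < ‖F.leadingCoeff‖ := by
    rw [norm_pos_iff]
    exact leadingCoeff_ne_zero.mpr hF0
  have hev : ‖F.eval x‖ = ‖F.leadingCoeff‖ * (F.roots.map (fun z => ‖x - z‖)).prod := by
    rw [hsp.eval_eq_prod_roots x, norm_mul]
    congr 1
    exact R0_norm_prod F.roots x
  have hlt : ρ ^ F.roots.card < (F.roots.map (fun z => ‖x - z‖)).prod :=
    R0_prod_lt F.roots x h0 (by rw [hcard]; exact hF) hcon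
  rw [hcard] at hlt
  rw [hev] at h
  have := mul_lt_mul_of_pos_left hlt hlc
  linarith

/-- Take `C ⊆ Z` of maximal cardinality with pairwise distances `≥ ρ2` (`Finset.exists_max_image` over the
filtered powerset). A `z ∈ Z` with `‖z - c‖ > ρ1` for all `c ∈ C` has `‖z - c‖ ≥ ρ2` for all `c ∈ C` and could be
added (`ρ1 ≥ 0`, so `z ∉ C`). -/
theorem exists_reps (Z : Finset ℂ) {ρ1 ρ2 : ℝ} (h0 : 0 ≤ ρ1)
    (h : ∀ z ∈ Z, ∀ w ∈ Z, ‖z - w‖ ≤ ρ1 ∨ ρ2 ≤ ‖z - w‖) :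
    ∃ C ⊆ Z, (∀ z ∈ Z, ∃ c ∈ C, ‖z - c‖ ≤ ρ1) ∧
      ∀ c ∈ C, ∀ c' ∈ C, c ≠ c' → ρ2 ≤ ‖c - c'‖ := by
  classical
  set P : Finset (Finset ℂ) := Z.powerset.filter
    (fun C => ∀ c ∈ C, ∀ c' ∈ C, c ≠ c' → ρ2 ≤ ‖c - c'‖) with hP
  have hne : P.Nonempty := by
    refine ⟨∅, ?_⟩
    rw [hP, Finset.mem_filter]
    exact ⟨Finset.empty_mem_powerset Z, fun c hc => absurd hc (Finset.notMem_empty c)⟩
  obtain ⟨C, hC, hmax⟩ := Finset.exists_max_image P Finset.card hne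
  rw [hP, Finset.mem_filter, Finset.mem_powerset] at hC
  refine ⟨C, hC.1, ?_, hC.2⟩
  intro z hz
  by_contra hcon
  push Not at hcon
  have hzC : z ∉ C := by
    intro hm
    have := hcon z hm
    rw [sub_self, norm_zero] at this
    linarith
  have hfar : ∀ c ∈ C, ρ2 ≤ ‖z - c‖ := by
    intro c hc
    rcases h z hz c (hC.1 hc) with h1 | h1
    · exact absurd h1 (not_le.mpr (hcon c hc))
    · exact h1
  have hmem : insert z C ∈ P := by
    rw [hP, Finset.mem_filter, Finset.mem_powerset]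
    refine ⟨Finset.insert_subset hz hC.1, ?_⟩
    intro c hc c' hc' hne'
    rw [Finset.mem_insert] at hc hc'
    rcases hc with rfl | hc
    · rcases hc' with rfl | hc'
      · exact absurd rfl hne'
      · exact hfar c' hc'
    · rcases hc' with rfl | hc'
      · rw [norm_sub_rev]
        exact hfar c hc
      · exact hC.2 c hc c' hc' hne'
  have h1 := hmax _ hmem
  rw [Finset.card_insert_of_notMem hzC] at h1
  omega

/-- The open intervals `(exp ((1 - κ (k + 1)) Λ), exp ((1 - κ k) Λ))`, `k = 0, …, Z.card ^ 2`, are disjoint. If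
each of them contained a distance of a pair in `Z ×ˢ Z`, a choice of such pairs would be an injection of
`Finset.range (Z.card ^ 2 + 1)` into `Z ×ˢ Z` (`Finset.exists_ne_map_eq_of_card_lt_of_maps_to`). -/
theorem exists_window (Z : Finset ℂ) {κ Λ : ℝ} (hκ : 0 < κ) (hΛ : 0 < Λ) :
    ∃ k : ℕ, k ≤ Z.card ^ 2 ∧ ∀ z ∈ Z, ∀ w ∈ Z,
      ‖z - w‖ ≤ Real.exp ((1 - κ * (k + 1)) * Λ) ∨ Real.exp ((1 - κ * k) * Λ) ≤ ‖z - w‖ := by
  classical
  by_contra hcon
  push Not at hcon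
  have hcon' : ∀ k : ℕ, k ≤ Z.card ^ 2 → ∃ q : ℂ × ℂ, q ∈ Z ×ˢ Z ∧
      Real.exp ((1 - κ * (k + 1)) * Λ) < ‖q.1 - q.2‖ ∧ ‖q.1 - q.2‖ < Real.exp ((1 - κ * k) * Λ) := by
    intro k hk
    obtain ⟨z, hz, w, hw, h1, h2⟩ := hcon k hk
    exact ⟨(z, w), Finset.mem_product.mpr ⟨hz, hw⟩, h1, h2⟩
  choose! g hg using hcon'
  have hlt : (Z ×ˢ Z).card < (Finset.range (Z.card ^ 2 + 1)).card := by
    rw [Finset.card_product, Finset.card_range, sq]
    omega
  have hmaps : ∀ k ∈ Finset.range (Z.card ^ 2 + 1), g k ∈ Z ×ˢ Z := by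
    intro k hk
    rw [Finset.mem_range] at hk
    exact (hg k (by omega)).1
  obtain ⟨i, hi, j, hj, hij, hgij⟩ := Finset.exists_ne_map_eq_of_card_lt_of_maps_to hlt hmaps
  rw [Finset.mem_range] at hi hj
  have key : ∀ a b : ℕ, a < b → a ≤ Z.card ^ 2 → b ≤ Z.card ^ 2 → g a = g b → False := by
    intro a b hab ha hb he
    obtain ⟨_, h1, _⟩ := hg a ha
    obtain ⟨_, _, h4⟩ := hg b hb
    rw [← he] at h4
    have h5 := h1.trans h4
    rw [Real.exp_lt_exp] at h5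
    have h6 : (1 - κ * b) * Λ ≤ (1 - κ * (a + 1)) * Λ := by
      apply mul_le_mul_of_nonneg_right _ hΛ.le
      have h7 : ((a : ℝ) + 1) ≤ b := by exact_mod_cast hab
      have h8 := mul_le_mul_of_nonneg_left h7 hκ.le
      linarith
    linarith
  rcases lt_or_gt_of_ne hij with h1 | h1
  · exact key i j h1 (by omega) (by omega) hgij
  · exact key j i h1 (by omega) (by omega) hgij.symm

end F0744C
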