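import Pool.Agent.Lib.MP_f0744f_nt.C.R2b

/-! # Row R2: the near factor of `F - s` -/

set_option autoImplicit false

open Polynomial

namespace F0744C

theorem R2_prod_ge (M : Multiset ℝ) (a : ℝ) (ha : 0 ≤ a) (h : ∀ z ∈ M, a ≤ z) :
    a ^ Multiset.card M ≤ M.prod := by
  induction M using Multiset.induction_on with
  | empty => simp
  | cons z M ih =>
    rw [Multiset.card_cons, Multiset.prod_cons, pow_succ, mul_comm]
    have h1 : a ^ Multiset.card M ≤ M.prod := ih (fun w hw => h w (Multiset.mem_cons_of_mem hw))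
    have h2 : a ≤ z := h z (Multiset.mem_cons_self z M)
    exact mul_le_mul h2 h1 (pow_nonneg ha _) (ha.trans h2)

/-- `P = ∏ (X - z)` over the roots `z` of `G = F - C s` with `‖z - c‖ ≤ 2 ρ1` (a filtered multiset); its degree is
`near G c (2 ρ1) = near F c ρ1` (`near_shift`). `‖G (x)‖ = ‖α‖ ‖P (x)‖ ∏ ‖x - z‖` over the other `d - near` roots,
which have `‖z - c‖ ≥ ρ2 - ρ1` (`near_roots`), so `‖x - z‖ ≥ ρ2 - 3 ρ1 ≥ ρ2 / 2`. -/
theorem near_factor {F : ℂ[X]} {d : ℕ} (hd : F.natDegree = d) (h1 : 1 ≤ d) {c s : ℂ} {ρ1 ρ2 : ℝ}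
    (h0 : 0 < ρ1) (h12 : 16 ^ (d + 2) * ρ1 ≤ ρ2)
    (hr : ∀ z ∈ F.roots, ‖z - c‖ ≤ ρ1 ∨ ρ2 ≤ ‖z - c‖)
    (hs : ‖s‖ ≤ ‖F.leadingCoeff‖ * ρ1 ^ d) :
    ∃ P : ℂ[X], P.Monic ∧ P.natDegree = near F c ρ1 ∧ ∀ x : ℂ, ‖x - c‖ ≤ 2 * ρ1 →
      ‖F.leadingCoeff‖ * (ρ2 / 2) ^ (d - near F c ρ1) * ‖P.eval x‖ ≤ ‖F.eval x - s‖ := by
  classical
  obtain ⟨G, hG⟩ : ∃ G : ℂ[X], G = F - C s := ⟨_, rfl⟩
  have hGd : G.natDegree = d := by rw [hG, natDegree_sub_C, hd]
  have hGl : G.leadingCoeff = F.leadingCoeff := by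
    rw [hG]
    exact leadingCoeff_sub_of_degree_lt (lt_of_le_of_lt degree_C_le (natDegree_pos_iff_degree_pos.1 (by omega)))
  have hshift : near G c (2 * ρ1) = near F c ρ1 := by
    rw [hG]
    exact near_shift hd h1 h0 h12 hr hs
  have hroots : ∀ z ∈ G.roots, ‖z - c‖ ≤ 2 * ρ1 ∨ ρ2 - ρ1 ≤ ‖z - c‖ := by
    rw [hG]
    exact near_roots hd h1 h0 hr hs
  have hsp : G.Splits := IsAlgClosed.splits G
  have hcard : Multiset.card G.roots = d := by
    rw [← hGd]
    exact (splits_iff_card_roots.1 hsp)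
  obtain ⟨N, hN⟩ : ∃ N : Multiset ℂ, N = G.roots.filter (fun z => ‖z - c‖ ≤ 2 * ρ1) := ⟨_, rfl⟩
  obtain ⟨R, hR⟩ : ∃ R : Multiset ℂ, R = G.roots.filter (fun z => ¬ ‖z - c‖ ≤ 2 * ρ1) := ⟨_, rfl⟩
  have hNR : N + R = G.roots := by rw [hN, hR]; exact Multiset.filter_add_not _ _
  have hNc : Multiset.card N = near F c ρ1 := by
    rw [← hshift, hN, near, Multiset.countP_eq_card_filter]
  have hRc : Multiset.card R = d - near F c ρ1 := by
    rw [← hNc, ← hcard, ← hNR, Multiset.card_add]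
    omega
  have h256 : 256 * ρ1 ≤ ρ2 := by
    have e1 : (256 : ℝ) ≤ 16 ^ (d + 2) := by
      have e2 : (16 : ℝ) ^ 2 ≤ 16 ^ (d + 2) := pow_le_pow_right₀ (by norm_num) (by omega)
      linarith
    have := mul_le_mul_of_nonneg_right e1 h0.le
    linarith
  refine ⟨(N.map (fun z => X - C z)).prod, ?_, ?_, ?_⟩
  · exact monic_multiset_prod_of_monic _ _ (fun z _ => monic_X_sub_C z)
  · rw [natDegree_multiset_prod_X_sub_C_eq_card, hNc]
  · intro x hx
    have hev : F.eval x - s = G.eval x := by rw [hG]; simp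
    have hprod : G.eval x = F.leadingCoeff * ((N.map (fun z => x - z)).prod * (R.map (fun z => x - z)).prod) := by
      have e1 := hsp.eq_prod_roots
      rw [← Multiset.prod_add, ← Multiset.map_add, hNR, ← hGl]
      conv_lhs => rw [e1]
      rw [eval_mul, eval_C, eval_multiset_prod, Multiset.map_map]
      simp
    have hNe : ((N.map (fun z => X - C z)).prod).eval x = (N.map (fun z => x - z)).prod := by
      rw [eval_multiset_prod, Multiset.map_map]
      simp
    have hRn : (ρ2 / 2) ^ (d - near F c ρ1) ≤ ‖(R.map (fun z => x - z)).prod‖ := by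
      have e1 : ‖(R.map (fun z => x - z)).prod‖ = (R.map (fun z => ‖x - z‖)).prod := by
        have := map_multiset_prod (normHom : ℂ →*₀ ℝ) (R.map (fun z => x - z))
        rw [Multiset.map_map] at this
        exact this
      rw [e1, ← hRc]
      have e2 := R2_prod_ge (R.map (fun z => ‖x - z‖)) (ρ2 / 2) (by linarith) (by
        intro w hw
        obtain ⟨z, hz, rfl⟩ := Multiset.mem_map.1 hw
        rw [hR, Multiset.mem_filter] at hz
        have e3 : ρ2 - ρ1 ≤ ‖z - c‖ := by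
          rcases hroots z hz.1 with h | h
          · exact absurd h hz.2
          · exact h
        have e4 : ‖z - c‖ ≤ ‖x - z‖ + ‖x - c‖ := by
          have : z - c = -(x - z) + (x - c) := by ring
          rw [this]
          calc ‖-(x - z) + (x - c)‖ ≤ ‖-(x - z)‖ + ‖x - c‖ := norm_add_le _ _
            _ = ‖x - z‖ + ‖x - c‖ := by rw [norm_neg]
        linarith)
      rwa [Multiset.card_map] at e2
    rw [hev, hprod, hNe, norm_mul, norm_mul]
    calc ‖F.leadingCoeff‖ * (ρ2 / 2) ^ (d - near F c ρ1) * ‖(N.map (fun z => x - z)).prod‖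
        ≤ ‖F.leadingCoeff‖ * ‖(R.map (fun z => x - z)).prod‖ * ‖(N.map (fun z => x - z)).prod‖ := by gcongr
      _ = _ := by ring

end F0744C
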