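import Pool.Agent.Lib.MP_f0744f_nt.C.Defs

/-! # Row R2a: a polynomial on a circle -/

set_option autoImplicit false

open Polynomial

namespace F0744C

open Classical in
/-- the number of roots of `P` (with multiplicity) in the disc of radius `r` about `c` -/
noncomputable def near (P : ℂ[X]) (c : ℂ) (r : ℝ) : ℕ := P.roots.countP (fun z => ‖z - c‖ ≤ r)

open Classical in
/-- the product of the distances to `c` of the other roots -/
noncomputable def far (P : ℂ[X]) (c : ℂ) (r : ℝ) : ℝ :=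
  ((P.roots.filter (fun z => ¬ ‖z - c‖ ≤ r)).map (fun z => ‖z - c‖)).prod

theorem cnt_eq (F : ℚ[X]) (c : ℂ) (r : ℝ) : cnt F c r = near (F.map (algebraMap ℚ ℂ)) c r := rfl

/-- `Multiset.countP_le_card`, `Polynomial.card_roots'`. -/
theorem near_le (P : ℂ[X]) (c : ℂ) (r : ℝ) : near P c r ≤ P.natDegree := by
  classical
  unfold near
  exact (Multiset.countP_le_card _ _).trans (Polynomial.card_roots' P)

theorem R2a_prod (t : Multiset ℂ) (f : ℂ → ℝ) (g : ℂ → ℝ) (k : ℝ) (hk : 0 ≤ k)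
    (h : ∀ z ∈ t, 0 ≤ g z ∧ k * g z ≤ f z) :
    k ^ (Multiset.card t) * (t.map g).prod ≤ (t.map f).prod := by
  have e : k ^ (Multiset.card t) * (t.map g).prod = (t.map (fun z => k * g z)).prod := by
    rw [Multiset.prod_map_mul, Multiset.map_const', Multiset.prod_replicate]
  rw [e]
  exact Multiset.prod_map_le_prod_map₀ _ _ (fun z hz => mul_nonneg hk (h z hz).1)
    (fun z hz => (h z hz).2)

theorem R2a_prod' (t : Multiset ℂ) (f : ℂ → ℝ) (g : ℂ → ℝ) (k : ℝ)
    (h : ∀ z ∈ t, 0 ≤ f z ∧ f z ≤ k * g z) :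
    (t.map f).prod ≤ k ^ (Multiset.card t) * (t.map g).prod := by
  have e : k ^ (Multiset.card t) * (t.map g).prod = (t.map (fun z => k * g z)).prod := by
    rw [Multiset.prod_map_mul, Multiset.map_const', Multiset.prod_replicate]
  rw [e]
  exact Multiset.prod_map_le_prod_map₀ _ _ (fun z hz => (h z hz).1) (fun z hz => (h z hz).2)

/-- `‖P (x)‖ = ‖α‖ ∏ ‖x - z‖` over the `P.natDegree` roots (`IsAlgClosed.splits`). For a root with
`‖z - c‖ ≤ r ≤ ‖x - c‖ / 2` the factor is between `‖x - c‖ / 2` and `3 ‖x - c‖ / 2`, for the others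
(`‖z - c‖ ≥ R ≥ 4 ‖x - c‖`) it is between `3 / 4 ‖z - c‖` and `5 / 4 ‖z - c‖`. Split the product with
`Multiset.filter_add_not`. -/
theorem circle_bounds (P : ℂ[X]) {c x : ℂ} {r R : ℝ} (h0 : 0 < r)
    (hr : ∀ z ∈ P.roots, ‖z - c‖ ≤ r ∨ R ≤ ‖z - c‖) (h1 : 2 * r ≤ ‖x - c‖)
    (h2 : 4 * ‖x - c‖ ≤ R) :
    ‖P.leadingCoeff‖ * (‖x - c‖ / 2) ^ near P c r * (3 / 4) ^ (P.natDegree - near P c r) * far P c r
      ≤ ‖P.eval x‖ ∧
    ‖P.eval x‖ ≤ ‖P.leadingCoeff‖ * (3 * ‖x - c‖ / 2) ^ near P c r *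
      (5 / 4) ^ (P.natDegree - near P c r) * far P c r := by
  classical
  have hsp : P.Splits := IsAlgClosed.splits P
  have hcard : Multiset.card P.roots = P.natDegree := hsp.natDegree_eq_card_roots.symm
  set A : Multiset ℂ := P.roots.filter (fun z => ‖z - c‖ ≤ r) with hA
  set B : Multiset ℂ := P.roots.filter (fun z => ¬ ‖z - c‖ ≤ r) with hB
  have hAB : A + B = P.roots := Multiset.filter_add_not _ _
  have hcA : Multiset.card A = near P c r := by
    unfold near
    rw [Multiset.countP_eq_card_filter]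
  have hcB : Multiset.card B = P.natDegree - near P c r := by
    have := congrArg Multiset.card hAB
    rw [Multiset.card_add, hcard, hcA] at this
    omega
  have hev : ‖P.eval x‖ = ‖P.leadingCoeff‖ * ((A.map (fun z => ‖x - z‖)).prod *
      (B.map (fun z => ‖x - z‖)).prod) := by
    have h3 := hsp.eval_eq_prod_roots x
    rw [h3, norm_mul, ← Multiset.prod_add, ← Multiset.map_add, hAB]
    congr 1
    have h4 := map_multiset_prod (normHom : ℂ →*₀ ℝ) (P.roots.map (fun z => x - z))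
    rw [Multiset.map_map] at h4
    exact h4
  have htri : ∀ z : ℂ, ‖x - z‖ ≤ ‖x - c‖ + ‖z - c‖ := by
    intro z
    calc ‖x - z‖ = ‖(x - c) - (z - c)‖ := by congr 1; ring
      _ ≤ _ := norm_sub_le _ _
  have htri2 : ∀ z : ℂ, ‖x - c‖ - ‖z - c‖ ≤ ‖x - z‖ := by
    intro z
    calc ‖x - c‖ - ‖z - c‖ ≤ ‖(x - c) - (z - c)‖ := norm_sub_norm_le _ _
      _ = ‖x - z‖ := by congr 1; ring
  have htri3 : ∀ z : ℂ, ‖z - c‖ - ‖x - c‖ ≤ ‖x - z‖ := by
    intro z
    calc ‖z - c‖ - ‖x - c‖ ≤ ‖(z - c) - (x - c)‖ := norm_sub_norm_le _ _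
      _ = ‖x - z‖ := by rw [← norm_neg]; congr 1; ring
  have hxc : 0 ≤ ‖x - c‖ := norm_nonneg _
  have hAr : ∀ z ∈ A, ‖z - c‖ ≤ r := fun z hz => (Multiset.mem_filter.mp hz).2
  have hBr : ∀ z ∈ B, R ≤ ‖z - c‖ := by
    intro z hz
    obtain ⟨h3, h4⟩ := Multiset.mem_filter.mp hz
    exact (hr z h3).resolve_left h4
  have hAl : (‖x - c‖ / 2) ^ near P c r ≤ (A.map (fun z => ‖x - z‖)).prod := by
    have := R2a_prod A (fun z => ‖x - z‖) (fun _ => 1) (‖x - c‖ / 2) (by positivity) (by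
      intro z hz
      refine ⟨zero_le_one, ?_⟩
      have h3 := hAr z hz
      have h4 := htri2 z
      simp only [mul_one]
      linarith)
    rw [hcA] at this
    simpa using this
  have hAu : (A.map (fun z => ‖x - z‖)).prod ≤ (3 * ‖x - c‖ / 2) ^ near P c r := by
    have := R2a_prod' A (fun z => ‖x - z‖) (fun _ => 1) (3 * ‖x - c‖ / 2) (by
      intro z hz
      refine ⟨norm_nonneg _, ?_⟩
      have h3 := hAr z hz
      have h4 := htri z
      simp only [mul_one]
      linarith)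
    rw [hcA] at this
    simpa using this
  have hBl : (3 / 4 : ℝ) ^ (P.natDegree - near P c r) * far P c r ≤
      (B.map (fun z => ‖x - z‖)).prod := by
    have := R2a_prod B (fun z => ‖x - z‖) (fun z => ‖z - c‖) (3 / 4) (by norm_num) (by
      intro z hz
      refine ⟨norm_nonneg _, ?_⟩
      have h3 := hBr z hz
      have h4 := htri3 z
      linarith)
    rw [hcB] at this
    exact this
  have hBu : (B.map (fun z => ‖x - z‖)).prod ≤
      (5 / 4 : ℝ) ^ (P.natDegree - near P c r) * far P c r := by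
    have := R2a_prod' B (fun z => ‖x - z‖) (fun z => ‖z - c‖) (5 / 4) (by
      intro z hz
      refine ⟨norm_nonneg _, ?_⟩
      have h3 := hBr z hz
      have h4 := htri z
      linarith)
    rw [hcB] at this
    exact this
  have hfar : 0 ≤ far P c r := by
    unfold far
    refine Multiset.prod_map_nonneg ?_
    intro z _
    exact norm_nonneg _
  have hA0 : 0 ≤ (A.map (fun z => ‖x - z‖)).prod :=
    Multiset.prod_map_nonneg (fun z _ => norm_nonneg _)
  have hl0 : 0 ≤ ‖P.leadingCoeff‖ := norm_nonneg _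
  rw [hev]
  constructor
  · rw [mul_assoc, mul_assoc]
    refine mul_le_mul_of_nonneg_left ?_ hl0
    exact mul_le_mul hAl hBl (mul_nonneg (by positivity) hfar) hA0
  · rw [mul_assoc, mul_assoc]
    refine mul_le_mul_of_nonneg_left ?_ hl0
    refine mul_le_mul hAu hBu ?_ (by positivity)
    exact Multiset.prod_map_nonneg (fun z _ => norm_nonneg _)

end F0744C
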