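import Pool.Agent.Lib.MP_f0744f_nt.C.R0
import Pool.Agent.Lib.MP_f0744f_nt.C.R2a

/-! # Row R2b: the number of near roots of `F - s` -/

set_option autoImplicit false

open Polynomial

namespace F0744C

/-- A root `z` of `F - s` has `‖F (z)‖ = ‖s‖ ≤ ‖α‖ ρ1 ^ d`, so it is within `ρ1` of a root of `F`
(`exists_near_root`). -/
theorem near_roots {F : ℂ[X]} {d : ℕ} (hd : F.natDegree = d) (h1 : 1 ≤ d) {c s : ℂ} {ρ1 ρ2 : ℝ}
    (h0 : 0 < ρ1) (hr : ∀ z ∈ F.roots, ‖z - c‖ ≤ ρ1 ∨ ρ2 ≤ ‖z - c‖)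
    (hs : ‖s‖ ≤ ‖F.leadingCoeff‖ * ρ1 ^ d) :
    ∀ z ∈ (F - C s).roots, ‖z - c‖ ≤ 2 * ρ1 ∨ ρ2 - ρ1 ≤ ‖z - c‖ := by
  intro z hz
  have hz1 : F.eval z = s := by
    have := (Polynomial.mem_roots'.1 hz).2
    rw [IsRoot.def, eval_sub, eval_C, sub_eq_zero] at this
    exact this
  obtain ⟨w, hw, hzw⟩ := exists_near_root (F := F) (x := z) (ρ := ρ1) (by omega) h0.le
    (by rw [hz1, hd]; exact hs)
  rcases hr w hw with h | h
  · left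
    calc ‖z - c‖ = ‖(z - w) + (w - c)‖ := by ring_nf
      _ ≤ ‖z - w‖ + ‖w - c‖ := norm_add_le _ _
      _ ≤ 2 * ρ1 := by linarith
  · right
    have : ‖w - c‖ ≤ ‖z - w‖ + ‖z - c‖ := by
      calc ‖w - c‖ = ‖(z - c) - (z - w)‖ := by ring_nf
        _ ≤ ‖z - c‖ + ‖z - w‖ := norm_sub_le _ _
        _ = _ := by ring
    linarith

theorem R2b_far_nonneg (P : ℂ[X]) (c : ℂ) (r : ℝ) : 0 ≤ far P c r := by
  unfold far
  apply Multiset.prod_nonneg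
  intro a ha
  obtain ⟨z, _, rfl⟩ := Multiset.mem_map.1 ha
  exact norm_nonneg _

theorem R2b_ratio (P : ℂ[X]) {c x x' : ℂ} {r R : ℝ} (h0 : 0 < r)
    (hr : ∀ z ∈ P.roots, ‖z - c‖ ≤ r ∨ R ≤ ‖z - c‖) (h1 : 2 * r ≤ ‖x - c‖)
    (h2 : 4 * ‖x - c‖ ≤ R) (h1' : 2 * r ≤ ‖x' - c‖) (h2' : 4 * ‖x' - c‖ ≤ R) :
    ‖P.eval x'‖ * ‖x - c‖ ^ near P c r ≤
      3 ^ P.natDegree * ‖x' - c‖ ^ near P c r * ‖P.eval x‖ := by
  obtain ⟨b1, -⟩ := circle_bounds P h0 hr h1 h2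
  obtain ⟨-, b2⟩ := circle_bounds P h0 hr h1' h2'
  have hf := R2b_far_nonneg P c r
  have hl := near_le P c r
  obtain ⟨e, he⟩ := Nat.exists_eq_add_of_le hl
  have he' : P.natDegree - near P c r = e := by omega
  rw [he'] at b1 b2
  rw [he]
  generalize near P c r = a at *
  generalize far P c r = f at *
  have hu : 0 ≤ ‖x - c‖ := norm_nonneg _
  have hv : 0 ≤ ‖x' - c‖ := norm_nonneg _
  have hA : 0 ≤ ‖P.leadingCoeff‖ := norm_nonneg _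
  generalize ‖P.leadingCoeff‖ = A at *
  generalize ‖x - c‖ = u at *
  generalize ‖x' - c‖ = v at *
  have hk : (5 / 4 : ℝ) ^ e ≤ 3 ^ e * (3 / 4) ^ e := by
    rw [← mul_pow]
    exact pow_le_pow_left₀ (by norm_num) (by norm_num) e
  have hM : 0 ≤ A * f * (3 / 2) ^ a * v ^ a * u ^ a := by positivity
  calc ‖P.eval x'‖ * u ^ a ≤ (A * (3 * v / 2) ^ a * (5 / 4) ^ e * f) * u ^ a :=
        mul_le_mul_of_nonneg_right b2 (by positivity)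
    _ = A * f * (3 / 2) ^ a * v ^ a * u ^ a * (5 / 4) ^ e := by
        rw [show 3 * v / 2 = 3 / 2 * v by ring, mul_pow]
        ring
    _ ≤ A * f * (3 / 2) ^ a * v ^ a * u ^ a * (3 ^ e * (3 / 4) ^ e) :=
        mul_le_mul_of_nonneg_left hk hM
    _ = 3 ^ (a + e) * v ^ a * (A * (u / 2) ^ a * (3 / 4) ^ e * f) := by
        rw [show u / 2 = 1 / 2 * u by ring, mul_pow, show (3 / 2 : ℝ) = 3 * (1 / 2) by norm_num,
          mul_pow, pow_add]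
        ring
    _ ≤ 3 ^ (a + e) * v ^ a * ‖P.eval x‖ := mul_le_mul_of_nonneg_left b1 (by positivity)

theorem R2b_exp {u v : ℝ} {d a b : ℕ} (hu : 0 < u) (hv : 8 * 16 ^ d * u ≤ v) (hab : a < b)
    (h : v ^ b * u ^ a ≤ 3 * 9 ^ d * (u ^ b * v ^ a)) : False := by
  obtain ⟨k, rfl⟩ := Nat.exists_eq_add_of_lt hab
  have hv0 : 0 < v := lt_of_lt_of_le (by positivity) hv
  have h1 : v ^ (k + 1) ≤ 3 * 9 ^ d * u ^ (k + 1) := by
    have hp : 0 < v ^ a * u ^ a := by positivity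
    have e1 : v ^ (a + k + 1) * u ^ a = v ^ a * u ^ a * v ^ (k + 1) := by ring
    have e2 : 3 * 9 ^ d * (u ^ (a + k + 1) * v ^ a) = v ^ a * u ^ a * (3 * 9 ^ d * u ^ (k + 1)) := by
      ring
    rw [e1, e2] at h
    exact le_of_mul_le_mul_left h hp
  have h2 : (8 * 16 ^ d * u) ^ (k + 1) ≤ v ^ (k + 1) := pow_le_pow_left₀ (by positivity) hv _
  have h3 : (1 : ℝ) ≤ 8 * 16 ^ d := by
    have : (1 : ℝ) ≤ 16 ^ d := one_le_pow₀ (by norm_num)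
    linarith
  have h4 : (8 * 16 ^ d : ℝ) ≤ (8 * 16 ^ d) ^ (k + 1) := by
    calc (8 * 16 ^ d : ℝ) = (8 * 16 ^ d) ^ 1 := (pow_one _).symm
      _ ≤ _ := pow_le_pow_right₀ h3 (by omega)
  have h5 : (3 * 9 ^ d : ℝ) < 8 * 16 ^ d := by
    have : (9 : ℝ) ^ d ≤ 16 ^ d := pow_le_pow_left₀ (by norm_num) (by norm_num) d
    have : (0 : ℝ) < 16 ^ d := by positivity
    linarith
  have h6 : 0 < u ^ (k + 1) := by positivity
  rw [mul_pow] at h2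
  nlinarith [mul_le_mul_of_nonneg_right h4 h6.le, mul_lt_mul_of_pos_right h5 h6]

theorem R2b_lower {F : ℂ[X]} {d : ℕ} (hd : F.natDegree = d) (h1 : 1 ≤ d) {x s : ℂ} {ρ1 : ℝ}
    (h0 : 0 < ρ1) (hx : ∀ z ∈ F.roots, 2 * ρ1 < ‖x - z‖)
    (hs : ‖s‖ ≤ ‖F.leadingCoeff‖ * ρ1 ^ d) :
    0 < ‖F.eval x‖ ∧ ‖F.eval x‖ ≤ 2 * ‖(F - C s).eval x‖ ∧
      ‖(F - C s).eval x‖ ≤ 3 / 2 * ‖F.eval x‖ := by
  have h2 : ‖F.leadingCoeff‖ * (2 * ρ1) ^ F.natDegree < ‖F.eval x‖ := by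
    by_contra hcon
    obtain ⟨z, hz, hz2⟩ := exists_near_root (F := F) (x := x) (ρ := 2 * ρ1) (by omega)
      (by positivity) (not_lt.1 hcon)
    exact absurd hz2 (not_le.2 (hx z hz))
  have hlc : 0 ≤ ‖F.leadingCoeff‖ := norm_nonneg _
  have h3 : 2 * ‖s‖ ≤ ‖F.eval x‖ := by
    have h4 : (2 : ℝ) ≤ 2 ^ d := by
      calc (2 : ℝ) = 2 ^ 1 := by norm_num
        _ ≤ 2 ^ d := pow_le_pow_right₀ (by norm_num) h1
    have h5 : 2 * (‖F.leadingCoeff‖ * ρ1 ^ d) ≤ ‖F.leadingCoeff‖ * (2 * ρ1) ^ d := by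
      rw [mul_pow]
      have : 0 ≤ ‖F.leadingCoeff‖ * ρ1 ^ d := by positivity
      nlinarith
    rw [hd] at h2
    linarith
  have h6 : 0 < ‖F.eval x‖ := lt_of_le_of_lt (by positivity) h2
  have e : (F - C s).eval x = F.eval x - s := by rw [eval_sub, eval_C]
  rw [e]
  have h7 : ‖F.eval x‖ ≤ ‖F.eval x - s‖ + ‖s‖ := by
    calc ‖F.eval x‖ = ‖(F.eval x - s) + s‖ := by ring_nf
      _ ≤ _ := norm_add_le _ _
  have h8 : ‖F.eval x - s‖ ≤ ‖F.eval x‖ + ‖s‖ := norm_sub_le _ _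
  exact ⟨h6, by linarith, by linarith⟩

/-- Put `G = F - C s` (`natDegree G = d`, same leading coefficient), `u = 4 ρ1`, `v = ρ2 / 8`, `x₁ = c + u`,
`x₂ = c + v`, `a = near F c ρ1`, `a' = near G c (2 ρ1)`. `circle_bounds` for `F` (`r = ρ1`, `R = ρ2`) at `x₁, x₂`:
`‖F (x₂)‖ / ‖F (x₁)‖` is between `(v / u) ^ a / 3 ^ d` and `(v / u) ^ a * 3 ^ d` (the factors `far` cancel), and for
`G` (`r = 2 ρ1`, `R = ρ2 - ρ1`, `near_roots`) the same with `a'`. All roots of `F` have distance `≥ 3 ρ1` from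
`x₁` and `x₂`, so `‖F (x_i)‖ ≥ ‖α‖ (3 ρ1) ^ d ≥ 3 ‖s‖` and `2/3 ‖F (x_i)‖ ≤ ‖G (x_i)‖ ≤ 4/3 ‖F (x_i)‖`. So the two quotients differ
by a factor at most `2`, and `(v / u) ^ |a - a'| ≤ 2 * 9 ^ d`; but `v / u = ρ2 / (32 ρ1) ≥ 8 * 16 ^ d > 2 * 9 ^ d`. -/
theorem near_shift {F : ℂ[X]} {d : ℕ} (hd : F.natDegree = d) (h1 : 1 ≤ d) {c s : ℂ} {ρ1 ρ2 : ℝ}
    (h0 : 0 < ρ1) (h12 : 16 ^ (d + 2) * ρ1 ≤ ρ2)
    (hr : ∀ z ∈ F.roots, ‖z - c‖ ≤ ρ1 ∨ ρ2 ≤ ‖z - c‖)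
    (hs : ‖s‖ ≤ ‖F.leadingCoeff‖ * ρ1 ^ d) :
    near (F - C s) c (2 * ρ1) = near F c ρ1 := by
  have hG := near_roots hd h1 h0 hr hs
  have hdG : (F - C s).natDegree = d := by rw [natDegree_sub_C, hd]
  have h16 : (1 : ℝ) ≤ 16 ^ d := one_le_pow₀ (by norm_num)
  have h16' : 256 * ρ1 ≤ ρ2 := by
    rw [pow_add] at h12
    nlinarith
  obtain ⟨u, hu⟩ : ∃ u : ℝ, u = 4 * ρ1 := ⟨_, rfl⟩
  obtain ⟨v, hv⟩ : ∃ v : ℝ, v = ρ2 / 8 := ⟨_, rfl⟩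
  have hu0 : 0 < u := by rw [hu]; positivity
  have hv0 : 0 < v := by rw [hv]; linarith
  have hvu : 8 * 16 ^ d * u ≤ v := by
    rw [hu, hv]
    rw [pow_add] at h12
    linarith
  have n1 : ‖(c + (u : ℂ)) - c‖ = u := by
    rw [add_sub_cancel_left, Complex.norm_real, Real.norm_eq_abs, abs_of_pos hu0]
  have n2 : ‖(c + (v : ℂ)) - c‖ = v := by
    rw [add_sub_cancel_left, Complex.norm_real, Real.norm_eq_abs, abs_of_pos hv0]
  have hdist : ∀ x : ℂ, 3 * ρ1 < ‖x - c‖ → ‖x - c‖ + 3 * ρ1 ≤ ρ2 →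
      ∀ z ∈ F.roots, 2 * ρ1 < ‖x - z‖ := by
    intro x k1 k2 z hz
    rcases hr z hz with k | k
    · have : ‖x - c‖ ≤ ‖x - z‖ + ‖z - c‖ := by
        calc ‖x - c‖ = ‖(x - z) + (z - c)‖ := by ring_nf
          _ ≤ _ := norm_add_le _ _
      linarith
    · have : ‖z - c‖ ≤ ‖x - z‖ + ‖x - c‖ := by
        calc ‖z - c‖ = ‖(x - c) - (x - z)‖ := by ring_nf
          _ ≤ ‖x - c‖ + ‖x - z‖ := norm_sub_le _ _
          _ = _ := by ring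
      linarith
  obtain ⟨l1, l2, l3⟩ := R2b_lower hd h1 (x := c + (u : ℂ)) h0
    (hdist _ (by rw [n1]; linarith) (by rw [n1]; linarith)) hs
  obtain ⟨m1, m2, m3⟩ := R2b_lower hd h1 (x := c + (v : ℂ)) h0
    (hdist _ (by rw [n2]; linarith) (by rw [n2]; linarith)) hs
  have f1 := R2b_ratio F (x := c + (u : ℂ)) (x' := c + (v : ℂ)) h0 hr (by rw [n1]; linarith)
    (by rw [n1]; linarith) (by rw [n2]; linarith) (by rw [n2]; linarith)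
  have f2 := R2b_ratio F (x := c + (v : ℂ)) (x' := c + (u : ℂ)) h0 hr (by rw [n2]; linarith)
    (by rw [n2]; linarith) (by rw [n1]; linarith) (by rw [n1]; linarith)
  have g1 := R2b_ratio (F - C s) (x := c + (u : ℂ)) (x' := c + (v : ℂ)) (r := 2 * ρ1)
    (R := ρ2 - ρ1) (by linarith) hG (by rw [n1]; linarith)
    (by rw [n1]; linarith) (by rw [n2]; linarith) (by rw [n2]; linarith)
  have g2 := R2b_ratio (F - C s) (x := c + (v : ℂ)) (x' := c + (u : ℂ)) (r := 2 * ρ1)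
    (R := ρ2 - ρ1) (by linarith) hG (by rw [n2]; linarith)
    (by rw [n2]; linarith) (by rw [n1]; linarith) (by rw [n1]; linarith)
  rw [n1, n2, hd] at f1 f2
  rw [n1, n2, hdG] at g1 g2
  generalize near (F - C s) c (2 * ρ1) = a' at *
  generalize near F c ρ1 = a at *
  generalize ‖F.eval (c + (u : ℂ))‖ = F1 at *
  generalize ‖F.eval (c + (v : ℂ))‖ = F2 at *
  generalize ‖(F - C s).eval (c + (u : ℂ))‖ = G1 at *
  generalize ‖(F - C s).eval (c + (v : ℂ))‖ = G2 at *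
  have hG1 : 0 < G1 := by linarith
  have hG2 : 0 < G2 := by linarith
  have h9 : (9 : ℝ) ^ d = 3 ^ d * 3 ^ d := by rw [← mul_pow]; norm_num
  rcases lt_trichotomy a a' with h | h | h
  · exfalso
    refine R2b_exp hu0 hvu h ?_
    have t1 : G1 * (v ^ a' * u ^ a) ≤ G1 * (3 * 9 ^ d * (u ^ a' * v ^ a)) := by
      calc G1 * (v ^ a' * u ^ a) = (G1 * v ^ a') * u ^ a := by ring
        _ ≤ (3 ^ d * u ^ a' * G2) * u ^ a := mul_le_mul_of_nonneg_right g2 (by positivity)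
        _ ≤ (3 ^ d * u ^ a' * (3 / 2 * F2)) * u ^ a := by gcongr
        _ = 3 / 2 * 3 ^ d * u ^ a' * (F2 * u ^ a) := by ring
        _ ≤ 3 / 2 * 3 ^ d * u ^ a' * (3 ^ d * v ^ a * F1) :=
            mul_le_mul_of_nonneg_left f1 (by positivity)
        _ ≤ 3 / 2 * 3 ^ d * u ^ a' * (3 ^ d * v ^ a * (2 * G1)) := by gcongr
        _ = G1 * (3 * 9 ^ d * (u ^ a' * v ^ a)) := by rw [h9]; ring
    exact le_of_mul_le_mul_left t1 hG1
  · exact h.symm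
  · exfalso
    refine R2b_exp hu0 hvu h ?_
    have t1 : F1 * (v ^ a * u ^ a') ≤ F1 * (3 * 9 ^ d * (u ^ a * v ^ a')) := by
      calc F1 * (v ^ a * u ^ a') = (F1 * v ^ a) * u ^ a' := by ring
        _ ≤ (3 ^ d * u ^ a * F2) * u ^ a' := mul_le_mul_of_nonneg_right f2 (by positivity)
        _ ≤ (3 ^ d * u ^ a * (2 * G2)) * u ^ a' := by gcongr
        _ = 2 * 3 ^ d * u ^ a * (G2 * u ^ a') := by ring
        _ ≤ 2 * 3 ^ d * u ^ a * (3 ^ d * v ^ a' * G1) :=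
            mul_le_mul_of_nonneg_left g1 (by positivity)
        _ ≤ 2 * 3 ^ d * u ^ a * (3 ^ d * v ^ a' * (3 / 2 * F1)) := by gcongr
        _ = F1 * (3 * 9 ^ d * (u ^ a * v ^ a')) := by rw [h9]; ring
    exact le_of_mul_le_mul_left t1 l1

end F0744C
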