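import Pool.Agent.Lib.MP_f0744f_nt.C.A5

/-! # Row R3a: interpolation in a disc -/

set_option autoImplicit false

open Polynomial

namespace F0744C

/-- Pure analysis. `P s` (`s ∈ Q`) monic of degree `μ`, `q = Q.card`, `μ q ≤ n`, `U.card = n + 1`. Let
`P = (X - c) ^ (n - μ q) ∏_{s ∈ Q} P s`, monic of degree `n`. `lag_coeff` (`K = ℂ`, `v = Int.cast`):
`1 = ∑_{x ∈ U} P (x) / ∏_{y ≠ x} (x - y)`, so for the `x` with the largest term
`∏_{y ≠ x} ‖x - y‖ ≤ (n + 1) ‖x - c‖ ^ (n - μ q) ∏_s ‖P s (x)‖`, and the right side is not zero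
(`∏_{y ≠ x} (x - y) ≠ 0`). -/
theorem lag_disc {U Q : Finset ℤ} {n μ : ℕ} (hn : U.card = n + 1) (hq : μ * Q.card ≤ n) {c : ℂ}
    {r : ℝ} (hr : ∀ x ∈ U, ‖(x : ℂ) - c‖ ≤ r) (P : ℤ → ℂ[X]) (hP : ∀ s ∈ Q, (P s).Monic)
    (hμ : ∀ s ∈ Q, (P s).natDegree = μ) :
    ∃ x ∈ U, (∀ s ∈ Q, (P s).eval (x : ℂ) ≠ 0) ∧
      ∏ y ∈ U.erase x, |(x : ℝ) - y| ≤ (n + 1) * r ^ (n - μ * Q.card) *
        ∏ s ∈ Q, ‖(P s).eval (x : ℂ)‖ := by
  classical
  have hU : U.Nonempty := by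
    rw [← Finset.card_pos, hn]; omega
  set P0 : ℂ[X] := (X - C c) ^ (n - μ * Q.card) * ∏ s ∈ Q, P s with hP0
  have hmQ : (∏ s ∈ Q, P s).Monic := monic_prod_of_monic Q P hP
  have hmX : ((X - C c) ^ (n - μ * Q.card)).Monic := (monic_X_sub_C c).pow _
  have hmon : P0.Monic := hmX.mul hmQ
  have hdQ : (∏ s ∈ Q, P s).natDegree = μ * Q.card := by
    rw [natDegree_prod_of_monic Q P hP, Finset.sum_congr rfl hμ, Finset.sum_const,
      smul_eq_mul, mul_comm]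
  have hdeg : P0.natDegree = n := by
    rw [hP0, hmX.natDegree_mul hmQ, hdQ, natDegree_pow, natDegree_X_sub_C, mul_one]
    omega
  have hlag := lag_coeff (K := ℂ) U (fun x : ℤ => (x : ℂ)) (Int.cast_injective.injOn) P0
    (by rw [hdeg, hn]; omega)
  have hcoef : P0.coeff (U.card - 1) = 1 := by
    rw [hn, Nat.add_sub_cancel]
    have := hmon.coeff_natDegree
    rwa [hdeg] at this
  rw [hcoef] at hlag
  have hnpos : (0 : ℝ) < (n : ℝ) + 1 := by positivity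
  -- a large term
  obtain ⟨x, hxU, hx⟩ : ∃ x ∈ U, 1 / ((n : ℝ) + 1) ≤
      ‖P0.eval ((x : ℤ) : ℂ) * (∏ j ∈ U.erase x, (((x : ℤ) : ℂ) - ((j : ℤ) : ℂ)))⁻¹‖ := by
    by_contra hcon
    push Not at hcon
    have h1 : ∑ i ∈ U, ‖P0.eval ((i : ℤ) : ℂ) *
        (∏ j ∈ U.erase i, (((i : ℤ) : ℂ) - ((j : ℤ) : ℂ)))⁻¹‖ < ∑ i ∈ U, 1 / ((n : ℝ) + 1) :=
      Finset.sum_lt_sum_of_nonempty hU hcon
    rw [Finset.sum_const, hn, nsmul_eq_mul] at h1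
    push_cast at h1
    have h2 : ((n : ℝ) + 1) * (1 / ((n : ℝ) + 1)) = 1 := by field_simp
    rw [h2] at h1
    have h3 : ‖∑ i ∈ U, P0.eval ((i : ℤ) : ℂ) *
        (∏ j ∈ U.erase i, (((i : ℤ) : ℂ) - ((j : ℤ) : ℂ)))⁻¹‖ ≤ _ := norm_sum_le U _
    rw [hlag, norm_one] at h3
    linarith
  have hev : P0.eval (x : ℂ) = ((x : ℂ) - c) ^ (n - μ * Q.card) * ∏ s ∈ Q, (P s).eval (x : ℂ) := by
    rw [hP0, eval_mul, eval_pow, eval_sub, eval_X, eval_C, eval_prod]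
  have hne : P0.eval (x : ℂ) ≠ 0 := by
    intro h0
    rw [h0, zero_mul, norm_zero] at hx
    have : (0 : ℝ) < 1 / ((n : ℝ) + 1) := by positivity
    linarith
  have hprodne : (∏ s ∈ Q, (P s).eval (x : ℂ)) ≠ 0 := by
    intro h0
    apply hne
    rw [hev, h0, mul_zero]
  refine ⟨x, hxU, fun s hs => Finset.prod_ne_zero_iff.mp hprodne s hs, ?_⟩
  have hnorm : ‖∏ j ∈ U.erase x, (((x : ℤ) : ℂ) - ((j : ℤ) : ℂ))‖
      = ∏ y ∈ U.erase x, |(x : ℝ) - y| := by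
    rw [norm_prod]
    refine Finset.prod_congr rfl fun y _ => ?_
    have : ((x : ℤ) : ℂ) - ((y : ℤ) : ℂ) = (((x : ℝ) - y : ℝ) : ℂ) := by push_cast; rfl
    rw [this, Complex.norm_real, Real.norm_eq_abs]
  have hpos : 0 < ∏ y ∈ U.erase x, |(x : ℝ) - y| := by
    refine Finset.prod_pos fun y hy => abs_pos.mpr ?_
    have : x ≠ y := (Finset.ne_of_mem_erase hy).symm
    exact sub_ne_zero.mpr (by exact_mod_cast this)
  rw [norm_mul, norm_inv, hnorm] at hx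
  have h4 : ∏ y ∈ U.erase x, |(x : ℝ) - y| ≤ (n + 1) * ‖P0.eval (x : ℂ)‖ := by
    rw [div_le_iff₀ hnpos] at hx
    have h5 := mul_le_mul_of_nonneg_right hx hpos.le
    rw [one_mul] at h5
    have h6 : ‖P0.eval (x : ℂ)‖ * (∏ y ∈ U.erase x, |(x : ℝ) - y|)⁻¹ * ((n : ℝ) + 1) *
        ∏ y ∈ U.erase x, |(x : ℝ) - y| = (n + 1) * ‖P0.eval (x : ℂ)‖ := by
      field_simp
    rw [h6] at h5
    exact h5
  refine h4.trans ?_
  rw [hev, norm_mul, norm_pow, norm_prod, mul_assoc]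
  refine mul_le_mul_of_nonneg_left ?_ hnpos.le
  refine mul_le_mul_of_nonneg_right ?_ (Finset.prod_nonneg fun _ _ => norm_nonneg _)
  exact pow_le_pow_left₀ (norm_nonneg _) (hr x hxU) _

end F0744C
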