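import Pool.Agent.Lib.MP_f0744f_nt.C.A8
import Pool.Agent.Lib.MP_f0744f_nt.C.R2
import Pool.Agent.Lib.MP_f0744f_nt.C.R3a

/-! # Row R3: the refined bound in a disc -/

set_option autoImplicit false

open Polynomial

namespace F0744C

variable {S : Finset ℤ} {a : ℤ} {d : ℕ}

open Classical in
theorem R3_near (F : ℚ[X]) (c : ℂ) (r : ℝ) : near (F.map (algebraMap ℚ ℂ)) c r = cnt F c r := by
  unfold near cnt
  rfl

open Classical in
theorem R3_near_le (G : ℂ[X]) (c : ℂ) (r : ℝ) : near G c r ≤ G.natDegree := by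
  unfold near
  exact (Multiset.countP_le_card _ _).trans (card_roots' G)

/-- `n = U.card - 1`, `μ = cnt f.F c ρ1`, `q = n / μ` (`q = 0` if `μ = 0`), `m = mm real L d f.F`, `α` the leading
coefficient, `Λ = log L`. `nodes` (`A = real`, `R = L`, `q + 1 ≤ U.card ≤ (Dm J).card`) gives `Q ⊆ Dm J ⊆ S`,
`Q.card = q`, and for `w ∈ Dm J`, `w ∉ Q`: `∑_{s ∈ Q} uu w s ≥ V = wd d J q * m - log (q + 1)`, that is
`∏_s |w - s| ≤ L ^ q exp (- V)`. For `s ∈ Q` (`|s| ≤ L ≤ |α| ρ1 ^ d`) let `P s` be the polynomial of `near_factor`.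
`lag_disc` (`r = 2 ρ1`) gives `x ∈ U` with all `P s (x) ≠ 0`, so `f.ph x ≠ s` for `s ∈ Q`, `w = f.ph x ∈ Dm J`
(`Dm_succ`), `F (x) = w`, and
`∏_{y ≠ x} |x - y| ≤ (n + 1) (2 ρ1) ^ (n - μ q) ∏_s |w - s| / (|α| (ρ2 / 2) ^ (d - μ)) ^ q`.
Take logarithms: `log (2 ρ1) ≤ Λ`, `log |α| = m - (d - 1) Λ`, so
`∑_y (Λ - log |x - y|) ≥ n Λ - log (n + 1) - (n - μ q) Λ - q Λ + V + q (m - (d - 1) Λ) + q (d - μ) log (ρ2 / 2)`
`= V + q m - log (n + 1) - q (d - μ) (Λ - log (ρ2 / 2))`, and `0 ≤ Λ - log (ρ2 / 2)`, `q + 1 ≤ U.card`. -/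
theorem refine_r (f : PM S a d) (hd : 2 ≤ d) {L : ℝ} (hL1 : 1 ≤ L)
    (hL : ∀ y ∈ S, |((y : ℤ) : ℝ)| ≤ L) (J : ℕ) {c : ℂ} {ρ1 ρ2 : ℝ} (h0 : 0 < ρ1)
    (h12 : 16 ^ (d + 2) * ρ1 ≤ ρ2) (h2 : ρ2 ≤ L)
    (hr : ∀ z ∈ (f.F.map (algebraMap ℚ ℂ)).roots, ‖z - c‖ ≤ ρ1 ∨ ρ2 ≤ ‖z - c‖)
    (hα : L ≤ |((f.F.leadingCoeff : ℚ) : ℝ)| * ρ1 ^ d)
    {U : Finset ℤ} (hU : U ⊆ Dm S a f.ph (J + 1)) (hne : U.Nonempty)
    (hc : ∀ x ∈ U, ‖(x : ℂ) - c‖ ≤ 2 * ρ1) :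
    ∃ x ∈ U, ((((U.card - 1) / cnt f.F c ρ1 : ℕ) : ℝ) + wd d J ((U.card - 1) / cnt f.F c ρ1)) *
        mm Rat.AbsoluteValue.real L d f.F
      - d * (((U.card - 1) / cnt f.F c ρ1 : ℕ) : ℝ) * (Real.log L - Real.log (ρ2 / 2))
      - 2 * Real.log U.card ≤ ∑ y ∈ U.erase x, uu Rat.AbsoluteValue.real L x y := by
  classical
  set μ : ℕ := cnt f.F c ρ1 with hμdef
  set q : ℕ := (U.card - 1) / μ with hqdef
  set G : ℂ[X] := f.F.map (algebraMap ℚ ℂ) with hGdef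
  have hFne : f.F ≠ 0 := by
    intro h
    have := f.deg
    rw [h, natDegree_zero] at this
    omega
  have hinj : Function.Injective (algebraMap ℚ ℂ) := (algebraMap ℚ ℂ).injective
  have hGd : G.natDegree = d := by rw [hGdef, natDegree_map, f.deg]
  have hGl : G.leadingCoeff = ((f.F.leadingCoeff : ℚ) : ℂ) := by
    rw [hGdef, leadingCoeff_map]
    simp
  have hGn : ‖G.leadingCoeff‖ = |((f.F.leadingCoeff : ℚ) : ℝ)| := by
    rw [hGl]
    rw [show (((f.F.leadingCoeff : ℚ) : ℂ)) = ((((f.F.leadingCoeff : ℚ) : ℝ)) : ℂ) by push_cast; rfl]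
    rw [Complex.norm_real, Real.norm_eq_abs]
  have hα0 : 0 < |((f.F.leadingCoeff : ℚ) : ℝ)| := by
    rw [abs_pos]
    exact_mod_cast leadingCoeff_ne_zero.2 hFne
  have hnear : near G c ρ1 = μ := R3_near f.F c ρ1
  have hμd : μ ≤ d := by
    rw [← hGd, ← hnear]
    exact R3_near_le G c ρ1
  have hUc : 0 < U.card := Finset.card_pos.2 hne
  have hn1 : U.card = (U.card - 1) + 1 := by omega
  set n : ℕ := U.card - 1 with hndef
  have hqn : q ≤ n := Nat.div_le_self _ _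
  have hμq : μ * q ≤ n := Nat.mul_div_le _ _
  -- nodes
  have hUD : U.card ≤ (Dm S a f.ph J).card :=
    Finset.card_le_card (hU.trans (Dm_anti f.ph J))
  obtain ⟨Q, hQD, hQc, hQ⟩ := nodes f (by omega) Rat.AbsoluteValue.real hL1
    (fun y hy => by simpa using hL y hy) J q (by omega)
  have hnear' : ∀ s ∈ Q, ∃ P : ℂ[X], P.Monic ∧ P.natDegree = μ ∧ ∀ x : ℂ, ‖x - c‖ ≤ 2 * ρ1 →
      |((f.F.leadingCoeff : ℚ) : ℝ)| * (ρ2 / 2) ^ (d - μ) * ‖P.eval x‖ ≤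
        ‖G.eval x - (s : ℂ)‖ := by
    intro s hs
    have hsS : s ∈ S := Dm_sub S a f.ph J (hQD hs)
    have h1 : ‖((s : ℤ) : ℂ)‖ ≤ ‖G.leadingCoeff‖ * ρ1 ^ d := by
      rw [hGn]
      calc ‖((s : ℤ) : ℂ)‖ = |((s : ℤ) : ℝ)| := by
            rw [show ((s : ℤ) : ℂ) = (((s : ℤ) : ℝ) : ℂ) by push_cast; rfl, Complex.norm_real,
              Real.norm_eq_abs]
        _ ≤ L := hL s hsS
        _ ≤ _ := hα
    obtain ⟨P, hP1, hP2, hP3⟩ := near_factor hGd (by omega) h0 h12 hr h1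
    refine ⟨P, hP1, by rw [hP2, hnear], fun x hx => ?_⟩
    have := hP3 x hx
    rwa [hnear, hGn] at this
  choose! P hPm hPd hPe using hnear'
  obtain ⟨x, hxU, hx0, hxp⟩ := lag_disc (Q := Q) (n := n) (μ := μ) hn1 (by rw [hQc]; exact hμq) hc P
    hPm hPd
  rw [hQc] at hxp
  refine ⟨x, hxU, ?_⟩
  obtain ⟨hxS, hxa, hwD⟩ := Dm_succ (hU hxU)
  set w : ℤ := f.ph x with hwdef
  have hGx : G.eval (x : ℂ) = (w : ℂ) := by
    have h1 := f.val x hxS hxa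
    have h2 : G.eval ((algebraMap ℚ ℂ) (x : ℚ)) = (algebraMap ℚ ℂ) (f.F.eval (x : ℚ)) := by
      rw [hGdef, eval_map, eval₂_at_apply]
    rw [← h1] at h2
    simpa using h2
  have hρ2 : 0 < ρ2 / 2 := by
    have h16 : (1 : ℝ) ≤ 16 ^ (d + 2) := one_le_pow₀ (by norm_num)
    have : 0 < ρ2 := lt_of_lt_of_le h0 (le_trans (le_mul_of_one_le_left h0.le h16) h12)
    linarith
  have hPx : ∀ s ∈ Q, |((f.F.leadingCoeff : ℚ) : ℝ)| * (ρ2 / 2) ^ (d - μ) * ‖(P s).eval (x : ℂ)‖ ≤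
      |(w : ℝ) - s| := by
    intro s hs
    have h1 := hPe s hs (x : ℂ) (hc x hxU)
    rw [hGx] at h1
    refine h1.trans (le_of_eq ?_)
    rw [show ((w : ℤ) : ℂ) - ((s : ℤ) : ℂ) = (((w : ℝ) - (s : ℝ) : ℝ) : ℂ) by push_cast; rfl,
      Complex.norm_real, Real.norm_eq_abs]
  have hPpos : ∀ s ∈ Q, 0 < ‖(P s).eval (x : ℂ)‖ := fun s hs => norm_pos_iff.2 (hx0 s hs)
  have hwpos : ∀ s ∈ Q, 0 < |(w : ℝ) - s| := fun s hs =>
    lt_of_lt_of_le (mul_pos (mul_pos hα0 (pow_pos hρ2 _)) (hPpos s hs)) (hPx s hs)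
  have hwQ : w ∉ Q := by
    intro h
    have := hwpos w h
    simp at this
  have hV := hQ w hwD hwQ
  set Λ : ℝ := Real.log L with hΛ
  set lα : ℝ := Real.log |((f.F.leadingCoeff : ℚ) : ℝ)| with hlα
  set lρ : ℝ := Real.log (ρ2 / 2) with hlρ
  have hm : mm Rat.AbsoluteValue.real L d f.F = lα + ((d : ℝ) - 1) * Λ := by
    rw [mm]
    rfl
  have huu : ∀ y z : ℤ, uu Rat.AbsoluteValue.real L y z = Λ - Real.log |(y : ℝ) - z| := by
    intro y z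
    rw [uu]
    have : Rat.AbsoluteValue.real ((y : ℚ) - z) = |(y : ℝ) - z| := by
      simp
    rw [this]
  -- the sum over Q
  have hsumQ : ∑ s ∈ Q, uu Rat.AbsoluteValue.real L w s =
      (q : ℝ) * Λ - ∑ s ∈ Q, Real.log |(w : ℝ) - s| := by
    simp only [huu]
    rw [Finset.sum_sub_distrib, Finset.sum_const, hQc, nsmul_eq_mul]
  have hlogP : ∀ s ∈ Q, Real.log ‖(P s).eval (x : ℂ)‖ ≤
      Real.log |(w : ℝ) - s| - lα - ((d : ℝ) - μ) * lρ := by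
    intro s hs
    have h1 := Real.log_le_log (mul_pos (mul_pos hα0 (pow_pos hρ2 _)) (hPpos s hs)) (hPx s hs)
    rw [Real.log_mul (mul_pos hα0 (pow_pos hρ2 _)).ne' (hPpos s hs).ne',
      Real.log_mul hα0.ne' (pow_pos hρ2 _).ne', Real.log_pow, Nat.cast_sub hμd] at h1
    linarith
  have hsumP : ∑ s ∈ Q, Real.log ‖(P s).eval (x : ℂ)‖ ≤
      ∑ s ∈ Q, Real.log |(w : ℝ) - s| - q * lα - q * (((d : ℝ) - μ) * lρ) := by
    refine (Finset.sum_le_sum hlogP).trans (le_of_eq ?_)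
    rw [Finset.sum_sub_distrib, Finset.sum_sub_distrib, Finset.sum_const, Finset.sum_const, hQc,
      nsmul_eq_mul, nsmul_eq_mul]
  -- the product
  have hprodpos : 0 < ∏ y ∈ U.erase x, |(x : ℝ) - y| := by
    apply Finset.prod_pos
    intro y hy
    rw [abs_pos, sub_ne_zero]
    intro h
    exact (Finset.mem_erase.1 hy).1 (by exact_mod_cast h.symm)
  have hlogprod : Real.log (∏ y ∈ U.erase x, |(x : ℝ) - y|) ≤
      Real.log ((n : ℝ) + 1) + ((n : ℝ) - μ * q) * Real.log (2 * ρ1) +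
        ∑ s ∈ Q, Real.log ‖(P s).eval (x : ℂ)‖ := by
    have h1 := Real.log_le_log hprodpos hxp
    have hA : (0 : ℝ) < (n : ℝ) + 1 := by positivity
    have hB : (0 : ℝ) < (2 * ρ1) ^ (n - μ * q) := by positivity
    have hC : (0 : ℝ) < ∏ s ∈ Q, ‖(P s).eval (x : ℂ)‖ := Finset.prod_pos hPpos
    rw [Real.log_mul (mul_pos hA hB).ne' hC.ne', Real.log_mul hA.ne' hB.ne', Real.log_pow,
      Nat.cast_sub hμq, Real.log_prod (fun s hs => (hPpos s hs).ne')] at h1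
    push_cast at h1
    exact h1
  have hsumU : ∑ y ∈ U.erase x, uu Rat.AbsoluteValue.real L x y =
      (n : ℝ) * Λ - Real.log (∏ y ∈ U.erase x, |(x : ℝ) - y|) := by
    simp only [huu]
    rw [Finset.sum_sub_distrib, Finset.sum_const, Finset.card_erase_of_mem hxU, nsmul_eq_mul,
      Real.log_prod]
    intro y hy
    rw [abs_ne_zero, sub_ne_zero]
    intro h
    exact (Finset.mem_erase.1 hy).1 (by exact_mod_cast h.symm)
  -- numbers
  have hlog2 : Real.log (2 * ρ1) ≤ Λ := by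
    apply Real.log_le_log (by positivity)
    have h16 : (2 : ℝ) ≤ 16 ^ (d + 2) := by
      have : (16 : ℝ) ^ 1 ≤ 16 ^ (d + 2) := pow_le_pow_right₀ (by norm_num) (by omega)
      linarith
    have h3 : 2 * ρ1 ≤ 16 ^ (d + 2) * ρ1 := mul_le_mul_of_nonneg_right h16 h0.le
    linarith
  have hδ : 0 ≤ Λ - lρ := by
    have : lρ ≤ Λ := Real.log_le_log hρ2 (by linarith)
    linarith
  have hnq : (0 : ℝ) ≤ (n : ℝ) - μ * q := by
    have : ((μ * q : ℕ) : ℝ) ≤ (n : ℝ) := by exact_mod_cast hμq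
    push_cast at this
    linarith
  have hlogn : Real.log ((n : ℝ) + 1) = Real.log (U.card : ℝ) := by
    congr 1
    rw [hn1]
    push_cast
    rfl
  have hlogq : Real.log ((q : ℝ) + 1) ≤ Real.log (U.card : ℝ) := by
    rw [← hlogn]
    apply Real.log_le_log (by positivity)
    have : (q : ℝ) ≤ n := by exact_mod_cast hqn
    linarith
  have hq0 : (0 : ℝ) ≤ q := Nat.cast_nonneg q
  have hμ0 : (0 : ℝ) ≤ μ := Nat.cast_nonneg μ
  have e1 := mul_le_mul_of_nonneg_left hlog2 hnq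
  have e2 : 0 ≤ (q : ℝ) * (μ : ℝ) * (Λ - lρ) := mul_nonneg (mul_nonneg hq0 hμ0) hδ
  rw [hsumU]
  rw [hsumQ] at hV
  rw [hm] at hV ⊢
  nlinarith [hV, hsumP, hlogprod, e1, e2, hlogq, hlogn]

end F0744C
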