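import Pool.Agent.Lib.MP_f0744f_nt.C.R3

/-! # Row R4: the sum over the discs -/

set_option autoImplicit false

open Polynomial

namespace F0744C

variable {S : Finset ℤ} {a : ℤ} {d : ℕ}

/-- `|x - y| ≤ 2 L`, `x ≠ y`. -/
theorem uu_ge {L : ℝ} (hL1 : 1 ≤ L) {x y : ℤ} (hx : |(x : ℝ)| ≤ L) (hy : |(y : ℝ)| ≤ L)
    (h : x ≠ y) : - Real.log 2 ≤ uu Rat.AbsoluteValue.real L x y := by
  have hL0 : 0 < L := by linarith
  have e : Rat.AbsoluteValue.real ((x : ℚ) - y) = |(x : ℝ) - y| := by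
    rw [Rat.AbsoluteValue.real_eq_abs]
    push_cast
    rfl
  unfold uu
  rw [e]
  have h0 : 0 < |(x : ℝ) - y| := by
    rw [abs_pos, sub_ne_zero]
    exact_mod_cast h
  have h1 : |(x : ℝ) - y| ≤ 2 * L := by
    have := abs_sub (x : ℝ) y
    linarith
  have h2 := Real.log_le_log h0 h1
  rw [Real.log_mul two_ne_zero hL0.ne'] at h2
  linarith

theorem R4_log_sum (t : ℕ) :
    ∑ n ∈ Finset.range t, Real.log ((n : ℝ) + 1) ≤ t * Real.log t := by
  have h : ∀ n ∈ Finset.range t, Real.log ((n : ℝ) + 1) ≤ Real.log t := by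
    intro n hn
    have h1 : n + 1 ≤ t := Finset.mem_range.1 hn
    have h2 : ((n : ℝ) + 1) ≤ t := by exact_mod_cast h1
    exact Real.log_le_log (by positivity) h2
  have h3 := Finset.sum_le_sum h
  rwa [Finset.sum_const, Finset.card_range, nsmul_eq_mul] at h3

theorem R4_div_sum {m : ℕ} (hm : 1 ≤ m) (t : ℕ) :
    2 * ∑ n ∈ Finset.range t, ((n / m : ℕ) : ℝ) ≤ (t : ℝ) ^ 2 / m := by
  have hm0 : (0 : ℝ) < m := by exact_mod_cast hm
  have h1 : ∀ n ∈ Finset.range t, ((n / m : ℕ) : ℝ) ≤ (n : ℝ) / m := fun n _ => Nat.cast_div_le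
  have h2 : ∀ t : ℕ, 2 * ∑ n ∈ Finset.range t, (n : ℝ) ≤ (t : ℝ) ^ 2 := by
    intro t
    induction t with
    | zero => simp
    | succ t ih =>
      rw [Finset.sum_range_succ]
      push_cast
      nlinarith
  calc 2 * ∑ n ∈ Finset.range t, ((n / m : ℕ) : ℝ)
      ≤ 2 * ∑ n ∈ Finset.range t, (n : ℝ) / m := by
        have := Finset.sum_le_sum h1
        linarith
    _ = (2 * ∑ n ∈ Finset.range t, (n : ℝ)) / m := by
        rw [← Finset.sum_div]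
        ring
    _ ≤ (t : ℝ) ^ 2 / m := by
        exact div_le_div_of_nonneg_right (h2 t) hm0.le

theorem R4_sum {d m : ℕ} (hd : 2 ≤ d) (hm : 1 ≤ m) (J t : ℕ) {M δ : ℝ} (hM : 0 ≤ M) (hδ : 0 ≤ δ) :
    (M * (((d : ℝ) - 1 / (d : ℝ) ^ J) / ((d : ℝ) - 1)) - d * δ) * ((t : ℝ) ^ 2 / m)
      - M * (4 * J + 6) * t - 4 * t * Real.log t ≤
    2 * ∑ n ∈ Finset.range t, ((((n / m : ℕ) : ℝ) + (wd d J (n / m) : ℝ)) * M
      - d * ((n / m : ℕ) : ℝ) * δ - 2 * Real.log ((n : ℝ) + 1)) := by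
  have e : 2 * ∑ n ∈ Finset.range t, ((((n / m : ℕ) : ℝ) + (wd d J (n / m) : ℝ)) * M
      - d * ((n / m : ℕ) : ℝ) * δ - 2 * Real.log ((n : ℝ) + 1)) =
      M * (2 * ∑ n ∈ Finset.range t, (((n / m : ℕ) : ℝ) + (wd d J (n / m) : ℝ)))
      - d * δ * (2 * ∑ n ∈ Finset.range t, ((n / m : ℕ) : ℝ))
      - 4 * ∑ n ∈ Finset.range t, Real.log ((n : ℝ) + 1) := by
    rw [Finset.sum_sub_distrib, Finset.sum_sub_distrib, ← Finset.sum_mul]
    have e1 : ∑ n ∈ Finset.range t, (d : ℝ) * ((n / m : ℕ) : ℝ) * δ =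
        d * δ * ∑ n ∈ Finset.range t, ((n / m : ℕ) : ℝ) := by
      rw [Finset.mul_sum]
      exact Finset.sum_congr rfl fun n _ => by ring
    rw [e1, ← Finset.mul_sum]
    ring
  rw [e]
  have h1 := mul_le_mul_of_nonneg_left (wd_sum_class hd hm J t) hM
  have h2 := mul_le_mul_of_nonneg_left (R4_div_sum hm t) (mul_nonneg (Nat.cast_nonneg d) hδ)
  have h3 := R4_log_sum t
  have e2 : (M * (((d : ℝ) - 1 / (d : ℝ) ^ J) / ((d : ℝ) - 1)) - d * δ) * ((t : ℝ) ^ 2 / m)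
      = M * (((d : ℝ) - 1 / (d : ℝ) ^ J) / ((d : ℝ) - 1) * ((t : ℝ) ^ 2 / m)) -
        d * δ * ((t : ℝ) ^ 2 / m) := by ring
  rw [e2]
  linarith

/-- The sets `dsc T c (2 ρ1)`, `c ∈ C`, are disjoint (`4 ρ1 < ρ2`) with union `T` (`hcov`). The pairs in
different sets (at most `T.card ^ 2`) contribute at least `- log 2` each (`uu_ge`), so
`En T ≥ ∑_{c ∈ C} En (dsc T c (2 ρ1)) - T.card ^ 2 log 2`. For each `c` use `en_ge` (`hsym`: `uu_comm`) with
`φ n = ((n / μ) + wd d J (n / μ)) m - d (n / μ) δ - 2 log (n + 1)`, `μ = cnt f.F c ρ1`, `δ = log L - log (ρ2 / 2) ≥ 0`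
(`refine_r`), `wd_sum_class`, `2 ∑_{n < t} (n / μ) ≤ t ^ 2 / μ`, `∑_{n < t} log (n + 1) ≤ t log t`, and
`∑_c t_c = T.card`, `t_c log t_c ≤ t_c log T.card`. -/
theorem EnR_ge (f : PM S a d) (hd : 2 ≤ d) {L : ℝ} (hL1 : 1 ≤ L)
    (hL : ∀ y ∈ S, |((y : ℤ) : ℝ)| ≤ L) (J : ℕ) {ρ1 ρ2 : ℝ} (h0 : 0 < ρ1)
    (h12 : 16 ^ (d + 2) * ρ1 ≤ ρ2) (h2 : ρ2 ≤ L)
    (hα : L ≤ |((f.F.leadingCoeff : ℚ) : ℝ)| * ρ1 ^ d)
    {C : Finset ℂ} (hC : ∀ c ∈ C, ∀ c' ∈ C, c ≠ c' → ρ2 ≤ ‖c - c'‖)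
    (hr : ∀ c ∈ C, ∀ z ∈ (f.F.map (algebraMap ℚ ℂ)).roots, ‖z - c‖ ≤ ρ1 ∨ ρ2 ≤ ‖z - c‖)
    (hμ : ∀ c ∈ C, 1 ≤ cnt f.F c ρ1)
    {T : Finset ℤ} (hT : T ⊆ Dm S a f.ph (J + 1))
    (hcov : ∀ x ∈ T, ∃ c ∈ C, ‖(x : ℂ) - c‖ ≤ 2 * ρ1)
    (hm : 0 ≤ mm Rat.AbsoluteValue.real L d f.F) :
    (mm Rat.AbsoluteValue.real L d f.F * (((d : ℝ) - 1 / (d : ℝ) ^ J) / ((d : ℝ) - 1))
        - d * (Real.log L - Real.log (ρ2 / 2))) *
      ∑ c ∈ C, ((dsc T c (2 * ρ1)).card : ℝ) ^ 2 / (cnt f.F c ρ1 : ℝ)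
      - mm Rat.AbsoluteValue.real L d f.F * (4 * J + 6) * T.card
      - 4 * T.card * Real.log T.card - (T.card : ℝ) ^ 2 * Real.log 2 ≤
    En Rat.AbsoluteValue.real L T := by
  classical
  have hlog2 : 0 ≤ Real.log 2 := Real.log_nonneg (by norm_num)
  have hρ2 : 0 < ρ2 := lt_of_lt_of_le (by positivity) h12
  have h4 : 4 * ρ1 < ρ2 := by
    have h16 : (16 : ℝ) ≤ 16 ^ (d + 2) := by
      have := pow_le_pow_right₀ (by norm_num : (1 : ℝ) ≤ 16) (by omega : 1 ≤ d + 2)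
      simpa using this
    nlinarith
  set m := mm Rat.AbsoluteValue.real L d f.F with hmdef
  set δ := Real.log L - Real.log (ρ2 / 2) with hδdef
  have hδ : 0 ≤ δ := by
    have := Real.log_le_log (by positivity : 0 < ρ2 / 2) (by linarith : ρ2 / 2 ≤ L)
    linarith
  have hTS : T ⊆ S := hT.trans (Dm_sub S a f.ph (J + 1))
  -- the sets `D c`
  have hsub : ∀ c, dsc T c (2 * ρ1) ⊆ T := fun c => Finset.filter_subset _ _
  have hmemD : ∀ c x, x ∈ dsc T c (2 * ρ1) ↔ x ∈ T ∧ ‖(x : ℂ) - c‖ ≤ 2 * ρ1 := fun c x => by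
    unfold dsc
    rw [Finset.mem_filter]
  have hdisj : ∀ c ∈ C, ∀ c' ∈ C, c ≠ c' → Disjoint (dsc T c (2 * ρ1)) (dsc T c' (2 * ρ1)) := by
    intro c hc c' hc' hne
    rw [Finset.disjoint_left]
    intro x hx hx'
    have h1 := ((hmemD c x).1 hx).2
    have h2' := ((hmemD c' x).1 hx').2
    have h3 := hC c hc c' hc' hne
    have h5 : ‖c - c'‖ ≤ ‖(x : ℂ) - c‖ + ‖(x : ℂ) - c'‖ := by
      have h6 : c - c' = ((x : ℂ) - c') - ((x : ℂ) - c) := by ring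
      rw [h6]
      have := norm_sub_le ((x : ℂ) - c') ((x : ℂ) - c)
      linarith
    linarith
  have hTeq : T = C.biUnion (fun c => dsc T c (2 * ρ1)) := by
    ext x
    rw [Finset.mem_biUnion]
    constructor
    · intro hx
      obtain ⟨c, hc, h⟩ := hcov x hx
      exact ⟨c, hc, (hmemD c x).2 ⟨hx, h⟩⟩
    · rintro ⟨c, _, h⟩
      exact hsub c h
  have hsumT : ∀ g : ℤ → ℝ, ∑ x ∈ T, g x = ∑ c ∈ C, ∑ x ∈ dsc T c (2 * ρ1), g x := by
    intro g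
    conv_lhs => rw [hTeq]
    exact Finset.sum_biUnion fun c hc c' hc' hne => hdisj c hc c' hc' hne
  have hcard : ∑ c ∈ C, ((dsc T c (2 * ρ1)).card : ℝ) = T.card := by
    have := hsumT (fun _ => 1)
    simp only [Finset.sum_const, nsmul_eq_mul, mul_one] at this
    exact this.symm
  -- pairs in different sets
  have hrow : ∀ c, ∀ x ∈ dsc T c (2 * ρ1),
      ∑ y ∈ (dsc T c (2 * ρ1)).erase x, uu Rat.AbsoluteValue.real L x y - T.card * Real.log 2 ≤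
        ∑ y ∈ T.erase x, uu Rat.AbsoluteValue.real L x y := by
    intro c x hx
    have hxT := hsub c hx
    have hss : (dsc T c (2 * ρ1)).erase x ⊆ T.erase x := Finset.erase_subset_erase x (hsub c)
    rw [← Finset.sum_sdiff hss]
    have h1 : ∀ y ∈ T.erase x \ (dsc T c (2 * ρ1)).erase x,
        - Real.log 2 ≤ uu Rat.AbsoluteValue.real L x y := by
      intro y hy
      have hy' := (Finset.mem_sdiff.1 hy).1
      have hyT := Finset.mem_of_mem_erase hy'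
      exact uu_ge hL1 (hL x (hTS hxT)) (hL y (hTS hyT)) (Finset.ne_of_mem_erase hy').symm
    have h2' := Finset.sum_le_sum h1
    rw [Finset.sum_const, nsmul_eq_mul] at h2'
    have h3 : ((T.erase x \ (dsc T c (2 * ρ1)).erase x).card : ℝ) ≤ T.card := by
      exact_mod_cast (Finset.card_le_card (Finset.sdiff_subset.trans (Finset.erase_subset x T)))
    have h5 := mul_le_mul_of_nonneg_right h3 hlog2
    linarith
  have hEn : ∑ c ∈ C, (En Rat.AbsoluteValue.real L (dsc T c (2 * ρ1))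
      - (dsc T c (2 * ρ1)).card * (T.card * Real.log 2)) ≤ En Rat.AbsoluteValue.real L T := by
    unfold En
    rw [hsumT (fun x => ∑ y ∈ T.erase x, uu Rat.AbsoluteValue.real L x y)]
    refine Finset.sum_le_sum fun c _ => ?_
    have h1 := Finset.sum_le_sum (hrow c)
    rw [Finset.sum_sub_distrib, Finset.sum_const, nsmul_eq_mul] at h1
    exact h1
  -- one set
  have hone : ∀ c ∈ C, (m * (((d : ℝ) - 1 / (d : ℝ) ^ J) / ((d : ℝ) - 1)) - d * δ) *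
        (((dsc T c (2 * ρ1)).card : ℝ) ^ 2 / (cnt f.F c ρ1 : ℝ))
      - m * (4 * J + 6) * (dsc T c (2 * ρ1)).card
      - 4 * (dsc T c (2 * ρ1)).card * Real.log (dsc T c (2 * ρ1)).card ≤
      En Rat.AbsoluteValue.real L (dsc T c (2 * ρ1)) := by
    intro c hc
    refine (R4_sum hd (hμ c hc) J (dsc T c (2 * ρ1)).card hm hδ).trans ?_
    refine en_ge (u := uu Rat.AbsoluteValue.real L) (fun x y => uu_comm _ _ x y)
      (fun n => (((n / cnt f.F c ρ1 : ℕ) : ℝ) + (wd d J (n / cnt f.F c ρ1) : ℝ)) * m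
        - d * ((n / cnt f.F c ρ1 : ℕ) : ℝ) * δ - 2 * Real.log ((n : ℝ) + 1))
      (dsc T c (2 * ρ1)) ?_
    intro U hU hne
    obtain ⟨x, hx, h⟩ := refine_r f hd hL1 hL J h0 h12 h2 (hr c hc) hα
      ((hU.trans (hsub c)).trans hT) hne (fun x hx => ((hmemD c x).1 (hU hx)).2)
    refine ⟨x, hx, le_trans (le_of_eq ?_) h⟩
    have h1 : 1 ≤ U.card := hne.card_pos
    have h3 : (((U.card - 1 : ℕ) : ℝ) + 1) = U.card := by
      have : U.card - 1 + 1 = U.card := by omega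
      exact_mod_cast this
    simp only [h3, hmdef, hδdef]
  have hlogc : ∀ c, ((dsc T c (2 * ρ1)).card : ℝ) * Real.log (dsc T c (2 * ρ1)).card ≤
      (dsc T c (2 * ρ1)).card * Real.log T.card := by
    intro c
    rcases Nat.eq_zero_or_pos (dsc T c (2 * ρ1)).card with h | h
    · rw [h]
      simp
    · have h1 : ((dsc T c (2 * ρ1)).card : ℝ) ≤ T.card := by
        exact_mod_cast Finset.card_le_card (hsub c)
      exact mul_le_mul_of_nonneg_left (Real.log_le_log (by exact_mod_cast h) h1)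
        (Nat.cast_nonneg _)
  refine le_trans ?_ hEn
  have hterm : ∀ c ∈ C, (m * (((d : ℝ) - 1 / (d : ℝ) ^ J) / ((d : ℝ) - 1)) - d * δ) *
        (((dsc T c (2 * ρ1)).card : ℝ) ^ 2 / (cnt f.F c ρ1 : ℝ))
      - m * (4 * J + 6) * (dsc T c (2 * ρ1)).card
      - 4 * Real.log T.card * (dsc T c (2 * ρ1)).card
      - T.card * Real.log 2 * (dsc T c (2 * ρ1)).card ≤
      En Rat.AbsoluteValue.real L (dsc T c (2 * ρ1))
      - (dsc T c (2 * ρ1)).card * (T.card * Real.log 2) := by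
    intro c hc
    have h1 := hone c hc
    have h3 := hlogc c
    linarith
  refine le_trans (le_of_eq ?_) (Finset.sum_le_sum hterm)
  rw [Finset.sum_sub_distrib, Finset.sum_sub_distrib, Finset.sum_sub_distrib, ← Finset.mul_sum,
    ← Finset.mul_sum, ← Finset.mul_sum, ← Finset.mul_sum, hcard]
  ring

end F0744C
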