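import Pool.Agent.Lib.MP_f0744f_nt.C.Defs

/-! # Row R5a0: size of the leading coefficient -/

set_option autoImplicit false

open Polynomial

namespace F0744C

/-- `m = mm real L d F = log |α| + (d - 1) Λ ≥ (d - 1) Λ / 4`, so
`log |α| + d θ Λ ≥ (d - 1) Λ / 4 - (d - 1) Λ + d θ Λ ≥ Λ` for `θ ≥ 1 - 1 / 8` (`d (1 - θ) ≤ d / 8 ≤ (d - 1) / 4`).
(`m > 0` or `Λ > 0`: `α ≠ 0` because `natDegree F = d ≥ 2`.) Take exponentials. -/
theorem lead_ge {F : ℚ[X]} {d : ℕ} (hF : F.natDegree = d) (hd : 2 ≤ d) {L : ℝ} (hL : 1 ≤ L)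
    (hM : ((d : ℝ) - 1) * Real.log L / 4 ≤ mm Rat.AbsoluteValue.real L d F) {θ : ℝ}
    (hθ : 7 / 8 ≤ θ) : L ≤ |((F.leadingCoeff : ℚ) : ℝ)| * Real.exp (θ * Real.log L) ^ d := by
  have hF0 : F ≠ 0 := by
    rintro rfl
    rw [Polynomial.natDegree_zero] at hF
    omega
  have hlc : F.leadingCoeff ≠ 0 := Polynomial.leadingCoeff_ne_zero.2 hF0
  have hA0 : 0 < |((F.leadingCoeff : ℚ) : ℝ)| := abs_pos.2 (by exact_mod_cast hlc)
  have hd' : (2 : ℝ) ≤ d := by exact_mod_cast hd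
  have hΛ : 0 ≤ Real.log L := Real.log_nonneg hL
  have hAA : Rat.AbsoluteValue.real F.leadingCoeff = |((F.leadingCoeff : ℚ) : ℝ)| := by
    rw [Rat.AbsoluteValue.real_eq_abs]
    push_cast
    rfl
  unfold mm at hM
  rw [hAA] at hM
  have key : Real.log L ≤ Real.log |((F.leadingCoeff : ℚ) : ℝ)| + (d : ℝ) * (θ * Real.log L) := by
    have h1 : (7 / 8 : ℝ) * Real.log L ≤ θ * Real.log L := mul_le_mul_of_nonneg_right hθ hΛ
    have h2 : (d : ℝ) * ((7 / 8 : ℝ) * Real.log L) ≤ (d : ℝ) * (θ * Real.log L) :=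
      mul_le_mul_of_nonneg_left h1 (by linarith)
    nlinarith [mul_nonneg (sub_nonneg.2 hd') hΛ]
  have h3 : |((F.leadingCoeff : ℚ) : ℝ)| * Real.exp (θ * Real.log L) ^ d =
      Real.exp (Real.log |((F.leadingCoeff : ℚ) : ℝ)| + (d : ℝ) * (θ * Real.log L)) := by
    rw [Real.exp_add, Real.exp_log hA0, ← Real.exp_nat_mul]
  rw [h3]
  calc L = Real.exp (Real.log L) := (Real.exp_log (by linarith)).symm
    _ ≤ _ := Real.exp_le_exp.2 key

end F0744C
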