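import Pool.Agent.Lib.MP_f0744f_nt.C.R0
import Pool.Agent.Lib.MP_f0744f_nt.C.R2a
import Pool.Agent.Lib.MP_f0744f_nt.C.R5a0

/-! # Row R5a: the clusters of the roots of F and G -/

set_option autoImplicit false

open Polynomial

namespace F0744C

/-- the data of the clusters -/
structure Clus (F G : ℚ[X]) (d e : ℕ) (η L ρ1 ρ2 : ℝ) (C : Finset ℂ) : Prop where
  pos : 0 < ρ1
  sepd : 16 ^ (d + 2) * ρ1 ≤ ρ2
  sepe : 16 ^ (e + 2) * ρ1 ≤ ρ2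
  leL : ρ2 ≤ L
  two : Real.log 2 ≤ η / 16 * Real.log L
  del : Real.log L - Real.log (ρ2 / 2) ≤ η / 32 * Real.log L
  aF : L ≤ |((F.leadingCoeff : ℚ) : ℝ)| * ρ1 ^ d
  aG : L ≤ |((G.leadingCoeff : ℚ) : ℝ)| * ρ1 ^ e
  sepC : ∀ c ∈ C, ∀ c' ∈ C, c ≠ c' → ρ2 ≤ ‖c - c'‖
  rF : ∀ c ∈ C, ∀ z ∈ (F.map (algebraMap ℚ ℂ)).roots, ‖z - c‖ ≤ ρ1 ∨ ρ2 ≤ ‖z - c‖
  rG : ∀ c ∈ C, ∀ z ∈ (G.map (algebraMap ℚ ℂ)).roots, ‖z - c‖ ≤ ρ1 ∨ ρ2 ≤ ‖z - c‖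
  cF : ∀ z ∈ (F.map (algebraMap ℚ ℂ)).roots, ∃ c ∈ C, ‖z - c‖ ≤ ρ1
  cG : ∀ z ∈ (G.map (algebraMap ℚ ℂ)).roots, ∃ c ∈ C, ‖z - c‖ ≤ ρ1

/-- Put `D = d + e`, `κ = η / (64 (D + 1) ^ 2)`, `Λ = log L`,
`Λ0 = max (64 log 2 / η) ((D + 2) log 16 / κ) + 1`. `Z` = the set of the roots of `F` and `G` (`toFinset`s), at most
`D` elements. `exists_window` gives `k ≤ D ^ 2`; `ρ1 = exp ((1 - κ (k + 1)) Λ)`, `ρ2 = exp ((1 - κ k) Λ)`;
`κ (k + 1) ≤ η / 64 ≤ 1 / 128`. `C` from `exists_reps` (`C ⊆ Z`). `ρ2 / ρ1 = exp (κ Λ) ≥ 16 ^ (D + 2)`;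
`log L - log (ρ2 / 2) = κ k Λ + log 2 ≤ η / 64 Λ + η / 64 Λ`; `aF`, `aG`: `lead_ge` with `θ = 1 - κ (k + 1)`. -/
theorem exists_clus {d e : ℕ} (hd : 2 ≤ d) (he : 2 ≤ e) {η : ℝ} (h0 : 0 < η) (h1 : η ≤ 1 / 2) :
    ∃ Λ0 : ℝ, ∀ (F G : ℚ[X]) (L : ℝ), F.natDegree = d → G.natDegree = e → 1 ≤ L →
      Λ0 ≤ Real.log L →
      ((d : ℝ) - 1) * Real.log L / 4 ≤ mm Rat.AbsoluteValue.real L d F →
      ((e : ℝ) - 1) * Real.log L / 4 ≤ mm Rat.AbsoluteValue.real L e G →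
      ∃ (ρ1 ρ2 : ℝ) (C : Finset ℂ), Clus F G d e η L ρ1 ρ2 C := by
  obtain ⟨D, hD⟩ : ∃ D : ℝ, D = (d : ℝ) + e := ⟨_, rfl⟩
  have hd0 : (2 : ℝ) ≤ d := by exact_mod_cast hd
  have he0 : (2 : ℝ) ≤ e := by exact_mod_cast he
  have hD0 : 4 ≤ D := by rw [hD]; linarith
  obtain ⟨κ, hκ⟩ : ∃ κ : ℝ, κ = η / (64 * (D + 1) ^ 2) := ⟨_, rfl⟩
  have hκ0 : 0 < κ := by rw [hκ]; positivity
  refine ⟨max (64 * Real.log 2 / η) ((D + 2) * Real.log 16 / κ) + 1, ?_⟩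
  intro F G L hF hG hL hΛ hmF hmG
  obtain ⟨Λ, hΛdef⟩ : ∃ Λ : ℝ, Λ = Real.log L := ⟨_, rfl⟩
  rw [← hΛdef] at hΛ
  have hlog2 : 0 < Real.log 2 := Real.log_pos (by norm_num)
  have hlog16 : 0 < Real.log 16 := Real.log_pos (by norm_num)
  have hΛ1 : 64 * Real.log 2 / η ≤ Λ := by
    have := le_max_left (64 * Real.log 2 / η) ((D + 2) * Real.log 16 / κ)
    linarith
  have hΛ2 : (D + 2) * Real.log 16 / κ ≤ Λ := by
    have := le_max_right (64 * Real.log 2 / η) ((D + 2) * Real.log 16 / κ)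
    linarith
  have hΛ0 : 0 < Λ := lt_of_lt_of_le (by positivity) hΛ1
  have hL0 : 0 < L := by linarith
  have hexpL : Real.exp Λ = L := by rw [hΛdef, Real.exp_log hL0]
  have htwo : Real.log 2 ≤ η / 64 * Λ := by
    rw [div_le_iff₀ h0] at hΛ1
    linarith
  have hbig : (D + 2) * Real.log 16 ≤ κ * Λ := by
    rw [div_le_iff₀ hκ0] at hΛ2
    linarith
  obtain ⟨Z, hZ⟩ : ∃ Z : Finset ℂ, Z = (F.map (algebraMap ℚ ℂ)).roots.toFinset ∪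
    (G.map (algebraMap ℚ ℂ)).roots.toFinset := ⟨_, rfl⟩
  have hcard : (Z.card : ℝ) ≤ D := by
    have c1 : ∀ P : ℚ[X], (P.map (algebraMap ℚ ℂ)).roots.toFinset.card ≤ P.natDegree := by
      intro P
      refine (Multiset.toFinset_card_le _).trans ((Polynomial.card_roots' _).trans ?_)
      exact Polynomial.natDegree_map_le
    have c2 : Z.card ≤ d + e := by
      rw [hZ]
      refine (Finset.card_union_le _ _).trans ?_
      have h2 := c1 F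
      have h3 := c1 G
      omega
    rw [hD]
    exact_mod_cast c2
  have hmF' : ∀ z ∈ (F.map (algebraMap ℚ ℂ)).roots, z ∈ Z := by
    intro z hz
    rw [hZ, Finset.mem_union, Multiset.mem_toFinset]
    exact Or.inl hz
  have hmG' : ∀ z ∈ (G.map (algebraMap ℚ ℂ)).roots, z ∈ Z := by
    intro z hz
    rw [hZ, Finset.mem_union, Multiset.mem_toFinset, Multiset.mem_toFinset]
    exact Or.inr hz
  obtain ⟨k, hk, hwin⟩ := exists_window Z hκ0 hΛ0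
  have hkD : (k : ℝ) ≤ D ^ 2 := by
    have h2 : (k : ℝ) ≤ (Z.card : ℝ) ^ 2 := by exact_mod_cast hk
    exact h2.trans (pow_le_pow_left₀ (Nat.cast_nonneg _) hcard 2)
  have hk0 : (0 : ℝ) ≤ k := Nat.cast_nonneg k
  have hκk : κ * (k + 1) ≤ η / 64 := by
    rw [hκ, div_mul_eq_mul_div, div_le_div_iff₀ (by positivity) (by norm_num)]
    have h2 : (k : ℝ) + 1 ≤ (D + 1) ^ 2 := by nlinarith
    have h3 := mul_le_mul_of_nonneg_left h2 h0.le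
    nlinarith
  have hκk' : κ * k ≤ η / 64 := by
    have : κ * (k + 1) = κ * k + κ := by ring
    linarith
  obtain ⟨ρ1, hρ1⟩ : ∃ ρ : ℝ, ρ = Real.exp ((1 - κ * (k + 1)) * Λ) := ⟨_, rfl⟩
  obtain ⟨ρ2, hρ2⟩ : ∃ ρ : ℝ, ρ = Real.exp ((1 - κ * k) * Λ) := ⟨_, rfl⟩
  rw [← hρ1, ← hρ2] at hwin
  have p1 : 0 < ρ1 := by rw [hρ1]; exact Real.exp_pos _
  have p2 : 0 < ρ2 := by rw [hρ2]; exact Real.exp_pos _
  obtain ⟨C, hCZ, hC1, hC2⟩ := exists_reps Z p1.le hwin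
  have hratio : ρ2 = Real.exp (κ * Λ) * ρ1 := by
    rw [hρ1, hρ2, ← Real.exp_add]
    congr 1
    ring
  have hsep : ∀ m : ℕ, (m : ℝ) ≤ D → 16 ^ (m + 2) * ρ1 ≤ ρ2 := by
    intro m hm
    rw [hratio]
    apply mul_le_mul_of_nonneg_right _ p1.le
    have h2 : ((16 : ℝ)) ^ (m + 2) = Real.exp (((m + 2 : ℕ) : ℝ) * Real.log 16) := by
      rw [Real.exp_nat_mul, Real.exp_log (by norm_num)]
    rw [h2]
    apply Real.exp_le_exp.mpr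
    refine le_trans ?_ hbig
    apply mul_le_mul_of_nonneg_right _ hlog16.le
    push_cast
    linarith
  have hθ : 7 / 8 ≤ 1 - κ * (k + 1) := by linarith
  refine ⟨ρ1, ρ2, C, ⟨p1, hsep d (by rw [hD]; linarith), hsep e (by rw [hD]; linarith), ?_, ?_, ?_, ?_, ?_,
    hC2, ?_, ?_, ?_, ?_⟩⟩
  · rw [← hexpL, hρ2]
    apply Real.exp_le_exp.mpr
    have h2 : 0 ≤ κ * k * Λ := by positivity
    have h3 : (1 - κ * k) * Λ = Λ - κ * k * Λ := by ring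
    linarith
  · rw [← hΛdef]
    have h2 : η / 16 * Λ = η / 64 * Λ + 3 * (η / 64 * Λ) := by ring
    have h3 : 0 ≤ η / 64 * Λ := by positivity
    linarith
  · rw [Real.log_div p2.ne' (by norm_num), hρ2, Real.log_exp, ← hΛdef]
    have h2 : κ * k * Λ ≤ η / 64 * Λ := mul_le_mul_of_nonneg_right hκk' hΛ0.le
    have h3 : (1 - κ * k) * Λ = Λ - κ * k * Λ := by ring
    have h4 : η / 32 * Λ = η / 64 * Λ + η / 64 * Λ := by ring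
    linarith
  · rw [hρ1, hΛdef]
    exact lead_ge hF hd hL hmF hθ
  · rw [hρ1, hΛdef]
    exact lead_ge hG he hL hmG hθ
  · intro c hc z hz
    exact hwin z (hmF' z hz) c (hCZ hc)
  · intro c hc z hz
    exact hwin z (hmG' z hz) c (hCZ hc)
  · intro z hz
    exact hC1 z (hmF' z hz)
  · intro z hz
    exact hC1 z (hmG' z hz)

end F0744C
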