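import Mathlib

/-! # Row Red1a: rational coefficients -/

set_option autoImplicit false

open Polynomial

namespace F0744C

/-- `F = Lagrange.interpolate (Finset.range (d + 1)) x y`; `F.map` and `f` have degree `< d + 1` and agree at the
`d + 1` points `x i` (`Polynomial.eq_of_degrees_lt_of_eval_finset_eq` or the uniqueness of the interpolation). -/
theorem rat_poly {f : ℝ[X]} {d : ℕ} (hf : f.natDegree = d) {x y : ℕ → ℚ}
    (hx : Set.InjOn x (Set.Iio (d + 1))) (h : ∀ i < d + 1, f.eval (x i : ℝ) = (y i : ℝ)) :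
    ∃ F : ℚ[X], F.map (algebraMap ℚ ℝ) = f ∧ F.natDegree = d := by
  classical
  have hinj : Set.InjOn x (Finset.range (d + 1) : Set ℕ) := by
    intro i hi j hj hij
    exact hx (by simpa using hi) (by simpa using hj) hij
  obtain ⟨F, hF⟩ : ∃ F : ℚ[X], F = Lagrange.interpolate (Finset.range (d + 1)) x y := ⟨_, rfl⟩
  have hdeg : F.degree < ((d + 1 : ℕ) : WithBot ℕ) := by
    have h1 := Lagrange.degree_interpolate_lt (r := y) hinj
    rw [Finset.card_range] at h1
    rw [hF]
    exact h1
  have hev : ∀ i < d + 1, F.eval (x i) = y i := by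
    intro i hi
    rw [hF]
    exact Lagrange.eval_interpolate_at_node y hinj (Finset.mem_range.2 hi)
  have hmap : F.map (algebraMap ℚ ℝ) = f := by
    let s : Finset ℝ := (Finset.range (d + 1)).image (fun i => (x i : ℝ))
    have hs : s.card = d + 1 := by
      rw [Finset.card_image_of_injOn, Finset.card_range]
      intro i hi j hj hij
      have hij' : ((x i : ℚ) : ℝ) = ((x j : ℚ) : ℝ) := hij
      exact hinj hi hj (by exact_mod_cast hij')
    refine Polynomial.eq_of_degrees_lt_of_eval_finset_eq s ?_ ?_ ?_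
    · rw [hs]
      exact (Polynomial.degree_map_le (f := algebraMap ℚ ℝ) (p := F)).trans_lt hdeg
    · rw [hs]
      refine (Polynomial.degree_le_natDegree (p := f)).trans_lt ?_
      rw [hf]
      exact_mod_cast Nat.lt_succ_self d
    · intro t ht
      obtain ⟨i, hi, rfl⟩ := Finset.mem_image.1 ht
      have hi' := Finset.mem_range.1 hi
      rw [h i hi', Polynomial.eval_map_algebraMap, ← hev i hi']
      change aeval ((algebraMap ℚ ℝ) (x i)) F = (algebraMap ℚ ℝ) (eval (x i) F)
      rw [Polynomial.aeval_algebraMap_apply, Polynomial.coe_aeval_eq_eval]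
  refine ⟨F, hmap, ?_⟩
  rw [← hf, ← hmap, Polynomial.natDegree_map]

end F0744C
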