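import Pool.Agent.Lib.MP_f0744f_nt.C.Defs
import Pool.Agent.Lib.MP_f0744f_nt.C.Red1a

/-! # Row Red1: integral coordinates -/

set_option autoImplicit false

open Polynomial

namespace F0744C

/-- The same proof as `F0744.coords` in `Pool/Agent/Lib/MP_f0744f_nt/RedS.lean` (where `s₀ ∈ S` is chosen, but
not stated). -/
theorem coords0 (S : Finset ℚ) (hS : 2 ≤ S.card) : ∃ (c : ℚ → ℤ) (s₀ mu : ℚ), s₀ ∈ S ∧ mu ≠ 0 ∧
    (∀ s ∈ S, (c s : ℚ) = (s - s₀) * mu) ∧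
    (∀ p : ℕ, p.Prime → ∃ x ∈ S.image c, ∃ y ∈ S.image c, ¬ (p : ℤ) ∣ x - y) := by
  obtain ⟨s₀, hs₀, s₁, hs₁, hne⟩ := Finset.one_lt_card.1 (show 1 < S.card by omega)
  set D : ℕ := ∏ s ∈ S, s.den with hD
  have hD0 : (D : ℚ) ≠ 0 := by
    rw [hD]; exact_mod_cast Finset.prod_ne_zero_iff.2 fun (s : ℚ) _ => s.den_nz
  have hint : ∀ s ∈ S, ∃ z : ℤ, (z : ℚ) = s * D := by
    intro s hs
    obtain ⟨k, hk⟩ : s.den ∣ D := Finset.dvd_prod_of_mem _ hs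
    refine ⟨s.num * k, ?_⟩
    rw [hk]
    push_cast
    rw [← mul_assoc, Rat.mul_den_eq_num]
  choose! z hz using hint
  set G : ℤ := S.gcd (fun s => z s - z s₀) with hG
  have hGdvd : ∀ s ∈ S, G ∣ z s - z s₀ := fun s hs => Finset.gcd_dvd hs
  have hG0 : G ≠ 0 := by
    intro h
    have := (Finset.gcd_eq_zero_iff.1 h) s₁ hs₁
    have h1 : (z s₁ : ℚ) = z s₀ := by exact_mod_cast sub_eq_zero.1 this
    rw [hz s₁ hs₁, hz s₀ hs₀] at h1
    exact hne (mul_right_cancel₀ hD0 h1).symm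
  refine ⟨fun s => (z s - z s₀) / G, s₀, D / G, hs₀, div_ne_zero hD0 (by exact_mod_cast hG0), ?_, ?_⟩
  · intro s hs
    have h1 : ((((z s - z s₀) / G : ℤ)) : ℚ) = ((z s - z s₀ : ℤ) : ℚ) / G :=
      Int.cast_div (hGdvd s hs) (by exact_mod_cast hG0)
    simp only []
    rw [h1]
    push_cast
    rw [hz s hs, hz s₀ hs₀]
    ring
  · intro p hp
    by_contra hcon
    push Not at hcon
    have hall : ∀ s ∈ S, (p : ℤ) ∣ (z s - z s₀) / G := by
      intro s hs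
      have := hcon _ (Finset.mem_image_of_mem _ hs) _ (Finset.mem_image_of_mem _ hs₀)
      simpa using this
    have h1 : (p : ℤ) * G ∣ G := by
      conv_rhs => rw [hG]
      refine Finset.dvd_gcd fun s hs => ?_
      obtain ⟨k, hk⟩ := hall s hs
      refine ⟨k, ?_⟩
      have := Int.ediv_mul_cancel (hGdvd s hs)
      rw [hk] at this
      rw [← this]; ring
    obtain ⟨k, hk⟩ := h1
    have h2 : (1 : ℤ) = p * k := by
      apply mul_left_cancel₀ hG0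
      linear_combination hk
    have h3 : (p : ℤ) ∣ 1 := ⟨k, h2⟩
    have h4 : (p : ℕ) ∣ 1 := by exact_mod_cast h3
    exact hp.one_lt.ne' (Nat.dvd_one.1 h4)

/-- The map `t ↦ mu * (F (t / mu + s₀) - s₀)`, that is `C mu * (F.comp (C mu⁻¹ * X + C s₀) - C s₀)`, and
`ph t = c (F (t / mu + s₀))`. Model: `F0744.mkQM` in `Pool/Agent/Lib/MP_f0744f_nt/RedS.lean`. -/
theorem exists_PM (S : Finset ℚ) (c : ℚ → ℤ) (s₀ mu : ℚ) (hmu : mu ≠ 0)
    (hc : ∀ s ∈ S, (c s : ℚ) = (s - s₀) * mu) (a : ℚ) {F : ℚ[X]} {d : ℕ} (hF : F.natDegree = d)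
    (hmaps : ∀ s ∈ S, s ≠ a → F.eval s ∈ S)
    (hinj : ∀ s ∈ S, ∀ t ∈ S, s ≠ a → t ≠ a → F.eval s = F.eval t → s = t) :
    Nonempty (PM (S.image c) (c a) d) := by
  have key : ∀ s ∈ S, mu⁻¹ * (c s : ℚ) + s₀ = s := by
    intro s hs
    rw [hc s hs]
    field_simp
    ring
  refine ⟨⟨C mu * (F.comp (C mu⁻¹ * X + C s₀) - C s₀), ?_,
    fun t => c (F.eval (mu⁻¹ * (t : ℚ) + s₀)), ?_, ?_, ?_⟩⟩
  · rw [natDegree_C_mul hmu, natDegree_sub_C, natDegree_comp, natDegree_linear (inv_ne_zero hmu),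
      mul_one, hF]
  · intro x hx hxa
    obtain ⟨s, hs, rfl⟩ := Finset.mem_image.1 hx
    have hsa : s ≠ a := fun h => hxa (by rw [h])
    show c (F.eval (mu⁻¹ * ((c s : ℤ) : ℚ) + s₀)) ∈ S.image c
    rw [key s hs]
    exact Finset.mem_image_of_mem c (hmaps s hs hsa)
  · intro x hx hxa
    obtain ⟨s, hs, rfl⟩ := Finset.mem_image.1 hx
    have hsa : s ≠ a := fun h => hxa (by rw [h])
    show ((c (F.eval (mu⁻¹ * ((c s : ℤ) : ℚ) + s₀)) : ℤ) : ℚ) =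
      (C mu * (F.comp (C mu⁻¹ * X + C s₀) - C s₀)).eval ((c s : ℤ) : ℚ)
    rw [eval_mul, eval_sub, eval_comp, eval_add, eval_mul, eval_C, eval_C, eval_C, eval_X, key s hs,
      hc _ (hmaps s hs hsa), mul_comm]
  · intro x hx y hy hxa hya h
    obtain ⟨s, hs, rfl⟩ := Finset.mem_image.1 hx
    obtain ⟨t, ht, rfl⟩ := Finset.mem_image.1 hy
    have hsa : s ≠ a := fun h => hxa (by rw [h])
    have hta : t ≠ a := fun h => hya (by rw [h])
    have h1 : c (F.eval (mu⁻¹ * ((c s : ℤ) : ℚ) + s₀)) =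
      c (F.eval (mu⁻¹ * ((c t : ℤ) : ℚ) + s₀)) := h
    rw [key s hs, key t ht] at h1
    have h2 : ((c (F.eval s) : ℤ) : ℚ) = ((c (F.eval t) : ℤ) : ℚ) := by rw [h1]
    rw [hc _ (hmaps s hs hsa), hc _ (hmaps t ht hta)] at h2
    have h3 : F.eval s = F.eval t := by
      have := mul_right_cancel₀ hmu h2
      linarith
    rw [hinj s hs t ht hsa hta h3]

end F0744C
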