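import Pool.Agent.Lib.MP_f0744f_nt.RedS
import Pool.Agent.Lib.MP_f0744f_nt.C.Red1

/-! # Row Red2: different last points -/

set_option autoImplicit false

open Polynomial

namespace F0744C

/-- A real polynomial of degree `d` with an orbit of at least `d + 2` rational points comes from a
rational polynomial, which maps `S` minus the last point injectively into `S`. -/
theorem Red2_key {f : ℝ[X]} {d : ℕ} (hf : f.natDegree = d) {x : ℕ → ℚ} {m : ℕ} (hmd : d + 1 ≤ m)
    (hx : F0744.Orb f x (m + 1)) {S : Finset ℚ} (hS : S = (Finset.range (m + 1)).image x) :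
    ∃ F : ℚ[X], F.natDegree = d ∧ (∀ s ∈ S, s ≠ x m → F.eval s ∈ S) ∧
      (∀ s ∈ S, ∀ t ∈ S, s ≠ x m → t ≠ x m → F.eval s = F.eval t → s = t) := by
  obtain ⟨F, hFf, hFd⟩ := rat_poly hf (x := x) (y := fun i => x (i + 1))
    (hx.inj.mono (Set.Iio_subset_Iio (by omega)))
    (fun i hi => hx.step i (by omega))
  have hstep : ∀ i, i < m → F.eval (x i) = x (i + 1) := by
    intro i hi
    have h1 := hx.step i (by omega)
    rw [← hFf, eval_map] at h1
    have h2 : eval₂ (algebraMap ℚ ℝ) ((x i : ℚ) : ℝ) F = ((F.eval (x i) : ℚ) : ℝ) :=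
      eval₂_at_apply (p := F) (algebraMap ℚ ℝ) (x i)
    rw [h2] at h1
    exact_mod_cast h1
  have hmem : ∀ s ∈ S, s ≠ x m → ∃ i < m, s = x i := by
    intro s hs hsm
    rw [hS] at hs
    obtain ⟨i, hi, rfl⟩ := Finset.mem_image.1 hs
    refine ⟨i, ?_, rfl⟩
    have hi' := Finset.mem_range.1 hi
    rcases Nat.lt_succ_iff_lt_or_eq.1 hi' with h | h
    · exact h
    · exact absurd (by rw [h]) hsm
  refine ⟨F, hFd, ?_, ?_⟩
  · intro s hs hsm
    obtain ⟨i, hi, rfl⟩ := hmem s hs hsm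
    rw [hstep i hi, hS]
    exact Finset.mem_image_of_mem _ (Finset.mem_range.2 (by omega))
  · intro s hs t ht hsm htm he
    obtain ⟨i, hi, rfl⟩ := hmem s hs hsm
    obtain ⟨j, hj, rfl⟩ := hmem t ht htm
    rw [hstep i hi, hstep j hj] at he
    have := hx.inj (show i + 1 ∈ Set.Iio (m + 1) by simpa using hi)
      (show j + 1 ∈ Set.Iio (m + 1) by simpa using hj) he
    rw [Nat.succ_injective this]

/-- The case of different last points. Model: `F0744.main_ne` (RedS.lean). `rat_poly` (`x`, `y := fun i => x (i + 1)`,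
`m + 1 ≥ d + 2` points) gives `F`, `F (x i) = x (i + 1)` for `i < m` (cast to `ℝ`, `eval_map`), so `F` maps
`S \ {x m}` injectively into `S`; `coords0`, `exists_PM` for both maps; `0 = c s₀ ∈ S.image c`. -/
theorem red_ne {d e : ℕ} {N0 : ℕ}
    (h : ∀ (S : Finset ℤ) (a b : ℤ), a ∈ S → b ∈ S → a ≠ b → (0 : ℤ) ∈ S → N0 ≤ S.card →
      (∀ p : ℕ, p.Prime → ∃ x ∈ S, ∃ y ∈ S, ¬ (p : ℤ) ∣ x - y) →
      ∀ (_ : PM S a d) (_ : PM S b e), False)
    {f g : ℝ[X]} (hf : f.natDegree = d) (hg : g.natDegree = e) {x y : ℕ → ℚ} {m : ℕ}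
    (hm : N0 ≤ m + 1) (hmd : d + 1 ≤ m) (hme : e + 1 ≤ m) (hx : F0744.Orb f x (m + 1))
    (hy : F0744.Orb g y (m + 1))
    (himg : (Finset.range (m + 1)).image x = (Finset.range (m + 1)).image y)
    (hne : x m ≠ y m) : False := by
  set S := (Finset.range (m + 1)).image x with hSdef
  obtain ⟨F, hF, hmaps, hinj⟩ := Red2_key hf hmd hx hSdef
  obtain ⟨G, hG, hmaps', hinj'⟩ := Red2_key hg hme hy himg
  have hcard : S.card = m + 1 := by
    rw [hSdef, Finset.card_image_of_injOn (by simpa using hx.inj), Finset.card_range]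
  obtain ⟨c, s₀, mu, hs₀, hmu, hc, hprime⟩ := coords0 S (by omega)
  have hcinj : ∀ s ∈ S, ∀ t ∈ S, c s = c t → s = t := by
    intro s hs t ht he
    have h1 : (c s : ℚ) = c t := by exact_mod_cast he
    rw [hc s hs, hc t ht] at h1
    have := mul_right_cancel₀ hmu h1
    linarith
  have hxm : x m ∈ S := by
    rw [hSdef]; exact Finset.mem_image_of_mem _ (Finset.mem_range.2 (by omega))
  have hym : y m ∈ S := by
    rw [himg]; exact Finset.mem_image_of_mem _ (Finset.mem_range.2 (by omega))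
  have h0 : (0 : ℤ) ∈ S.image c := by
    refine Finset.mem_image.2 ⟨s₀, hs₀, ?_⟩
    have h1 : (c s₀ : ℚ) = 0 := by rw [hc s₀ hs₀, sub_self, zero_mul]
    exact_mod_cast h1
  obtain ⟨P⟩ := exists_PM S c s₀ mu hmu hc (x m) hF hmaps hinj
  obtain ⟨Q⟩ := exists_PM S c s₀ mu hmu hc (y m) hG hmaps' hinj'
  exact h (S.image c) (c (x m)) (c (y m)) (Finset.mem_image_of_mem _ hxm)
    (Finset.mem_image_of_mem _ hym) (fun he => hne (hcinj _ hxm _ hym he)) h0
    (by
      rw [Finset.card_image_of_injOn (fun s hs t ht he => hcinj s hs t ht he), hcard]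
      exact hm) hprime P Q

end F0744C
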